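import Pool.Agent.Lib.MP_1e09a3_nt.FO.Stmts73

/-!
First order equations: statements of the theorem in a chart and of the case `y' = P(z, y)`.
-/

open MvPolynomial

namespace Pool.Agent.Lib.MP_1e09a3_nt.FO

/-- The theorem for a pair `u, v` over which `z` and `y` are algebraic. -/
def ChartStmt : Prop :=
  ∀ (Ω : Type) [Field Ω] [IsAlgClosed Ω] [Algebra ℂ Ω] (D : Derivation ℂ Ω Ω),
    (∀ x, D x = 0 → ∃ c : ℂ, algebraMap ℂ Ω c = x) → ∀ z y u v : Ω, D z = 1 → IsFlatElt D y →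
    IsAlgebraic (IntermediateField.adjoin ℂ {u, v}) z →
    IsAlgebraic (IntermediateField.adjoin ℂ {u, v}) y →
    ∀ A : Fin 2 → MvPolynomial (Fin 2) ℂ,
    aeval ![u, v] (A 0) * D v = aeval ![u, v] (A 1) * D u →
    (BadPoint A ∨ BadLine A) → ¬ AlgebraicIndependent ℂ ![z, y]

/-- The case `y' = P(z, y)` with `P` of degree at least two in `y` and constant leading
coefficient (`P` is a polynomial in `y` with coefficients in `ℂ[z]`). -/
def MonicStmt : Prop :=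
  ∀ (Ω : Type) [Field Ω] [IsAlgClosed Ω] [Algebra ℂ Ω] (D : Derivation ℂ Ω Ω),
    (∀ x, D x = 0 → ∃ c : ℂ, algebraMap ℂ Ω c = x) → ∀ z y : Ω, D z = 1 → IsFlatElt D y →
    ∀ P : Polynomial (Polynomial ℂ), 2 ≤ P.natDegree →
    (∃ c : ℂ, c ≠ 0 ∧ P.leadingCoeff = Polynomial.C c) →
    D y = Polynomial.eval₂ (Polynomial.aeval z : Polynomial ℂ →ₐ[ℂ] Ω).toRingHom y P →
    ¬ AlgebraicIndependent ℂ ![z, y]

end Pool.Agent.Lib.MP_1e09a3_nt.FO
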