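import Pool.Agent.Lib.MP_1e09a3_nt.FO.Main73
import Pool.Agent.Lib.MP_1e09a3_nt.FO.StmtsM73

/-!
First order equations: the theorem in a chart.
-/

open MvPolynomial

namespace Pool.Agent.Lib.MP_1e09a3_nt.FO

open FE

theorem isFlatElt_of_isAlgebraic {C Ω : Type} [Field C] [Field Ω] [CharZero Ω] [Algebra C Ω]
    {D : Derivation C Ω Ω} (L : IntermediateField C Ω) (hL : ∀ x ∈ L, IsFlatElt D x) {w : Ω}
    (hw : IsAlgebraic L w) : IsFlatElt D w := by
  have : CharZero L := charZero_of_injective_algebraMap (algebraMap L Ω).injective |>.casesOn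
    fun h => ⟨fun x y hxy => h (by exact_mod_cast congrArg (algebraMap L Ω) hxy)⟩
  have hint := hw.isIntegral
  refine isFlatElt_algebraic (D := D) ((minpoly L w).map (algebraMap L Ω)) (fun n => ?_) ?_ ?_
  · rw [Polynomial.coeff_map]
    exact hL _ ((minpoly L w).coeff n).2
  · rw [Polynomial.eval_map_algebraMap]
    exact minpoly.aeval L w
  · rw [Polynomial.derivative_map, Polynomial.eval_map_algebraMap]
    exact (minpoly.irreducible hint).separable.aeval_derivative_ne_zero (minpoly.aeval L w)

theorem chart_73 (hpc : PClosedStmt) (hloc : LocalStmt) (hsp : SpectralStmt) (hline : LineStmt)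
    (hres : ResPStmt) (hlm : LauMapStmt) (hrat : RatStmt) (hpi : PiStmt) (hex : ExchStmt) :
    ChartStmt := by
  intro Ω _ _ _ D hconst z y u v hz hy hzalg hyalg A hrel hbad hind
  have : CharZero Ω := charZero_of_injective_algebraMap (algebraMap ℂ Ω).injective
  obtain ⟨huv, hu, hv⟩ := hex ℂ Ω z y u v hind hzalg hyalg
  have hL : ∀ x ∈ IntermediateField.adjoin ℂ {z, y}, IsFlatElt D x := by
    have h1 : IntermediateField.adjoin ℂ {z, y} ≤ flatField D := by
      rw [IntermediateField.adjoin_le_iff]
      rintro x (rfl | hx)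
      · exact isFlatElt_of_D_eq_one hz
      · rw [Set.mem_singleton_iff] at hx
        rw [hx]
        exact hy
    exact fun x hx => h1 hx
  have huf : IsFlatElt D u := isFlatElt_of_isAlgebraic _ hL hu
  have hvf : IsFlatElt D v := isFlatElt_of_isAlgebraic _ hL hv
  have hflat : ∀ i, IsFlatElt D ((![u, v] : Fin 2 → Ω) i) := by
    intro i
    fin_cases i
    · exact huf
    · exact hvf
  have hne : ∃ i, D ((![u, v] : Fin 2 → Ω) i) ≠ 0 := by
    refine ⟨0, fun h0 => ?_⟩
    obtain ⟨c, hc⟩ := hconst _ h0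
    have h1 := huv.transcendental 0
    apply h1
    rw [← hc]
    exact isAlgebraic_algebraMap c
  have hrel' : ∀ i j, aeval ![u, v] (A i) * D ((![u, v] : Fin 2 → Ω) j) =
      aeval ![u, v] (A j) * D ((![u, v] : Fin 2 → Ω) i) := by
    intro i j
    fin_cases i <;> fin_cases j
    · rfl
    · exact hrel
    · exact hrel.symm
    · rfl
  rcases hbad with hbad | hbad
  · exact main_point hpc hloc hsp Ω D z hz 2 ![u, v] hflat hne A hrel' hbad huv
  · exact main_line hpc hline hres hlm hrat hpi Ω D z hz ![u, v] hflat hne A hrel' hbad huv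

end Pool.Agent.Lib.MP_1e09a3_nt.FO
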