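import Pool.Agent.Lib.MP_1e09a3_nt.FO.Stmts73
import Pool.Agent.Lib.MP_1e09a3_nt.CF.Field27

/-!
MP_1e09a3_nt, first order equations, module FO2: from divisibility by `p` in a finitely generated
ring of functions to divisibility by `p` in the ring of polynomials over a finitely generated ring
of constants.
-/

set_option autoImplicit false

open MvPolynomial

namespace Pool.Agent.Lib.MP_1e09a3_nt.FO

open FE

/-- A polynomial with coefficients in the subring comes from the subring. -/
theorem lift21 {C : Type} [CommRing C] (B : Subring C) {N : ℕ} (q : MvPolynomial (Fin N) C)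
    (h : ∀ m, m ∈ q.support → coeff m q ∈ B) :
    ∃ q' : MvPolynomial (Fin N) B, map B.subtype q' = q := by
  have h1 : q ∈ Set.range (map (σ := Fin N) B.subtype) := by
    rw [mem_range_map_iff_coeffs_subset]
    intro a ha
    rw [Finset.mem_coe, mem_coeffs_iff] at ha
    obtain ⟨m, hm, rfl⟩ := ha
    exact ⟨⟨coeff m q, h m hm⟩, rfl⟩
  exact h1

/-- the algebraic core: integrality after the inversion of one element -/
theorem core21 {R K K' F : Type} [CommRing R] [IsDomain R] [Field K] [Field K'] [Algebra K K']
    [Field F] (α : R →+* K) (hα : Function.Injective α) (β : R →+* F) (p : ℕ) (hp : (p : F) = 0)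
    (h : R) (hβ : β h ≠ 0) (r : ℕ) (x : Fin r → K') (m : Fin r → Polynomial K)
    (hm : ∀ j, (m j).Monic) (h0 : ∀ j, Polynomial.aeval (x j) (m j) = 0)
    (hc : ∀ j i, ∃ n : R, α h * (m j).coeff i = α n) (g : R) (u : K) (hg : α g = p * u)
    (hu : algebraMap K K' u ∈ Algebra.adjoin ℤ (Set.range x)) : β g = 0 := by
  have hh : h ≠ 0 := by
    rintro rfl
    exact hβ (map_zero β)
  have hαh : α h ≠ 0 := by
    rw [Ne, map_eq_zero_iff α hα]
    exact hh
  set L := Localization.Away h with hL
  set φ : L →+* K := IsLocalization.Away.lift h (isUnit_iff_ne_zero.2 hαh) with hφ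
  set ψ : L →+* F := IsLocalization.Away.lift h (isUnit_iff_ne_zero.2 hβ) with hψ
  have hφa : ∀ a : R, φ (algebraMap R L a) = α a := fun a =>
    IsLocalization.Away.lift_eq h (isUnit_iff_ne_zero.2 hαh) a
  have hψa : ∀ a : R, ψ (algebraMap R L a) = β a := fun a =>
    IsLocalization.Away.lift_eq h (isUnit_iff_ne_zero.2 hβ) a
  have hφi : Function.Injective φ := by
    rw [hφ, IsLocalization.Away.lift]
    rw [IsLocalization.lift_injective_iff]
    intro a b
    constructor
    · intro hab
      rw [← hφa, ← hφa, hab]
    · intro hab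
      rw [hα hab]
  let _ : Algebra L K := φ.toAlgebra
  let _ : Algebra L K' := ((algebraMap K K').comp φ).toAlgebra
  have : IsScalarTower L K K' := IsScalarTower.of_algebraMap_eq fun _ => rfl
  -- the generators are integral
  have hxint : ∀ j, IsIntegral L (x j) := by
    intro j
    have hl : m j ∈ Polynomial.lifts φ := by
      rw [Polynomial.lifts_iff_coeff_lifts]
      intro i
      obtain ⟨n, hn⟩ := hc j i
      refine ⟨algebraMap R L n * IsLocalization.Away.invSelf h, ?_⟩
      have h1 : φ (IsLocalization.Away.invSelf h) * α h = 1 := by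
        rw [← hφa, ← map_mul, mul_comm, IsLocalization.Away.mul_invSelf, map_one]
      rw [map_mul, hφa, ← hn]
      calc α h * (m j).coeff i * φ (IsLocalization.Away.invSelf h)
          = (φ (IsLocalization.Away.invSelf h) * α h) * (m j).coeff i := by ring
        _ = (m j).coeff i := by rw [h1, one_mul]
    obtain ⟨P, hP, _, hPm⟩ := Polynomial.lifts_and_degree_eq_and_monic hl (hm j)
    refine ⟨P, hPm, ?_⟩
    have e : algebraMap L K' = (algebraMap K K').comp φ := rfl
    rw [e, ← Polynomial.eval₂_map, hP]
    exact h0 j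
  have hadj : ∀ w ∈ Algebra.adjoin ℤ (Set.range x), IsIntegral L w := by
    intro w hw
    induction hw using Algebra.adjoin_induction with
    | mem w hw =>
      obtain ⟨j, rfl⟩ := hw
      exact hxint j
    | algebraMap n =>
      have : algebraMap ℤ K' n = algebraMap L K' (n : L) := by
        rw [algebraMap_int_eq, eq_intCast]
        exact (map_intCast (algebraMap L K') n).symm
      rw [this]
      exact isIntegral_algebraMap
    | add a b _ _ ha hb => exact ha.add hb
    | mul a b _ _ ha hb => exact ha.mul hb
  have hui : IsIntegral L u :=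
    (isIntegral_algebraMap_iff (algebraMap K K').injective).1 (hadj _ hu)
  obtain ⟨P, hPm, hP0⟩ := hui
  have h1 := Polynomial.scaleRoots_eval₂_eq_zero (algebraMap L K) (s := (p : L)) hP0
  have h2 : algebraMap L K (p : L) * u = φ (algebraMap R L g) := by
    rw [map_natCast, hφa, hg]
  rw [h2] at h1
  have h3 : (P.scaleRoots (p : L)).eval (algebraMap R L g) = 0 := by
    apply hφi
    rw [map_zero, ← h1, Polynomial.eval, Polynomial.hom_eval₂]
    rfl
  have hψp : ψ (p : L) = 0 := by rw [map_natCast, hp]
  have h4 := congrArg ψ h3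
  rw [map_zero, Polynomial.eval, Polynomial.hom_eval₂, RingHom.comp_id,
    Polynomial.eval₂_eq_sum_range, Polynomial.natDegree_scaleRoots, Finset.sum_range_succ,
    Finset.sum_eq_zero] at h4
  · rw [zero_add, hψa] at h4
    have h5 : (P.scaleRoots (p : L)).coeff P.natDegree = 1 := by
      rw [Polynomial.coeff_scaleRoots_natDegree]
      exact hPm
    rw [h5, map_one, one_mul] at h4
    exact eq_zero_of_pow_eq_zero h4
  · intro i hi
    rw [Finset.mem_range] at hi
    rw [Polynomial.coeff_scaleRoots, map_mul, map_pow, hψp, zero_pow (by omega), mul_zero,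
      zero_mul]

theorem descend_21 : DescendStmt := by
  intro C Ω _ _ _ _ N f hf S hS T hT
  classical
  -- the rational functions
  set R := MvPolynomial (Fin N) C with hR
  set K := FractionRing R with hK
  have hinj : Function.Injective ((aeval f : R →ₐ[C] Ω) : R →+* Ω) := hf
  let _ : Algebra K Ω := (IsFractionRing.lift hinj).toAlgebra
  have hKΩ : ∀ q : R, algebraMap K Ω (algebraMap R K q) = aeval f q := fun q =>
    IsFractionRing.lift_algebraMap hinj q
  have := hS.fintype
  set x : Fin (Fintype.card S) → Ω := fun i => ((Fintype.equivFin S).symm i : Ω) with hx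
  have hxS : Set.range x = S := by
    ext s
    constructor
    · rintro ⟨i, rfl⟩
      exact ((Fintype.equivFin S).symm i).2
    · intro hs
      exact ⟨Fintype.equivFin S ⟨s, hs⟩, by simp [hx]⟩
  obtain ⟨K', _, _, _, x', hx'⟩ := CF.retract_27 K Ω _ x
  -- common denominator of the coefficients
  set m : Fin (Fintype.card S) → Polynomial K := fun j => minpoly K (x' j) with hm
  set s : Finset K := Finset.univ.biUnion fun j => (m j).coeffs with hs
  obtain ⟨b, hb⟩ := IsLocalization.exist_integer_multiples_of_finset (nonZeroDivisors R) s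
  set h : R := (b : R) with hh
  have hh0 : h ≠ 0 := nonZeroDivisors.ne_zero b.2
  have hb2 : ∀ κ : K, ∃ n : R, κ ∈ s → algebraMap R K n = algebraMap R K h * κ := by
    intro κ
    by_cases hκ : κ ∈ s
    · obtain ⟨n, hn⟩ := hb κ hκ
      refine ⟨n, fun _ => ?_⟩
      rw [hn, Algebra.smul_def]
    · exact ⟨0, fun h => absurd h hκ⟩
  choose n hn using hb2
  obtain ⟨e, he⟩ : ∃ e, coeff e h ≠ 0 := by
    by_contra hcon
    push Not at hcon
    exact hh0 (MvPolynomial.ext _ _ fun e => by rw [hcon e, coeff_zero])
  -- the finitely generated ring of constants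
  set T' : Set C := T ∪ {(coeff e h)⁻¹} ∪ (h.coeffs : Set C) ∪
    ⋃ κ ∈ s, ((n κ).coeffs : Set C) with hT'
  have hT'fin : T'.Finite := by
    refine Set.Finite.union (Set.Finite.union (Set.Finite.union hT (Set.finite_singleton _))
      (Finset.finite_toSet _)) ?_
    exact Set.Finite.biUnion (Finset.finite_toSet _) fun κ _ => Finset.finite_toSet _
  refine ⟨T', hT'fin, fun t ht => Subring.subset_closure (by simp [hT', ht]), ?_⟩
  set B : Subring C := Zg T' with hB
  have hTB : T' ⊆ B := Subring.subset_closure
  obtain ⟨h', hh'⟩ := lift21 B h fun d hd => hTB (by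
    left
    right
    rw [Finset.mem_coe, mem_coeffs_iff]
    exact ⟨d, hd, rfl⟩)
  have hn' : ∀ κ ∈ s, ∃ n' : MvPolynomial (Fin N) B, map B.subtype n' = n κ := by
    intro κ hκ
    refine lift21 B (n κ) fun d hd => hTB ?_
    right
    refine Set.mem_biUnion (by exact_mod_cast hκ) ?_
    rw [Finset.mem_coe, mem_coeffs_iff]
    exact ⟨d, hd, rfl⟩
  intro g p hdiv k _ _ _ π
  -- the two homomorphisms
  set ρ := MvPolynomial (Fin N) k with hρ
  set α : MvPolynomial (Fin N) B →+* K := (algebraMap R K).comp (map B.subtype) with hα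
  set β : MvPolynomial (Fin N) B →+* FractionRing ρ := (algebraMap ρ (FractionRing ρ)).comp (map π)
    with hβ
  have hρi : Function.Injective (algebraMap ρ (FractionRing ρ)) := IsFractionRing.injective _ _
  have hαi : Function.Injective α := by
    rw [hα]
    exact (IsFractionRing.injective R K).comp (map_injective _ B.subtype_injective)
  have hiB : (coeff e h)⁻¹ ∈ B := hTB (by simp [hT'])
  have hβh : β h' ≠ 0 := by
    intro h1
    have h2 : map π h' = 0 := hρi (by rw [map_zero]; exact h1)
    have h3 : π (coeff e h') = 0 := by rw [← coeff_map, h2, coeff_zero]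
    have h4 : coeff e h' * ⟨(coeff e h)⁻¹, hiB⟩ = (1 : B) := by
      apply Subtype.ext
      rw [Subring.coe_mul]
      have h5 : ((coeff e h' : B) : C) = coeff e h := by
        rw [← hh', coeff_map]
        rfl
      rw [h5]
      exact mul_inv_cancel₀ he
    have h6 := congrArg π h4
    rw [map_mul, h3, zero_mul, map_one] at h6
    exact zero_ne_one h6
  have hpF : (p : FractionRing ρ) = 0 := by
    have h1 : (p : ρ) = 0 := CharP.cast_eq_zero ρ p
    have h2 : (p : FractionRing ρ) = algebraMap ρ (FractionRing ρ) (p : ρ) := by rw [map_natCast]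
    rw [h2, h1, map_zero]
  have hp : p.Prime := Fact.out
  have hK0 : CharZero K := charZero_of_injective_algebraMap (algebraMap C K).injective
  have hpK : (p : K) ≠ 0 := by exact_mod_cast hp.ne_zero
  have hΩ0 : CharZero Ω := charZero_of_injective_algebraMap (algebraMap K Ω).injective
  have hpΩ : (p : Ω) ≠ 0 := by exact_mod_cast hp.ne_zero
  obtain ⟨t, htS, ht⟩ := hdiv
  have hu : algebraMap K K' (α g / p) ∈ Algebra.adjoin ℤ (Set.range x') := by
    apply hx'
    have h1 : algebraMap K Ω (α g / p) = t := by
      rw [map_div₀, map_natCast]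
      change algebraMap K Ω (algebraMap R K (map B.subtype g)) / (p : Ω) = t
      rw [hKΩ, div_eq_iff hpΩ, ht, mul_comm]
    rw [h1, hxS]
    exact htS
  have hβg : β g = 0 := by
    refine core21 α hαi β p hpF h' hβh _ x' m (fun j => ?_) (fun j => ?_) (fun j i => ?_) g
      (α g / p) (mul_div_cancel₀ _ hpK).symm hu
    · exact minpoly.monic (Algebra.IsIntegral.isIntegral (R := K) (x' j))
    · exact minpoly.aeval K (x' j)
    · by_cases hi : (m j).coeff i ∈ s
      · obtain ⟨n', hn'⟩ := hn' _ hi
        refine ⟨n', ?_⟩
        change algebraMap R K (map B.subtype h') * _ = algebraMap R K (map B.subtype n')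
        rw [hh', hn', hn _ hi]
      · refine ⟨0, ?_⟩
        have : (m j).coeff i = 0 := by
          by_contra h0
          apply hi
          rw [hs, Finset.mem_biUnion]
          exact ⟨j, Finset.mem_univ _, Polynomial.coeff_mem_coeffs h0⟩
        rw [this, mul_zero, map_zero]
  exact hρi (by rw [map_zero]; exact hβg)

end Pool.Agent.Lib.MP_1e09a3_nt.FO
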