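import Pool.Agent.Lib.MP_1e09a3_nt.FO.Stmts73

/-!
FO8: exactness in characteristic `p`.
-/

open Finset

namespace Pool.Agent.Lib.MP_1e09a3_nt.FO

namespace Exact39

section ring

variable {R : Type*} [Ring R] {N V W : R}

theorem ad_mul (N V W B : R) (hN : N * V - V * N = W) (hW : W * V = V * W) (k : ℕ) :
    (fun T : R => T * V - V * T)^[k + 1] (N * B) =
      N * (fun T : R => T * V - V * T)^[k + 1] B +
        (k + 1) • (W * (fun T : R => T * V - V * T)^[k] B) := by
  have hNV : N * V = V * N + W := by rw [← hN]; abel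
  induction k with
  | zero =>
    show N * B * V - V * (N * B) = N * (B * V - V * B) + (0 + 1) • (W * B)
    have h1 : N * (V * B) = V * (N * B) + W * B := by
      rw [← mul_assoc, hNV, add_mul, mul_assoc]
    rw [mul_sub, h1, zero_add, one_smul, mul_assoc]
    abel
  | succ k ih =>
    rw [Function.iterate_succ_apply', ih, Function.iterate_succ_apply' _ (k + 1) B]
    obtain ⟨X, hX⟩ : ∃ X : R, X = (fun T : R => T * V - V * T)^[k + 1] B := ⟨_, rfl⟩
    have hX2 : (fun T : R => T * V - V * T)^[k] B * V - V * (fun T : R => T * V - V * T)^[k] B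
        = X := by
      rw [hX, Function.iterate_succ_apply']
    obtain ⟨Y, hY⟩ : ∃ Y : R, Y = (fun T : R => T * V - V * T)^[k] B := ⟨_, rfl⟩
    rw [← hY] at hX2
    rw [← hX, ← hY]
    show (N * X + (k + 1) • (W * Y)) * V - V * (N * X + (k + 1) • (W * Y)) =
      N * (X * V - V * X) + (k + 1 + 1) • (W * X)
    have h1 : N * (V * X) = V * (N * X) + W * X := by
      rw [← mul_assoc, hNV, add_mul, mul_assoc]
    have h2 : V * (W * Y) = W * (V * Y) := by rw [← mul_assoc, ← hW, mul_assoc]
    rw [add_mul, mul_add, mul_sub, h1, smul_mul_assoc, mul_smul_comm, h2, add_smul (k + 1) 1,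
      one_smul, mul_assoc, mul_assoc]
    have h3 : (k + 1) • (W * X) = (k + 1) • (W * (Y * V)) - (k + 1) • (W * (V * Y)) := by
      rw [← hX2, mul_sub, smul_sub]
    rw [h3]
    abel

theorem ad_zero (V : R) (k : ℕ) : (fun T : R => T * V - V * T)^[k] 0 = 0 := by
  induction k with
  | zero => rfl
  | succ k ih => rw [Function.iterate_succ_apply', ih]; simp

theorem ad_nsmul (V B : R) (c k : ℕ) : (fun T : R => T * V - V * T)^[k] (c • B) =
    c • (fun T : R => T * V - V * T)^[k] B := by
  induction k with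
  | zero => rfl
  | succ k ih =>
    rw [Function.iterate_succ_apply', ih, Function.iterate_succ_apply']
    show c • _ * V - V * (c • _) = c • (_ * V - V * _)
    rw [smul_mul_assoc, mul_smul_comm, smul_sub]

theorem ad_sub (V A B : R) (k : ℕ) : (fun T : R => T * V - V * T)^[k] (A - B) =
    (fun T : R => T * V - V * T)^[k] A - (fun T : R => T * V - V * T)^[k] B := by
  induction k with
  | zero => rfl
  | succ k ih =>
    rw [Function.iterate_succ_apply', ih, Function.iterate_succ_apply',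
      Function.iterate_succ_apply']
    show (_ - _) * V - V * (_ - _) = (_ * V - V * _) - (_ * V - V * _)
    rw [sub_mul, mul_sub]
    abel

theorem ad_pow (N V W : R) (hN : N * V - V * N = W) (hW : W * V = V * W) (m : ℕ) :
    (fun T : R => T * V - V * T)^[m] (N ^ m) = m.factorial • W ^ m ∧
      (fun T : R => T * V - V * T)^[m + 1] (N ^ m) = 0 := by
  have hWm : ∀ m : ℕ, W ^ m * V - V * W ^ m = 0 := by
    intro m
    rw [sub_eq_zero]
    exact (Commute.pow_left hW m).eq
  have hsucc : ∀ m : ℕ, (fun T : R => T * V - V * T)^[m] (N ^ m) = m.factorial • W ^ m →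
      (fun T : R => T * V - V * T)^[m + 1] (N ^ m) = 0 := by
    intro m h
    rw [Function.iterate_succ_apply', h]
    show m.factorial • W ^ m * V - V * (m.factorial • W ^ m) = 0
    rw [smul_mul_assoc, mul_smul_comm, ← smul_sub, hWm, smul_zero]
  induction m with
  | zero =>
    have h0 : (fun T : R => T * V - V * T)^[0] (N ^ 0) = (Nat.factorial 0) • W ^ 0 := by simp
    exact ⟨h0, hsucc 0 h0⟩
  | succ m ih =>
    have h1 : (fun T : R => T * V - V * T)^[m + 1] (N ^ (m + 1)) =
        (m + 1).factorial • W ^ (m + 1) := by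
      rw [pow_succ', ad_mul N V W _ hN hW, ih.2, ih.1, mul_zero, zero_add, mul_smul_comm,
        smul_smul, ← pow_succ', Nat.factorial_succ]
    exact ⟨h1, hsucc _ h1⟩

end ring

section field

variable {F : Type} [Field F] (δ : Derivation ℤ F F) (a : F)

/-- the operator `δ + a` -/
noncomputable def NN : Module.End ℤ F := (δ : F →ₗ[ℤ] F) + LinearMap.mulLeft ℤ a

theorem NN_apply (x : F) : NN δ a x = δ x + a * x := rfl

theorem NN_pow (k : ℕ) (x : F) : (NN δ a ^ k) x = (fun g => δ g + a * g)^[k] x := by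
  rw [Module.End.pow_apply]
  rfl

theorem NN_mul (h u : F) : NN δ a (h * u) = δ h * u + h * NN δ a u := by
  rw [NN_apply, NN_apply, Derivation.leibniz, smul_eq_mul, smul_eq_mul]
  ring

theorem kills (V T : Module.End ℤ F) (v : F) (hV : ∀ x, V x = v * x) (n : ℕ)
    (hT : ∀ j ≤ n, T (v ^ j) = 0) :
    ((fun T : Module.End ℤ F => T * V - V * T)^[n] T) 1 = 0 := by
  induction n generalizing T with
  | zero => simpa using hT 0 le_rfl
  | succ n ih =>
    rw [Function.iterate_succ_apply]
    refine ih _ fun j hj => ?_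
    show T (V (v ^ j)) - V (T (v ^ j)) = 0
    rw [hV, hV, ← pow_succ', hT (j + 1) (by omega), hT j (by omega), mul_zero, sub_zero]

/-- The operator `N^(p-1) - f` does not vanish. -/
theorem exists_ne (p : ℕ) [CharP F p] [hp : Fact p.Prime] (v f : F) (hv : δ v ≠ 0) :
    ∃ h : F, (NN δ a ^ (p - 1)) h ≠ f * h := by
  by_contra hcon
  push Not at hcon
  obtain ⟨V, hV⟩ : ∃ V : Module.End ℤ F, V = LinearMap.mulLeft ℤ v := ⟨_, rfl⟩
  obtain ⟨W, hW⟩ : ∃ W : Module.End ℤ F, W = LinearMap.mulLeft ℤ (δ v) := ⟨_, rfl⟩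
  obtain ⟨E, hE⟩ : ∃ E : Module.End ℤ F, E = LinearMap.mulLeft ℤ f := ⟨_, rfl⟩
  have hVx : ∀ x, V x = v * x := fun x => by rw [hV]; rfl
  have hWx : ∀ x, W x = δ v * x := fun x => by rw [hW]; rfl
  have hEx : ∀ x, E x = f * x := fun x => by rw [hE]; rfl
  have c1 : NN δ a * V - V * NN δ a = W := by
    ext x
    show NN δ a (V x) - V (NN δ a x) = W x
    rw [hVx, hVx, hWx, NN_mul]
    ring
  have c2 : W * V = V * W := by
    ext x
    show W (V x) = V (W x)
    rw [hVx, hVx, hWx, hWx]
    ring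
  have c3 : E * V - V * E = 0 := by
    ext x
    show E (V x) - V (E x) = 0
    rw [hVx, hVx, hEx, hEx]
    ring
  have hp1 : 1 ≤ p - 1 := by have := hp.out.two_le; omega
  obtain ⟨n, hn⟩ : ∃ n, p - 1 = n + 1 := ⟨p - 2, by omega⟩
  have c4 : (fun T : Module.End ℤ F => T * V - V * T)^[p - 1] E = 0 := by
    rw [hn, Function.iterate_succ_apply, c3, ad_zero]
  have k1 := kills V (NN δ a ^ (p - 1) - E) v hVx (p - 1) (fun j _ => by
    show (NN δ a ^ (p - 1)) (v ^ j) - E (v ^ j) = 0
    rw [hcon, hEx, sub_self])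
  rw [ad_sub, c4, sub_zero, (ad_pow _ V W c1 c2 (p - 1)).1] at k1
  have k2 : ((p - 1).factorial • W ^ (p - 1)) (1 : F) = ((p - 1).factorial : F) *
      δ v ^ (p - 1) := by
    have k3 : ∀ m : ℕ, (W ^ m) (1 : F) = δ v ^ m := by
      intro m
      induction m with
      | zero => simp
      | succ m ih =>
        rw [pow_succ' W m]
        show W ((W ^ m) 1) = _
        rw [ih, hWx, ← pow_succ']
    rw [LinearMap.smul_apply, k3, nsmul_eq_mul]
  rw [k2] at k1
  rcases mul_eq_zero.1 k1 with h | h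
  · have h5 : p ∣ (p - 1).factorial := (CharP.cast_eq_zero_iff F p _).1 h
    have h6 := (hp.out.dvd_factorial).1 h5
    have := hp.out.pos
    omega
  · exact hv (pow_eq_zero_iff (by omega : p - 1 ≠ 0) |>.1 h)

/-- Leibniz' rule. -/
theorem leib (n : ℕ) (h u : F) : (NN δ a ^ n) (h * u) =
    ∑ ij ∈ antidiagonal n, (n.choose ij.1 : F) * ((⇑δ)^[ij.1] h * (NN δ a ^ ij.2) u) := by
  induction n with
  | zero => simp
  | succ n ih =>
    rw [pow_succ']
    show NN δ a ((NN δ a ^ n) (h * u)) = _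
    rw [ih, map_sum]
    have h1 : ∀ ij ∈ antidiagonal n, NN δ a ((n.choose ij.1 : F) * ((⇑δ)^[ij.1] h *
        (NN δ a ^ ij.2) u)) = (n.choose ij.1 : F) * ((⇑δ)^[ij.1 + 1] h * (NN δ a ^ ij.2) u) +
          (n.choose ij.1 : F) * ((⇑δ)^[ij.1] h * (NN δ a ^ (ij.2 + 1)) u) := by
      rintro ⟨i, j⟩ _
      rw [NN_mul, NN_mul]
      have e1 : δ ((n.choose i : ℕ) : F) = 0 := by
        have := δ.map_natCast (n.choose i)
        exact this
      rw [e1, zero_mul, zero_add, mul_add, Function.iterate_succ_apply', pow_succ' (NN δ a) j]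
      rfl
    rw [Finset.sum_congr rfl h1, Finset.sum_add_distrib]
    have h2 := Finset.sum_antidiagonal_choose_succ_mul
      (fun i j => (⇑δ)^[i] h * (NN δ a ^ j) u) n
    rw [h2, add_comm]
    congr 1
    refine Finset.sum_congr rfl fun ij hij => ?_
    rw [Nat.choose_symm_of_eq_add (HasAntidiagonal.mem_antidiagonal.1 hij).symm]

theorem NN_pow_p (p : ℕ) [CharP F p] [hp : Fact p.Prime] (h : F) :
    (NN δ a ^ p) h = (⇑δ)^[p] h + h * (NN δ a ^ p) 1 := by
  have h1 := leib δ a p h 1
  rw [mul_one] at h1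
  obtain ⟨m, hm⟩ : ∃ m, p = m + 1 := ⟨p - 1, by have := hp.out.pos; omega⟩
  have h2 : ∑ ij ∈ antidiagonal p, (p.choose ij.1 : F) * ((⇑δ)^[ij.1] h * (NN δ a ^ ij.2) 1) =
      ∑ ij ∈ ({(0, p), (p, 0)} : Finset (ℕ × ℕ)),
        (p.choose ij.1 : F) * ((⇑δ)^[ij.1] h * (NN δ a ^ ij.2) 1) := by
    symm
    refine Finset.sum_subset ?_ ?_
    · intro x hx
      rw [Finset.mem_insert, Finset.mem_singleton] at hx
      rw [HasAntidiagonal.mem_antidiagonal]
      rcases hx with rfl | rfl
      · simp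
      · simp
    · rintro ⟨i, j⟩ hx hx'
      rw [HasAntidiagonal.mem_antidiagonal] at hx
      simp only [Finset.mem_insert, Finset.mem_singleton, Prod.mk.injEq, not_or] at hx' hx
      have hi : i ≠ 0 := fun h0 => hx'.1 ⟨h0, by omega⟩
      have hip : i < p := by
        rcases Nat.lt_or_ge i p with h | h
        · exact h
        · exact absurd ⟨(by omega : i = p), (by omega : j = 0)⟩ hx'.2
      have h3 : p ∣ p.choose i := hp.out.dvd_choose_self hi hip
      rw [(CharP.cast_eq_zero_iff F p _).2 h3, zero_mul]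
  rw [h1, h2, Finset.sum_pair (by
    intro h0
    have := congrArg Prod.fst h0
    have h4 := hp.out.pos
    simp only at this
    omega)]
  simp only [Nat.choose_zero_right, Nat.choose_self, Nat.cast_one, one_mul, pow_zero,
    Function.iterate_zero_apply, Module.End.one_apply, mul_one]
  rw [add_comm]

end field

end Exact39

open Exact39 in
theorem exact_39 : ExactStmt := by
  intro F _ p _ hp hp2 δ v f hv hδ a
  have hpos := hp.out.pos
  obtain ⟨m, hm⟩ : ∃ m, p = m + 1 := ⟨p - 1, by omega⟩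
  -- `δ f = 0`
  have hf : δ f = 0 := by
    have h1 : (⇑δ)^[p + 1] v = δ f * δ v + f * δ (δ v) := by
      rw [Function.iterate_succ_apply', hδ, Derivation.leibniz, smul_eq_mul, smul_eq_mul]
      ring
    have h2 : (⇑δ)^[p + 1] v = f * δ (δ v) := by
      rw [Function.iterate_succ_apply, hδ]
    rw [h2] at h1
    have h3 : δ f * δ v = 0 := by linear_combination -h1
    exact (mul_eq_zero.1 h3).resolve_right hv
  refine ⟨fun ha => ?_, fun ha => ?_⟩
  · -- first part
    obtain ⟨h, hh⟩ := exists_ne δ 0 p v f hv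
    have e0 : (fun g => δ g + 0 * g) = ⇑δ := by
      funext g
      rw [zero_mul, add_zero]
    rw [NN_pow, e0] at hh
    obtain ⟨γ, hγ⟩ : ∃ γ : F, γ = (⇑δ)^[p - 1] h - f * h := ⟨_, rfl⟩
    have hγ0 : γ ≠ 0 := by
      rw [hγ, sub_ne_zero]
      exact hh
    have hδγ : δ γ = 0 := by
      rw [hγ, map_sub, ← Function.iterate_succ_apply' (⇑δ) (p - 1) h,
        show (p - 1).succ = p by omega, hδ, Derivation.leibniz, smul_eq_mul, smul_eq_mul, hf]
      ring
    have hδγ' : δ γ⁻¹ = 0 := by
      have h1 : δ (γ * γ⁻¹) = 0 := by rw [mul_inv_cancel₀ hγ0, Derivation.map_one_eq_zero]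
      rw [Derivation.leibniz, smul_eq_mul, smul_eq_mul, hδγ, mul_zero, add_zero] at h1
      exact (mul_eq_zero.1 h1).resolve_left hγ0
    have hit : ∀ k, (⇑δ)^[k] (γ⁻¹ * h) = γ⁻¹ * (⇑δ)^[k] h := by
      intro k
      induction k with
      | zero => rfl
      | succ k ih =>
        rw [Function.iterate_succ_apply', ih, Function.iterate_succ_apply', Derivation.leibniz,
          smul_eq_mul, smul_eq_mul, hδγ', mul_zero, add_zero]
    obtain ⟨h', hh'⟩ : ∃ h' : F, h' = γ⁻¹ * h := ⟨_, rfl⟩
    have h1' : (⇑δ)^[p - 1] h' - f * h' = 1 := by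
      rw [hh', hit]
      have : γ⁻¹ * (⇑δ)^[p - 1] h - f * (γ⁻¹ * h) = γ⁻¹ * γ := by rw [hγ]; ring
      rw [this, inv_mul_cancel₀ hγ0]
    -- the telescoping sum
    have tel : ∀ k, δ (∑ j ∈ range k, (-1) ^ j * ((⇑δ)^[j] a * (⇑δ)^[k - 1 - j] h')) =
        (if k = 0 then 0 else a * (⇑δ)^[k] h' - (-1) ^ k * ((⇑δ)^[k] a * h')) := by
      intro k
      rcases k with _ | k
      · simp
      · rw [if_neg (Nat.succ_ne_zero k), map_sum]
        have h2 : ∀ j ∈ range (k + 1), δ ((-1) ^ j * ((⇑δ)^[j] a * (⇑δ)^[k + 1 - 1 - j] h')) =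
            (-1) ^ j * ((⇑δ)^[j] a * (⇑δ)^[k + 1 - j] h') -
              (-1) ^ (j + 1) * ((⇑δ)^[j + 1] a * (⇑δ)^[k + 1 - (j + 1)] h') := by
          intro j hj
          rw [Finset.mem_range] at hj
          have e1 : δ ((-1 : F) ^ j) = 0 := by
            have e2 : ∀ j : ℕ, δ ((-1 : F) ^ j) = 0 := by
              intro j
              induction j with
              | zero => simp
              | succ j ih =>
                rw [pow_succ, mul_neg, mul_one, map_neg, ih, neg_zero]
            exact e2 j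
          rw [Derivation.leibniz, Derivation.leibniz]
          simp only [smul_eq_mul]
          rw [e1, mul_zero, add_zero, ← Function.iterate_succ_apply' (⇑δ) (k + 1 - 1 - j) h',
            ← Function.iterate_succ_apply' (⇑δ) j a,
            show (k + 1 - 1 - j).succ = k + 1 - j by omega,
            show k + 1 - 1 - j = k + 1 - (j + 1) by omega]
          ring
        rw [Finset.sum_congr rfl h2]
        have h3 := Finset.sum_range_sub'
          (fun j => (-1 : F) ^ j * ((⇑δ)^[j] a * (⇑δ)^[k + 1 - j] h')) (k + 1)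
        rw [h3]
        simp
    refine ⟨∑ j ∈ range (p - 1), (-1) ^ j * ((⇑δ)^[j] a * (⇑δ)^[p - 1 - 1 - j] h'), ?_⟩
    rw [tel, if_neg (by have := hp.out.two_le; omega)]
    have hodd : Even (p - 1) := by
      rcases hp.out.eq_two_or_odd with h | h
      · exact absurd h hp2
      · exact ⟨(p - 1) / 2, by omega⟩
    rw [hodd.neg_one_pow, one_mul, ha]
    linear_combination a * h1'
  · -- second part
    obtain ⟨h, hh⟩ := exists_ne δ a p v f hv
    obtain ⟨g, hg⟩ : ∃ g : F, g = (NN δ a ^ (p - 1)) h - f * h := ⟨_, rfl⟩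
    have hg0 : g ≠ 0 := by
      rw [hg, sub_ne_zero]
      exact hh
    refine ⟨g, hg0, ?_⟩
    have h1 : (NN δ a ^ p) 1 = f * a := by
      have h2 : (NN δ a ^ p) 1 = (NN δ a ^ (p - 1)) (NN δ a 1) := by
        conv_lhs => rw [show p = (p - 1) + 1 by omega, pow_succ]
        rfl
      rw [h2, NN_apply, Derivation.map_one_eq_zero, zero_add, mul_one, NN_pow]
      exact ha
    have h3 : (NN δ a ^ p) h = f * NN δ a h := by
      rw [NN_pow_p, h1, hδ, NN_apply]
      ring
    have h4 : NN δ a ((NN δ a ^ (p - 1)) h) = (NN δ a ^ p) h := by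
      conv_rhs => rw [show p = (p - 1) + 1 by omega, pow_succ']
      rfl
    have h5 : NN δ a g = 0 := by
      rw [hg, map_sub, h4, h3, NN_mul, hf]
      ring
    rw [NN_apply] at h5
    linear_combination h5

end Pool.Agent.Lib.MP_1e09a3_nt.FO
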