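import Pool.Agent.Lib.MP_1e09a3_nt.FO.Stmts73

/-!
First order equations, module FO12: exchange.
-/

set_option autoImplicit false

namespace Pool.Agent.Lib.MP_1e09a3_nt.FO

theorem exch_17 : ExchStmt := by
  intro C Ω _ _ _ z y u v hzy hz hy
  have hr : ∀ a b : Ω, Set.range ![a, b] = {a, b} := fun a b => by
    rw [Matrix.range_cons_cons_empty]
  let M := AlgebraicIndependent.matroid C Ω
  have hcl : ∀ a (s : Set Ω), a ∈ M.closure s ↔ IsAlgebraic (IntermediateField.adjoin C s) a := by
    intro a s
    rw [IntermediateField.isAlgebraic_adjoin_iff]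
    show a ∈ (AlgebraicIndependent.matroid C Ω).closure s ↔ _
    rw [AlgebraicIndependent.matroid_closure_eq]
    rfl
  have hI : M.Indep {z, y} := by
    have h := hzy.to_subtype_range
    rw [hr] at h
    exact h
  have hne : z ≠ y := by
    intro h
    have := hzy.injective (show ![z, y] 0 = ![z, y] 1 by simpa using h)
    exact absurd this (by decide)
  have hcard : ({z, y} : Set Ω).encard = 2 := Set.encard_pair hne
  have hsub : ({z, y} : Set Ω) ⊆ M.closure {u, v} := by
    rintro a (rfl | ha)
    · exact (hcl _ _).mpr hz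
    · rw [Set.mem_singleton_iff] at ha
      rw [ha]
      exact (hcl _ _).mpr hy
  have hrk : (2 : ℕ∞) ≤ M.eRk {u, v} := by
    have h1 := M.eRk_mono hsub
    rw [hI.eRk_eq_encard, hcard, M.eRk_closure_eq] at h1
    exact h1
  have huv : u ≠ v := by
    rintro rfl
    have h1 := M.eRk_le_encard {u, u}
    rw [Set.pair_eq_singleton, Set.encard_singleton] at h1
    rw [Set.pair_eq_singleton] at hrk
    exact absurd (hrk.trans h1) (by decide)
  have hcuv : ({u, v} : Set Ω).encard = 2 := Set.encard_pair huv
  have hfin : ({u, v} : Set Ω).Finite := Set.toFinite _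
  have hIuv : M.Indep {u, v} := by
    rw [M.indep_iff_eRk_eq_encard_of_finite hfin]
    refine le_antisymm (M.eRk_le_encard _) ?_
    rw [hcuv]
    exact hrk
  have hfinzy : M.IsRkFinite {z, y} := M.isRkFinite_of_finite (Set.toFinite _)
  have hcle : M.closure {z, y} = M.closure {u, v} := by
    have h1 := hfinzy.closure_eq_closure_of_subset_of_eRk_ge_eRk hsub (by
      rw [M.eRk_closure_eq, hI.eRk_eq_encard, hcard, ← hcuv]
      exact M.eRk_le_encard _)
    rw [h1, M.closure_closure]
  refine ⟨?_, ?_, ?_⟩
  · have hinj : Function.Injective ![u, v] := by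
      intro i j hij
      fin_cases i <;> fin_cases j <;> simp_all [Ne.symm huv]
    rw [← algebraicIndependent_subtype_range hinj, hr]
    exact hIuv
  · rw [← hcl, hcle]
    exact M.mem_closure_of_mem (by simp) (Set.subset_univ _)
  · rw [← hcl, hcle]
    exact M.mem_closure_of_mem (by simp) (Set.subset_univ _)

end Pool.Agent.Lib.MP_1e09a3_nt.FO
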