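import Pool.Agent.Lib.MP_1e09a3_nt.FO.Stmts73

/-!
First order equations, module FO1: Hochschild's formula.
-/

set_option autoImplicit false

open Finset

namespace Pool.Agent.Lib.MP_1e09a3_nt.FO

open FE

namespace Hoch17

variable {C Ω : Type} [Field C] [Field Ω] [Algebra C Ω]

theorem D_natCast (D : Derivation C Ω Ω) (n : ℕ) : D (n : Ω) = 0 := by
  have := D_intCast D (n : ℤ)
  simpa using this

theorem D_nat_mul (D : Derivation C Ω Ω) (n : ℕ) (x : Ω) : D ((n : Ω) * x) = n * D x := by
  rw [Derivation.leibniz, D_natCast, smul_zero, add_zero, smul_eq_mul]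

theorem divBy_D {D : Derivation C Ω Ω} {B : Subalgebra ℤ Ω} (h : Stable D B) {p : ℕ} {x : Ω}
    (hx : DivBy B p x) : DivBy B p (D x) := by
  obtain ⟨b, hb, rfl⟩ := hx
  exact ⟨D b, h b hb, D_nat_mul D p b⟩

theorem divBy_iter {D : Derivation C Ω Ω} {B : Subalgebra ℤ Ω} (h : Stable D B) {p : ℕ} {x : Ω}
    (n : ℕ) (hx : DivBy B p x) : DivBy B p ((⇑D)^[n] x) := by
  induction n with
  | zero => exact hx
  | succ n ih => rw [Function.iterate_succ_apply']; exact divBy_D h ih

theorem nat_mem (B : Subalgebra ℤ Ω) (n : ℕ) : (n : Ω) ∈ B := by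
  have := B.algebraMap_mem (n : ℤ)
  simpa using this

theorem D_pow_z {D : Derivation C Ω Ω} {z : Ω} (hz : D z = 1) (m : ℕ) :
    D (z ^ m) = m * z ^ (m - 1) := by
  rw [Derivation.leibniz_pow, hz, smul_eq_mul, mul_one, nsmul_eq_mul]

/-- derivatives of `z^n c` with `D c = 0` -/
theorem iter_zpow {D : Derivation C Ω Ω} {B : Subalgebra ℤ Ω} (h : Stable D B) {p : ℕ} {z c : Ω}
    (hzB : z ∈ B) (hz : D z = 1) (hc : DivBy B p (D c)) (n k : ℕ) :
    DivBy B p ((⇑D)^[k] (z ^ n * c) - n.descFactorial k * z ^ (n - k) * c) := by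
  induction k with
  | zero =>
    have : (⇑D)^[0] (z ^ n * c) - n.descFactorial 0 * z ^ (n - 0) * c = 0 := by simp
    rw [this]; exact DivBy.zero B p
  | succ k ih =>
    have h1 := divBy_D h ih
    rw [map_sub, ← Function.iterate_succ_apply' D, mul_assoc, D_nat_mul, Derivation.leibniz,
      D_pow_z hz, smul_eq_mul, smul_eq_mul] at h1
    have h2 : DivBy B p ((n.descFactorial k : Ω) * z ^ (n - k) * D c) :=
      DivBy.mul (B.mul_mem (nat_mem B _) (Subalgebra.pow_mem _ hzB _)) hc
    have h3 := h1.add h2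
    convert h3 using 1
    rw [Nat.descFactorial_succ, show n - (k + 1) = n - k - 1 by omega]
    push_cast
    ring

end Hoch17

open Hoch17 in
theorem hoch_17 : HochStmt := by
  intro C Ω _ _ _ _ D B z φ p hp hzB hDz hφB hst hflat s hs t ht
  let E : Derivation C Ω Ω := φ • D
  have hEfun : (fun x => φ * D x) = ⇑E := by
    funext x
    simp [E, smul_eq_mul]
  have hE : Stable E B := fun x hx => by
    rw [← hEfun]
    exact B.mul_mem hφB (hst x hx)
  have key : ∀ n : ℕ, n ≤ p → ∀ x ∈ B, DivBy B p ((⇑D)^[n] x) →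
      DivBy B p ((⇑E)^[p] x - (⇑E)^[p] z * D x) := by
    intro n
    induction n with
    | zero =>
      intro _ x _ hx'
      exact (divBy_iter hE p hx').sub (DivBy.mul (hE.iterate p hzB) (divBy_D hst hx'))
    | succ n ih =>
      intro hn x hx hx'
      have hnp : n < p := hn
      obtain ⟨u, hu⟩ : ∃ u : ℕ, ∃ v : ℤ, (u : ℤ) * n.factorial = 1 + p * v := by
        have hco : Nat.Coprime n.factorial p :=
          (Nat.coprime_comm.mp ((Nat.Prime.coprime_iff_not_dvd hp).mpr fun hd =>
            absurd ((Nat.Prime.dvd_factorial hp).mp hd) (by omega)))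
        obtain ⟨u, hu⟩ := Nat.exists_mul_mod_eq_one_of_coprime hco hp.one_lt
        refine ⟨u, ((u * n.factorial / p : ℕ) : ℤ), ?_⟩
        have h1 := Nat.mod_add_div (u * n.factorial) p
        have h2 : u * n.factorial % p = 1 := by rw [mul_comm]; exact hu.2
        rw [h2] at h1
        exact_mod_cast h1.symm
      obtain ⟨v, hv⟩ := hu
      set c := (⇑D)^[n] x with hc
      have hcB : c ∈ B := hst.iterate n hx
      have hDc : DivBy B p (D c) := by
        rw [Function.iterate_succ_apply'] at hx'
        exact hx'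
      set w := (u : Ω) * (z ^ n * c) with hw
      have hwB : w ∈ B := B.mul_mem (nat_mem B u) (B.mul_mem (Subalgebra.pow_mem _ hzB _) hcB)
      have hDu : ∀ (D' : Derivation C Ω Ω) (k : ℕ) (y : Ω),
          (⇑D')^[k] ((u : Ω) * y) = u * (⇑D')^[k] y := by
        intro D' k y
        induction k with
        | zero => rfl
        | succ k ihk =>
          rw [Function.iterate_succ_apply', Function.iterate_succ_apply', ihk, D_nat_mul]
      have hy : DivBy B p ((⇑D)^[n] (x - w)) := by
        have h1 : (⇑D)^[n] (x - w) = c - u * (⇑D)^[n] (z ^ n * c) := by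
          rw [iterate_map_sub D n, hw, hDu]
        rw [h1]
        have h2 := iter_zpow hst hzB hDz hDc n n
        rw [Nat.descFactorial_self, Nat.sub_self, pow_zero, mul_one] at h2
        have h3 := DivBy.mul (nat_mem B u) h2
        have h4 : DivBy B p ((p : Ω) * (v * c)) :=
          ⟨v * c, B.mul_mem (by simpa using B.algebraMap_mem v) hcB, rfl⟩
        have h5 := (h3.neg).sub h4
        convert h5 using 1
        have h6 : (u : Ω) * n.factorial = 1 + p * v := by exact_mod_cast congrArg (Int.cast (R := Ω)) hv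
        linear_combination (-c) * h6
      have h7 := ih (by omega) (x - w) (B.sub_mem hx hwB) hy
      -- the part `w`
      have hEc : DivBy B p ((⇑E)^[p] c) := by
        obtain ⟨q, hq⟩ : ∃ q, p = q + 1 := ⟨p - 1, by have := hp.pos; omega⟩
        have h8 : DivBy B p (E c) := by
          rw [← hEfun]
          exact DivBy.mul hφB hDc
        have h9 := divBy_iter hE q h8
        rw [← Function.iterate_succ_apply] at h9
        have h10 : (⇑E)^[p] c = (⇑E)^[q.succ] c := by rw [hq]
        rw [h10]
        exact h9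
      have hEz : DivBy B p ((⇑E)^[p] (z ^ n) - n * z ^ (n - 1) * (⇑E)^[p] z) :=
        iterate_pow_mod' hE hp hzB n
      have hEw : DivBy B p ((⇑E)^[p] w - (⇑E)^[p] z * D w) := by
        have h10 := leibniz_mod hE hp (Subalgebra.pow_mem B hzB n) hcB
        have h11 : D w = u * (n * z ^ (n - 1) * c + z ^ n * D c) := by
          rw [hw, D_nat_mul, Derivation.leibniz, D_pow_z hDz, smul_eq_mul, smul_eq_mul]
          ring
        rw [h11]
        have h12 : (⇑E)^[p] w = u * (⇑E)^[p] (z ^ n * c) := by rw [hw, hDu]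
        rw [h12]
        have h13 := (h10.add (DivBy.mul (Subalgebra.pow_mem B hzB n) hEc)).add (DivBy.mul hcB hEz)
        have h14 := (DivBy.mul (nat_mem B u) h13).sub (DivBy.mul
          (B.mul_mem (hE.iterate p hzB) (B.mul_mem (nat_mem B u) (Subalgebra.pow_mem B hzB n))) hDc)
        convert h14 using 1
        ring
      have h15 := h7.add hEw
      convert h15 using 1
      rw [iterate_map_sub E p, map_sub]
      ring
  rw [hEfun]
  have h1 := key p le_rfl s hs (hflat s hs)
  have h2 := key p le_rfl t ht (hflat t ht)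
  have h3 := (DivBy.mul (hst t ht) h1).sub (DivBy.mul (hst s hs) h2)
  convert h3 using 1
  ring

end Pool.Agent.Lib.MP_1e09a3_nt.FO
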