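import Pool.Agent.Lib.MP_1e09a3_nt.FO.Stmts73

/-!
FO10: reduction of the Laurent expansion (helper70).
-/

set_option autoImplicit false

namespace Pool.Agent.Lib.MP_1e09a3_nt.FO

open FE

namespace LauMap70

open PowerSeries in
theorem lauA {k : Type} [Field k] (A B U V : PowerSeries k) (m : ℕ) (hB : B = X ^ m * U)
    (hUV : U * V = 1) (n : ℤ) :
    (HahnSeries.ofPowerSeries ℤ k A / HahnSeries.ofPowerSeries ℤ k B).coeff n =
      if 0 ≤ n + m then PowerSeries.coeff (n + m).toNat (A * V) else 0 := by
  have hX : HahnSeries.ofPowerSeries ℤ k ((X : PowerSeries k) ^ m) = HahnSeries.single (m : ℤ) 1 := by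
    rw [map_pow, HahnSeries.ofPowerSeries_X, HahnSeries.single_pow]
    simp
  have hB1 : HahnSeries.ofPowerSeries ℤ k B =
      HahnSeries.single (m : ℤ) 1 * HahnSeries.ofPowerSeries ℤ k U := by
    rw [hB, map_mul, hX]
  have hU0 : HahnSeries.ofPowerSeries ℤ k U ≠ 0 := by
    intro h
    have h1 := congrArg (HahnSeries.ofPowerSeries ℤ k) hUV
    rw [map_mul, h, zero_mul, map_one] at h1
    exact zero_ne_one h1
  have hs : HahnSeries.single (m : ℤ) (1 : k) ≠ 0 := by simp
  have hs2 : HahnSeries.single (-(m : ℤ)) (1 : k) * HahnSeries.single (m : ℤ) (1 : k) = 1 := by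
    rw [HahnSeries.single_mul_single]
    simp
  have key : HahnSeries.ofPowerSeries ℤ k A / HahnSeries.ofPowerSeries ℤ k B =
      HahnSeries.single (-(m : ℤ)) 1 * HahnSeries.ofPowerSeries ℤ k (A * V) := by
    rw [hB1, div_eq_iff (mul_ne_zero hs hU0)]
    have h1 := congrArg (HahnSeries.ofPowerSeries ℤ k) hUV
    rw [map_mul, map_one] at h1
    rw [map_mul]
    calc HahnSeries.ofPowerSeries ℤ k A = HahnSeries.ofPowerSeries ℤ k A *
          (HahnSeries.single (-(m : ℤ)) (1 : k) * HahnSeries.single (m : ℤ) (1 : k)) *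
          (HahnSeries.ofPowerSeries ℤ k U * HahnSeries.ofPowerSeries ℤ k V) := by
          rw [hs2, h1, mul_one, mul_one]
      _ = _ := by ring
  rw [key]
  have h2 := HahnSeries.coeff_single_mul_add (r := (1 : k))
    (x := HahnSeries.ofPowerSeries ℤ k (A * V)) (a := n + m) (b := -(m : ℤ))
  rw [show n + (m : ℤ) + -(m : ℤ) = n by ring] at h2
  rw [h2, one_mul]
  have h3 := LaurentSeries.coeff_coe_powerSeries (A * V)
  by_cases h : 0 ≤ n + (m : ℤ)
  · rw [if_pos h]
    obtain ⟨j, hj⟩ := Int.eq_ofNat_of_zero_le h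
    rw [hj]
    exact h3 j
  · rw [if_neg h]
    have h4 := PowerSeries.coeff_coe (f := A * V) (n + m)
    rw [if_pos (by omega)] at h4
    exact h4

end LauMap70

open LauMap70 in
theorem lauMap_70 : LauMapStmt := by
  intro C _ a b c hb
  set tb := Polynomial.taylor c b with htb
  have htb0 : tb ≠ 0 := by
    rw [htb, Ne, Polynomial.taylor_eq_zero]
    exact hb
  set m := tb.natTrailingDegree with hm
  set u := tb.coeff m with hu
  have hu0 : u ≠ 0 := by
    rw [hu, hm]
    exact Polynomial.trailingCoeff_nonzero_iff_nonzero.2 htb0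
  refine ⟨{u⁻¹}, Set.finite_singleton _, fun T' hT' a' b' c' ha' hb' hc' n => ?_⟩
  have hinj : Function.Injective (Zg T').subtype := Subtype.val_injective
  set ta' := Polynomial.taylor c' a' with hta'
  set tb' := Polynomial.taylor c' b' with htb'
  have hmap : tb'.map (Zg T').subtype = tb := by
    rw [htb', Polynomial.map_taylor, hb', htb, show (Zg T').subtype c' = c from hc']
  have hcoeff : ∀ j, (tb'.coeff j : C) = tb.coeff j := by
    intro j
    rw [← hmap, Polynomial.coeff_map]
    rfl
  have hlow : ∀ j, j < m → tb'.coeff j = 0 := by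
    intro j hj
    apply Subtype.val_injective
    have h1 := hcoeff j
    rw [Polynomial.coeff_eq_zero_of_lt_natTrailingDegree hj] at h1
    exact h1
  set w : Zg T' := ⟨u⁻¹, hT' rfl⟩ with hw
  have huw : tb'.coeff m * w = 1 := by
    apply Subtype.val_injective
    show (tb'.coeff m : C) * u⁻¹ = 1
    rw [hcoeff, ← hu, mul_inv_cancel₀ hu0]
  set uu : (Zg T')ˣ := ⟨tb'.coeff m, w, huw, by rw [mul_comm]; exact huw⟩ with huu
  set U' : PowerSeries (Zg T') := PowerSeries.mk fun j => tb'.coeff (j + m) with hU'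
  have hUc : PowerSeries.constantCoeff U' = (uu : Zg T') := by
    rw [← PowerSeries.coeff_zero_eq_constantCoeff_apply, hU', PowerSeries.coeff_mk, zero_add]
  set V' := PowerSeries.invOfUnit U' uu with hV'
  have hUV : U' * V' = 1 := PowerSeries.mul_invOfUnit U' uu hUc
  have hXU : (tb' : PowerSeries (Zg T')) = PowerSeries.X ^ m * U' := by
    ext j
    rw [PowerSeries.coeff_X_pow_mul', Polynomial.coeff_coe]
    split_ifs with h
    · rw [hU', PowerSeries.coeff_mk, Nat.sub_add_cancel h]
    · rw [hlow j (by omega)]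
  have main : ∀ (k : Type) [Field k] (φ : Zg T' →+* k),
      (lau (φ c') (a'.map φ) (b'.map φ)).coeff n =
        φ (if 0 ≤ n + m then PowerSeries.coeff (n + m).toNat ((ta' : PowerSeries (Zg T')) * V')
          else 0) := by
    intro k _ φ
    unfold lau
    rw [← Polynomial.map_taylor, ← Polynomial.map_taylor, ← hta', ← htb',
      Polynomial.polynomial_map_coe, Polynomial.polynomial_map_coe]
    rw [lauA (PowerSeries.map φ ta') (PowerSeries.map φ tb') (PowerSeries.map φ U')
      (PowerSeries.map φ V') m ?_ ?_ n]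
    · split_ifs with h
      · rw [← map_mul, PowerSeries.coeff_map]
      · rw [map_zero]
    · rw [hXU, map_mul, map_pow, PowerSeries.map_X]
    · rw [← map_mul, hUV, map_one]
  refine ⟨_, ?_, fun k _ π => ⟨?_, (main k π).symm⟩⟩
  · have h1 := main C (Zg T').subtype
    rw [ha', hb'] at h1
    have h2 : (Zg T').subtype c' = c := hc'
    rw [h2] at h1
    exact h1.symm
  · intro h0
    have h1 : (tb'.map π).coeff m = 0 := by
      rw [htb', Polynomial.map_taylor, h0]
      simp
    rw [Polynomial.coeff_map] at h1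
    have h2 := congrArg π huw
    rw [map_mul, h1, zero_mul, map_one] at h2
    exact zero_ne_one h2

end Pool.Agent.Lib.MP_1e09a3_nt.FO
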