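import Pool.Agent.Lib.MP_1e09a3_nt.FO.Stmts73

/-!
`p`-closedness along an invariant line (module FO7).
-/

open MvPolynomial

namespace Pool.Agent.Lib.MP_1e09a3_nt.FO

namespace L42

variable {k : Type} [Field k]

theorem res_mul (f g : MvPolynomial (Fin 2) k) : res (f * g) = res f * res g := by
  simp [res]

theorem res_X0 : res (X 0 : MvPolynomial (Fin 2) k) = 0 := by
  simp [res]

theorem res_X1 : res (X 1 : MvPolynomial (Fin 2) k) = Polynomial.X := by
  simp [res]

theorem res_vec (A : Fin 2 → MvPolynomial (Fin 2) k) (h0 : res (A 0) = 0)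
    (g : MvPolynomial (Fin 2) k) :
    res (vec A g) = res (A 1) * Polynomial.derivative (res g) := by
  induction g using MvPolynomial.induction_on with
  | C a => simp [res, vec, MvPolynomial.derivation_C]
  | add p q hp hq =>
    have e1 : res (p + q) = res p + res q := by simp [res]
    have e2 : res (vec A p + vec A q) = res (vec A p) + res (vec A q) := by simp [res]
    rw [map_add, e2, hp, hq, e1, Polynomial.derivative_add]; ring
  | mul_X p i hp =>
    have e1 : vec A (p * X i) = p * A i + X i * vec A p := by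
      rw [Derivation.leibniz, vec, MvPolynomial.mkDerivation_X]; simp
    have e2 : ∀ a b : MvPolynomial (Fin 2) k, res (a + b) = res a + res b := by
      intro a b; simp [res]
    rw [e1, e2, res_mul, res_mul, res_mul, hp]
    fin_cases i
    · simp [res_X0, h0]
    · simp only [Fin.mk_one, res_X1, Polynomial.derivative_mul, Polynomial.derivative_X]; ring

/-- the quotients `X^(n+1) X_0 / X_0^m` -/
noncomputable def op (A : Fin 2 → MvPolynomial (Fin 2) k) (m : ℕ) (a : MvPolynomial (Fin 2) k)
    (g : MvPolynomial (Fin 2) k) : MvPolynomial (Fin 2) k :=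
  vec A g + (m : MvPolynomial (Fin 2) k) * X 0 ^ (m - 1) * a * g

theorem vec_pow (A : Fin 2 → MvPolynomial (Fin 2) k) (m : ℕ) (a : MvPolynomial (Fin 2) k)
    (hm : 0 < m) (hA : A 0 = X 0 ^ m * a) (g : MvPolynomial (Fin 2) k) :
    vec A (X 0 ^ m * g) = X 0 ^ m * op A m a g := by
  rw [Derivation.leibniz, Derivation.leibniz_pow, vec, MvPolynomial.mkDerivation_X, hA]
  obtain ⟨n, rfl⟩ : ∃ n, m = n + 1 := ⟨m - 1, by omega⟩
  simp only [op, smul_eq_mul, nsmul_eq_mul, Nat.add_sub_cancel]
  ring

theorem iter_X0 (A : Fin 2 → MvPolynomial (Fin 2) k) (m : ℕ) (a : MvPolynomial (Fin 2) k)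
    (hm : 0 < m) (hA : A 0 = X 0 ^ m * a) (n : ℕ) :
    (⇑(vec A))^[n + 1] (X 0) = X 0 ^ m * (op A m a)^[n] a := by
  induction n with
  | zero =>
    simp only [zero_add, Function.iterate_one, Function.iterate_zero, id]
    rw [vec, MvPolynomial.mkDerivation_X, hA]
  | succ n ih =>
    rw [Function.iterate_succ_apply', ih, vec_pow A m a hm hA, Function.iterate_succ_apply']

theorem res_op (A : Fin 2 → MvPolynomial (Fin 2) k) (m : ℕ) (a : MvPolynomial (Fin 2) k)
    (hm : 0 < m) (hA : A 0 = X 0 ^ m * a) (g : MvPolynomial (Fin 2) k) :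
    res (op A m a g) = nab (if m = 1 then 1 else 0) (res a) (res (A 1)) (res g) := by
  have h0 : res (A 0) = 0 := by
    rw [hA, res_mul]
    have : res (X 0 ^ m : MvPolynomial (Fin 2) k) = 0 := by
      simp [res, hm.ne']
    rw [this, zero_mul]
  have e2 : ∀ a b : MvPolynomial (Fin 2) k, res (a + b) = res a + res b := by
    intro a b; simp [res]
  rw [op, e2, res_vec A h0, res_mul, res_mul, res_mul, nab]
  congr 3
  split_ifs with h
  · subst h; simp [res]
  · have : res (X 0 ^ (m - 1) : MvPolynomial (Fin 2) k) = 0 := by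
      have : m - 1 ≠ 0 := by omega
      simp [res, this]
    rw [this]; simp

end L42

open L42 in
theorem lineStmt_42 : LineStmt := by
  intro k _ A m p a hm hp hA hcl
  have h0 : res (A 0) = 0 := by
    rw [hA, res_mul]
    have : res (X 0 ^ m : MvPolynomial (Fin 2) k) = 0 := by
      simp [res, hm.ne']
    rw [this, zero_mul]
  obtain ⟨n, rfl⟩ : ∃ n, p = n + 1 := ⟨p - 1, by omega⟩
  have h1 := hcl 0 1
  rw [iter_X0 A m a hm hA] at h1
  rw [hA] at h1
  have h2 : (op A m a)^[n] a * A 1 = (⇑(vec A))^[n + 1] (X 1) * a := by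
    have hX : (X 0 ^ m : MvPolynomial (Fin 2) k) ≠ 0 := pow_ne_zero _ (X_ne_zero 0)
    apply mul_left_cancel₀ hX
    calc _ = X 0 ^ m * (op A m a)^[n] a * A 1 := by ring
      _ = _ := h1
      _ = _ := by ring
  have h3 := congrArg res h2
  rw [res_mul, res_mul] at h3
  have i1 : ∀ j g, res ((op A m a)^[j] g) =
      (nab (if m = 1 then 1 else 0) (res a) (res (A 1)))^[j] (res g) := by
    intro j
    induction j with
    | zero => intro g; rfl
    | succ j ih =>
      intro g
      rw [Function.iterate_succ_apply, ih, res_op A m a hm hA, Function.iterate_succ_apply]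
  have i2 : ∀ j g, res ((⇑(vec A))^[j] g) = (nab 0 0 (res (A 1)))^[j] (res g) := by
    intro j
    induction j with
    | zero => intro g; rfl
    | succ j ih =>
      intro g
      rw [Function.iterate_succ_apply, ih, res_vec A h0, Function.iterate_succ_apply]
      congr 1
      simp [nab]
  rw [i1, Function.iterate_succ_apply, i2] at h3
  have h4 : vec A (X 1) = A 1 := by rw [vec, MvPolynomial.mkDerivation_X]
  rw [h4] at h3
  simpa using h3

end Pool.Agent.Lib.MP_1e09a3_nt.FO
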