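import Pool.Agent.Lib.MP_1e09a3_nt.FO.Stmts73

/-!
FO5: the second order part of `p`-closedness at a zero of the vector field.
-/

set_option autoImplicit false

open MvPolynomial Finset

namespace Pool.Agent.Lib.MP_1e09a3_nt.FO

namespace L97

variable {k : Type} [Field k] {N : ℕ}

/-- the derivative at `P` in the direction `v` -/
noncomputable def dl (P v : Fin N → k) (g : MvPolynomial (Fin N) k) : k :=
  ∑ l, eval P (pderiv l g) * v l

theorem dl_add (P v : Fin N → k) (g h : MvPolynomial (Fin N) k) :
    dl P v (g + h) = dl P v g + dl P v h := by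
  unfold dl
  rw [← Finset.sum_add_distrib]
  refine Finset.sum_congr rfl fun l _ => ?_
  rw [map_add, map_add, add_mul]

theorem dl_mul (P v : Fin N → k) (g h : MvPolynomial (Fin N) k) :
    dl P v (g * h) = eval P g * dl P v h + eval P h * dl P v g := by
  unfold dl
  rw [Finset.mul_sum, Finset.mul_sum, ← Finset.sum_add_distrib]
  refine Finset.sum_congr rfl fun l _ => ?_
  rw [pderiv_mul, map_add, map_mul, map_mul]
  ring

theorem dl_C (P v : Fin N → k) (a : k) : dl P v (C a) = 0 := by
  unfold dl
  refine Finset.sum_eq_zero fun l _ => ?_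
  rw [pderiv_C, map_zero, zero_mul]

theorem dl_X (P v : Fin N → k) (i : Fin N) : dl P v (X i) = v i := by
  unfold dl
  rw [Finset.sum_eq_single i]
  · rw [pderiv_X_self, map_one, one_mul]
  · intro l _ hl
    rw [pderiv_X_of_ne (Ne.symm hl), map_zero, zero_mul]
  · intro h
    exact absurd (Finset.mem_univ i) h

theorem dl_A (A : Fin N → MvPolynomial (Fin N) k) (P v : Fin N → k) (i : Fin N) :
    dl P v (A i) = (jacAt A P).mulVec v i := by
  unfold dl jacAt Matrix.mulVec dotProduct
  rfl

theorem eval_vec (A : Fin N → MvPolynomial (Fin N) k) (P : Fin N → k)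
    (hP : ∀ i, eval P (A i) = 0) (g : MvPolynomial (Fin N) k) : eval P (vec A g) = 0 := by
  induction g using MvPolynomial.induction_on with
  | C a => rw [derivation_C, map_zero]
  | add p q hp hq => rw [map_add, map_add, hp, hq, add_zero]
  | mul_X p i hp =>
    rw [Derivation.leibniz, mkDerivation_X, smul_eq_mul, smul_eq_mul, map_add, map_mul, map_mul,
      hp, hP]
    ring

theorem dl_vec (A : Fin N → MvPolynomial (Fin N) k) (P : Fin N → k)
    (hP : ∀ i, eval P (A i) = 0) (v : Fin N → k) (g : MvPolynomial (Fin N) k) :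
    dl P v (vec A g) = dl P ((jacAt A P).mulVec v) g := by
  induction g using MvPolynomial.induction_on with
  | C a =>
    rw [derivation_C, dl_C]
    have := dl_C P v (0 : k)
    rwa [map_zero] at this
  | add p q hp hq => rw [map_add, dl_add, dl_add, hp, hq]
  | mul_X p i hp =>
    rw [Derivation.leibniz, mkDerivation_X, smul_eq_mul, smul_eq_mul, dl_add, dl_mul, dl_mul,
      dl_mul, hp, eval_vec A P hP, hP, dl_A, dl_X, dl_X]
    ring

theorem dl_iter (A : Fin N → MvPolynomial (Fin N) k) (P : Fin N → k)
    (hP : ∀ i, eval P (A i) = 0) (n : ℕ) : ∀ (v : Fin N → k) (g : MvPolynomial (Fin N) k),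
    dl P v ((⇑(vec A))^[n] g) = dl P ((jacAt A P ^ n).mulVec v) g := by
  induction n with
  | zero =>
    intro v g
    simp
  | succ n ih =>
    intro v g
    rw [Function.iterate_succ_apply, ih, dl_vec A P hP, pow_succ', Matrix.mulVec_mulVec]

/-- substitution `X_i ↦ P_i + w_i t` -/
noncomputable def sub (P w : Fin N → k) : MvPolynomial (Fin N) k →ₐ[k] Polynomial k :=
  aeval (fun i => Polynomial.C (P i) + Polynomial.C (w i) * Polynomial.X)

theorem sub_zero (P w : Fin N → k) (g : MvPolynomial (Fin N) k) :
    (sub P w g).coeff 0 = eval P g := by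
  induction g using MvPolynomial.induction_on with
  | C a =>
    have : sub P w (C a) = Polynomial.C a := by
      unfold sub
      rw [aeval_C]; rfl
    rw [this, Polynomial.coeff_C_zero, eval_C]
  | add p q hp hq => rw [map_add, map_add, Polynomial.coeff_add, hp, hq]
  | mul_X p i hp =>
    rw [map_mul, map_mul, Polynomial.mul_coeff_zero, hp, eval_X]
    unfold sub
    rw [aeval_X]
    simp

theorem sub_one (P w : Fin N → k) (g : MvPolynomial (Fin N) k) :
    (sub P w g).coeff 1 = dl P w g := by
  induction g using MvPolynomial.induction_on with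
  | C a =>
    have : sub P w (C a) = Polynomial.C a := by
      unfold sub
      rw [aeval_C]; rfl
    rw [this, dl_C, Polynomial.coeff_C, if_neg one_ne_zero]
  | add p q hp hq => rw [map_add, Polynomial.coeff_add, hp, hq, dl_add]
  | mul_X p i hp =>
    have hX : sub P w (X i) = Polynomial.C (P i) + Polynomial.C (w i) * Polynomial.X := by
      unfold sub
      rw [aeval_X]
    rw [map_mul, Polynomial.coeff_mul, Finset.Nat.antidiagonal_succ]
    simp only [Finset.sum_cons, Finset.Nat.antidiagonal_zero, Finset.map_singleton,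
      Finset.sum_singleton, Function.Embedding.prodMap, Function.Embedding.coeFn_mk, Prod.map,
      Nat.succ_eq_add_one, zero_add, Function.Embedding.refl_apply]
    rw [sub_zero, hp, dl_mul, dl_X, hX]
    simp
    ring

end L97

open L97 in
theorem local_97 : LocalStmt := by
  intro k _ N A P p hp hP hc w i j
  have h1 : ∀ i, eval P ((⇑(vec A))^[p] (X i)) = 0 := by
    intro i
    obtain ⟨n, rfl⟩ := Nat.exists_eq_succ_of_ne_zero hp.ne'
    rw [Nat.succ_eq_add_one, Function.iterate_succ_apply']
    exact eval_vec A P hP _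
  have h2 : ∀ i, dl P w ((⇑(vec A))^[p] (X i)) = (jacAt A P ^ p).mulVec w i := by
    intro i
    rw [dl_iter A P hP, dl_X]
  have key : ∀ f g : MvPolynomial (Fin N) k, eval P f = 0 → eval P g = 0 →
      (sub P w (f * g)).coeff 2 = dl P w f * dl P w g := by
    intro f g hf hg
    rw [map_mul, Polynomial.coeff_mul]
    have ha : Finset.HasAntidiagonal.antidiagonal (2 : ℕ) =
        ({((0 : ℕ), (2 : ℕ)), (1, 1), (2, 0)} : Finset (ℕ × ℕ)) := by decide
    rw [ha, Finset.sum_insert (by decide), Finset.sum_insert (by decide), Finset.sum_singleton]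
    rw [L97.sub_zero, L97.sub_zero, sub_one, sub_one, hf, hg]
    ring
  have h3 : (sub P w ((⇑(vec A))^[p] (X i) * A j)).coeff 2 =
      (sub P w ((⇑(vec A))^[p] (X j) * A i)).coeff 2 := by rw [hc i j]
  rw [key _ _ (h1 i) (hP j), key _ _ (h1 j) (hP i), h2, h2, dl_A, dl_A] at h3
  exact h3

end Pool.Agent.Lib.MP_1e09a3_nt.FO
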