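import Pool.Agent.Lib.MP_1e09a3_nt.FO.StmtsM73

/-!
First order equations: the case `y' = P(z, y)`.
-/

open MvPolynomial

namespace Pool.Agent.Lib.MP_1e09a3_nt.FO

namespace Monic26

section

variable {Ω : Type} [Field Ω] [Algebra ℂ Ω]

/-- the value of a polynomial in `z` -/
noncomputable def ph (z : Ω) : Polynomial ℂ →+* Ω :=
  (Polynomial.aeval z : Polynomial ℂ →ₐ[ℂ] Ω).toRingHom

theorem ph_apply (z : Ω) (s : Polynomial ℂ) : ph z s = Polynomial.aeval z s := rfl

/-- the corresponding polynomial in two variables -/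
noncomputable def toMv : Polynomial (Polynomial ℂ) →+* MvPolynomial (Fin 2) ℂ :=
  Polynomial.eval₂RingHom (Polynomial.aeval (X 0) : Polynomial ℂ →ₐ[ℂ] _).toRingHom (X 1)

noncomputable def ofMv : MvPolynomial (Fin 2) ℂ →+* Polynomial (Polynomial ℂ) :=
  eval₂Hom (Polynomial.C.comp Polynomial.C) ![Polynomial.C Polynomial.X, Polynomial.X]

theorem ofMv_toMv (F : Polynomial (Polynomial ℂ)) : ofMv (toMv F) = F := by
  have h : (ofMv.comp toMv) = RingHom.id _ := by
    refine Polynomial.ringHom_ext' ?_ ?_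
    · refine Polynomial.ringHom_ext' ?_ ?_
      · ext a
        simp [ofMv, toMv]
      · simp [ofMv, toMv]
    · simp [ofMv, toMv]
  exact congrFun (congrArg DFunLike.coe h) F

theorem aeval_toMv (z y : Ω) (F : Polynomial (Polynomial ℂ)) :
    aeval ![z, y] (toMv F) = Polynomial.eval₂ (ph z) y F := by
  have h : ((aeval ![z, y] : MvPolynomial (Fin 2) ℂ →ₐ[ℂ] Ω).toRingHom.comp toMv) =
      Polynomial.eval₂RingHom (ph z) y := by
    refine Polynomial.ringHom_ext' ?_ ?_
    · refine Polynomial.ringHom_ext' ?_ ?_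
      · ext a
        simp [toMv, ph]
      · simp [toMv, ph]
    · simp [toMv]
  exact congrFun (congrArg DFunLike.coe h) F

theorem inj {z y : Ω} (h : AlgebraicIndependent ℂ ![z, y]) {F : Polynomial (Polynomial ℂ)}
    (hF : Polynomial.eval₂ (ph z) y F = 0) : F = 0 := by
  have h1 : toMv F = 0 := by
    have h2 : aeval ![z, y] (toMv F) = 0 := by rw [aeval_toMv, hF]
    exact (injective_iff_map_eq_zero _).1 h _ h2
  rw [← ofMv_toMv F, h1, map_zero]

end

/-- the derivative of the value of a polynomial -/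
theorem D_ph {Ω : Type} [Field Ω] [Algebra ℂ Ω] (D : Derivation ℂ Ω Ω) {z : Ω} (hz : D z = 1)
    (s : Polynomial ℂ) : D (ph z s) = ph z (Polynomial.derivative s) := by
  rw [ph_apply, ph_apply]
  induction s using Polynomial.induction_on' with
  | add p q hp hq => rw [map_add, map_add, map_add, map_add, hp, hq]
  | monomial n a =>
    rw [Polynomial.derivative_monomial, Polynomial.aeval_monomial, Polynomial.aeval_monomial,
      Derivation.leibniz, Derivation.leibniz_pow, hz, Derivation.map_algebraMap]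
    simp only [smul_eq_mul, nsmul_eq_mul, mul_one, mul_zero, add_zero]
    rw [map_mul, map_natCast]
    ring

/-! ### the shift -/

theorem hd {R : Type} [CommRing R] (P : Polynomial R) {n : ℕ} (h : P.natDegree = n + 1) :
    Polynomial.hasseDeriv n P = Polynomial.C (P.coeff n) +
      Polynomial.C (((n : R) + 1) * P.coeff (n + 1)) * Polynomial.X := by
  ext i
  rw [Polynomial.hasseDeriv_coeff, Polynomial.coeff_add, Polynomial.coeff_C_mul]
  rcases i with _ | i
  · simp
  · rcases i with _ | i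
    · rw [Polynomial.coeff_C_succ, zero_add, zero_add, Polynomial.coeff_X_one, mul_one,
        add_comm 1 n, Nat.choose_succ_self_right]
      push_cast
      ring
    · rw [Polynomial.coeff_C_succ, Polynomial.coeff_X, if_neg (by omega),
        Polynomial.coeff_eq_zero_of_natDegree_lt (by omega)]
      simp

theorem taylor_coeff_pred {R : Type} [CommRing R] (P : Polynomial R) (r : R) {n : ℕ}
    (h : P.natDegree = n + 1) :
    (Polynomial.taylor r P).coeff n = P.coeff n + ((n : R) + 1) * P.coeff (n + 1) * r := by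
  rw [Polynomial.taylor_coeff, hd P h]
  simp

/-- the shifted equation -/
theorem shift {Ω : Type} [Field Ω] [Algebra ℂ Ω] (D : Derivation ℂ Ω Ω) {z y : Ω} (hz : D z = 1)
    (P : Polynomial (Polynomial ℂ)) {e : ℕ} (hd : P.natDegree = e + 2) {c : ℂ} (hc : c ≠ 0)
    (hlc : P.leadingCoeff = Polynomial.C c) (hy : D y = Polynomial.eval₂ (ph z) y P) :
    ∃ (s : Polynomial ℂ) (R : Polynomial (Polynomial ℂ)), R.natDegree = e + 2 ∧
      R.coeff (e + 2) = Polynomial.C c ∧ R.coeff (e + 1) = 0 ∧
      D (y + ph z s) = Polynomial.eval₂ (ph z) (y + ph z s) R := by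
  set s : Polynomial ℂ := Polynomial.C (1 / (((e : ℂ) + 2) * c)) * P.coeff (e + 1) with hs
  set T := Polynomial.taylor (-s) P with hT
  have hTd : T.natDegree = e + 2 := by rw [hT, Polynomial.natDegree_taylor, hd]
  have hTc : T.coeff (e + 2) = Polynomial.C c := by
    have := Polynomial.coeff_taylor_natDegree (r := -s) (f := P)
    rw [hd, hlc] at this
    exact this
  refine ⟨s, T + Polynomial.C (Polynomial.derivative s), ?_, ?_, ?_, ?_⟩
  · rw [Polynomial.natDegree_add_C, hTd]
  · rw [Polynomial.coeff_add, hTc, Polynomial.coeff_C, if_neg (by omega), add_zero]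
  · rw [Polynomial.coeff_add, Polynomial.coeff_C, if_neg (by omega), add_zero, hT,
      taylor_coeff_pred P (-s) hd]
    have h1 : P.coeff (e + 1 + 1) = Polynomial.C c := by
      rw [← hlc, ← hd]; rfl
    have hne : ((e : ℂ) + 2) ≠ 0 := by
      have : ((e + 2 : ℕ) : ℂ) ≠ 0 := by exact_mod_cast (by omega : e + 2 ≠ 0)
      push_cast at this
      exact this
    rw [h1, hs]
    have h2 : (((e + 1 : ℕ) : Polynomial ℂ) + 1) = Polynomial.C ((e : ℂ) + 2) := by
      push_cast
      rw [map_add, map_natCast, map_ofNat]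
      ring
    rw [h2]
    have h3 : Polynomial.C ((e : ℂ) + 2) * Polynomial.C c *
        -(Polynomial.C (1 / (((e : ℂ) + 2) * c)) * P.coeff (e + 1)) = - P.coeff (e + 1) := by
      rw [mul_neg, ← mul_assoc, ← map_mul, ← map_mul, mul_one_div_cancel (mul_ne_zero hne hc),
        map_one, one_mul]
    rw [h3, add_neg_cancel]
  · rw [map_add, D_ph D hz, hy, Polynomial.eval₂_add, Polynomial.eval₂_C, hT,
      Polynomial.taylor_apply, Polynomial.eval₂_comp]
    congr 2
    rw [Polynomial.eval₂_add, Polynomial.eval₂_X, Polynomial.eval₂_C, map_neg, add_neg_cancel_right]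

/-- the Bernoulli case -/
theorem bernoulli {Ω : Type} [Field Ω] [Algebra ℂ Ω] (D : Derivation ℂ Ω Ω)
    (hC : ∀ x, D x = 0 → ∃ c : ℂ, algebraMap ℂ Ω c = x) {z y : Ω} (hz : D z = 1)
    (s : Polynomial ℂ) (e : ℕ) {c : ℂ}
    (hw : D (y + ph z s) = algebraMap ℂ Ω c * (y + ph z s) ^ (e + 2)) :
    ¬ AlgebraicIndependent ℂ ![z, y] := by
  intro hind
  set w := y + ph z s with hwdef
  have hev : Polynomial.eval₂ (ph z) y (Polynomial.X + Polynomial.C s) = w := by
    rw [Polynomial.eval₂_add, Polynomial.eval₂_X, Polynomial.eval₂_C]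
  have hw0 : w ≠ 0 := by
    intro h0
    have h1 := inj hind (F := Polynomial.X + Polynomial.C s) (by rw [hev, h0])
    exact Polynomial.X_add_C_ne_zero s h1
  have h1 : D (w⁻¹ ^ (e + 1) + ((e : Ω) + 1) * algebraMap ℂ Ω c * z) = 0 := by
    have h2 : D (w⁻¹ ^ (e + 1)) = - (((e : Ω) + 1) * algebraMap ℂ Ω c) := by
      rw [Derivation.leibniz_pow, Derivation.leibniz_inv, hw, Nat.add_sub_cancel]
      simp only [smul_eq_mul, nsmul_eq_mul]
      push_cast
      have h3 : w⁻¹ ^ e * (w⁻¹ ^ 2 * w ^ (e + 2)) = 1 := by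
        rw [← mul_assoc, ← pow_add, ← mul_pow, inv_mul_cancel₀ hw0, one_pow]
      linear_combination (-((e : Ω) + 1) * algebraMap ℂ Ω c) * h3
    have h4 : D (((e : Ω) + 1) * algebraMap ℂ Ω c * z) = ((e : Ω) + 1) * algebraMap ℂ Ω c := by
      have h5 : ((e : Ω) + 1) * algebraMap ℂ Ω c = algebraMap ℂ Ω (((e : ℂ) + 1) * c) := by
        rw [map_mul, map_add, map_natCast, map_one]
      rw [h5, Derivation.leibniz, Derivation.map_algebraMap, hz]
      simp
    rw [map_add, h2, h4, neg_add_cancel]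
  obtain ⟨k, hk⟩ := hC _ h1
  set g : Polynomial ℂ := Polynomial.C k - Polynomial.C (((e : ℂ) + 1) * c) * Polynomial.X with hg
  have hgv : ph z g = w⁻¹ ^ (e + 1) := by
    rw [ph_apply, hg, map_sub, map_mul, Polynomial.aeval_C, Polynomial.aeval_C, Polynomial.aeval_X,
      hk, map_mul, map_add, map_natCast, map_one]
    ring
  have hF := inj hind (F := (Polynomial.X + Polynomial.C s) ^ (e + 1) * Polynomial.C g - 1) (by
    rw [Polynomial.eval₂_sub, Polynomial.eval₂_mul, Polynomial.eval₂_pow, hev, Polynomial.eval₂_C,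
      hgv, Polynomial.eval₂_one, ← mul_pow, mul_inv_cancel₀ hw0, one_pow, sub_self])
  have hF1 : (Polynomial.X + Polynomial.C s) ^ (e + 1) * Polynomial.C g = 1 := by
    rwa [sub_eq_zero] at hF
  have hg0 : Polynomial.C g ≠ 0 := by
    intro h0
    rw [h0, mul_zero] at hF1
    exact zero_ne_one hF1
  have hdeg := congrArg Polynomial.natDegree hF1
  rw [Polynomial.natDegree_mul (pow_ne_zero _ (Polynomial.X_add_C_ne_zero s)) hg0,
    Polynomial.natDegree_pow, Polynomial.natDegree_X_add_C, Polynomial.natDegree_C,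
    Polynomial.natDegree_one] at hdeg
  omega

/-! ### the chart at infinity -/

theorem D_pow {Ω : Type} [Field Ω] [Algebra ℂ Ω] (D : Derivation ℂ Ω Ω) {u κ : Ω} {m : ℕ}
    (hu : D u = κ * u ^ (m + 1)) (a : ℕ) : D (u ^ a) = a * κ * u ^ (a + m) := by
  rcases a with _ | a
  · simp
  · rw [Derivation.leibniz_pow, hu, Nat.add_sub_cancel]
    simp only [smul_eq_mul, nsmul_eq_mul]
    ring

/-- the coefficients of the residual polynomial -/
noncomputable def qc (R : Polynomial (Polynomial ℂ)) (M m a j : ℕ) : ℂ :=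
  ∑ i ∈ (R.coeff j).support, if M ≤ m * i + a * j then (R.coeff j).coeff i else 0

/-- the second component of the vector field -/
noncomputable def A1 (R : Polynomial (Polynomial ℂ)) (e m a : ℕ) (k : ℂ) :
    MvPolynomial (Fin 2) ℂ :=
  (∑ j ∈ Finset.range (e + 3), ∑ i ∈ (R.coeff j).support, C ((R.coeff j).coeff i) *
    X 0 ^ (a * (e + 2) - (m * i + a * j)) * X 1 ^ j) + C (a * k) * X 0 ^ (m + a * (e + 1)) * X 1

theorem res_A1 (R : Polynomial (Polynomial ℂ)) (e m a : ℕ) (hm : 0 < m) (k : ℂ) :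
    res (A1 R e m a k) = ∑ j ∈ Finset.range (e + 3),
      Polynomial.C (qc R (a * (e + 2)) m a j) * Polynomial.X ^ j := by
  unfold res A1
  rw [map_add, map_mul, map_mul, map_pow, aeval_X, aeval_X]
  have h0 : (![0, Polynomial.X] : Fin 2 → Polynomial ℂ) 0 = 0 := rfl
  have h1 : (![0, Polynomial.X] : Fin 2 → Polynomial ℂ) 1 = Polynomial.X := rfl
  rw [h0, zero_pow (by omega), mul_zero, zero_mul, add_zero, map_sum]
  refine Finset.sum_congr rfl fun j _ => ?_
  rw [map_sum, qc, map_sum, Finset.sum_mul]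
  refine Finset.sum_congr rfl fun i _ => ?_
  rw [map_mul, map_mul, map_pow, map_pow, aeval_X, aeval_X, h0, h1, aeval_C]
  congr 1
  by_cases h : a * (e + 2) ≤ m * i + a * j
  · rw [if_pos h, Nat.sub_eq_zero_of_le h, pow_zero, mul_one]
    rfl
  · rw [if_neg h, zero_pow (by omega), mul_zero, map_zero]

theorem aeval_A1 {Ω : Type} [Field Ω] [Algebra ℂ Ω] (R : Polynomial (Polynomial ℂ)) {e m a : ℕ}
    (k : ℂ) (hRd : R.natDegree = e + 2) {z w u : Ω} (hzu : z * u ^ m = 1)
    (key : ∀ j ≤ e + 2, ∀ i ∈ (R.coeff j).support, m * i + a * j ≤ a * (e + 2)) :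
    aeval ![u, w * u ^ a] (A1 R e m a k) = u ^ (a * (e + 1)) *
      (u ^ a * Polynomial.eval₂ (ph z) w R + a * algebraMap ℂ Ω k * u ^ m * (w * u ^ a)) := by
  unfold A1
  have h0 : (![u, w * u ^ a] : Fin 2 → Ω) 0 = u := rfl
  have h1 : (![u, w * u ^ a] : Fin 2 → Ω) 1 = w * u ^ a := rfl
  rw [map_add, map_mul, map_mul, map_pow, aeval_X, aeval_X, h0, h1, aeval_C, map_mul, map_natCast,
    Polynomial.eval₂_eq_sum_range, hRd, map_sum]
  have h2 : ∑ j ∈ Finset.range (e + 3), aeval ![u, w * u ^ a] (∑ i ∈ (R.coeff j).support,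
      C ((R.coeff j).coeff i) * X 0 ^ (a * (e + 2) - (m * i + a * j)) * X 1 ^ j) =
      u ^ (a * (e + 2)) * ∑ j ∈ Finset.range (e + 2 + 1), ph z (R.coeff j) * w ^ j := by
    rw [Finset.mul_sum]
    refine Finset.sum_congr rfl fun j hj => ?_
    have hj' : j ≤ e + 2 := by
      have := Finset.mem_range.1 hj
      omega
    rw [map_sum, ph_apply, Polynomial.aeval_def, Polynomial.eval₂_eq_sum, Polynomial.sum_def,
      Finset.sum_mul, Finset.mul_sum]
    refine Finset.sum_congr rfl fun i hi => ?_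
    rw [map_mul, map_mul, map_pow, map_pow, aeval_X, aeval_X, h0, h1, aeval_C]
    have h3 := key j hj' i hi
    obtain ⟨t, ht⟩ := Nat.exists_eq_add_of_le h3
    have h4 : z ^ i * u ^ (m * i) = 1 := by
      rw [pow_mul, ← mul_pow, hzu, one_pow]
    rw [ht, Nat.add_sub_cancel_left, mul_pow, ← pow_mul, pow_add, pow_add]
    linear_combination (- algebraMap ℂ Ω ((R.coeff j).coeff i) * u ^ t * w ^ j * u ^ (a * j)) * h4
  rw [h2]
  ring

theorem core {Ω : Type} [Field Ω] [IsAlgClosed Ω] [Algebra ℂ Ω] (D : Derivation ℂ Ω Ω)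
    (hC : ∀ x, D x = 0 → ∃ c : ℂ, algebraMap ℂ Ω c = x) (hch : ChartStmt) (hp : PowerStmt)
    {z y : Ω} (hz : D z = 1) (hfl : IsFlatElt D y) (s : Polynomial ℂ)
    (R : Polynomial (Polynomial ℂ)) {e : ℕ} (hRd : R.natDegree = e + 2) {c : ℂ} (hc0 : c ≠ 0)
    (hRc : R.coeff (e + 2) = Polynomial.C c) (hR1 : R.coeff (e + 1) = 0)
    (hw : D (y + ph z s) = Polynomial.eval₂ (ph z) (y + ph z s) R)
    (hne : ∃ j, j < e + 1 ∧ R.coeff j ≠ 0) : ¬ AlgebraicIndependent ℂ ![z, y] := by
  classical
  set J := (Finset.range (e + 1)).filter (fun j => R.coeff j ≠ 0) with hJ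
  have hJne : J.Nonempty := by
    obtain ⟨j, hj, hj'⟩ := hne
    exact ⟨j, Finset.mem_filter.2 ⟨Finset.mem_range.2 hj, hj'⟩⟩
  obtain ⟨j0, hj0, hmax⟩ := Finset.exists_max_image J
    (fun j => ((R.coeff j).natDegree : ℚ) / ((e + 2 - j : ℕ) : ℚ)) hJne
  obtain ⟨hj0r, hj0c⟩ := Finset.mem_filter.1 hj0
  rw [Finset.mem_range] at hj0r
  obtain ⟨m, hm⟩ : ∃ m, m = e + 2 - j0 := ⟨_, rfl⟩
  obtain ⟨a, ha⟩ : ∃ a, a = (R.coeff j0).natDegree := ⟨_, rfl⟩
  have hm2 : 2 ≤ m := by omega
  have hmj : m + j0 = e + 2 := by omega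
  have key : ∀ j ≤ e + 2, ∀ i ∈ (R.coeff j).support, m * i + a * j ≤ a * (e + 2) := by
    intro j hj i hi
    rcases Nat.lt_or_ge j (e + 1) with h1 | h1
    · have hjc : R.coeff j ≠ 0 := by
        intro h0
        rw [h0] at hi
        simp at hi
      have h2 := hmax j (Finset.mem_filter.2 ⟨Finset.mem_range.2 h1, hjc⟩)
      rw [← hm, ← ha, div_le_div_iff₀ (by exact_mod_cast (by omega : 0 < e + 2 - j))
        (by exact_mod_cast (by omega : 0 < m))] at h2
      have h3 : (R.coeff j).natDegree * m ≤ a * (e + 2 - j) := by exact_mod_cast h2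
      have h4 : i ≤ (R.coeff j).natDegree := Polynomial.le_natDegree_of_mem_supp i hi
      have h5 : m * i ≤ a * (e + 2 - j) := by
        calc m * i ≤ m * (R.coeff j).natDegree := Nat.mul_le_mul_left _ h4
          _ = (R.coeff j).natDegree * m := Nat.mul_comm _ _
          _ ≤ _ := h3
      calc m * i + a * j ≤ a * (e + 2 - j) + a * j := Nat.add_le_add_right h5 _
        _ = a * (e + 2) := by rw [← Nat.mul_add, Nat.sub_add_cancel hj]
    · rcases Nat.lt_or_ge j (e + 2) with h2 | h2
      · have h3 : j = e + 1 := by omega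
        rw [h3, hR1] at hi
        simp at hi
      · have h3 : j = e + 2 := by omega
        rw [h3, hRc, Polynomial.support_C hc0, Finset.mem_singleton] at hi
        rw [h3, hi]
        simp
  have hz0 : z ≠ 0 := by
    rintro rfl
    rw [map_zero] at hz
    exact zero_ne_one hz
  obtain ⟨u, hu⟩ := IsAlgClosed.exists_pow_nat_eq z⁻¹ (show 0 < m by omega)
  have hzu : z * u ^ m = 1 := by rw [hu, mul_inv_cancel₀ hz0]
  have hu0 : u ≠ 0 := by
    rintro rfl
    rw [zero_pow (by omega), mul_zero] at hzu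
    exact zero_ne_one hzu
  set w := y + ph z s with hwdef
  obtain ⟨k, hk⟩ : ∃ k : ℂ, k = -1 / (m : ℂ) := ⟨_, rfl⟩
  have hm0 : (m : ℂ) ≠ 0 := by exact_mod_cast (by omega : m ≠ 0)
  have hk0 : k ≠ 0 := by
    rw [hk]
    exact div_ne_zero (by norm_num) hm0
  have hkm : algebraMap ℂ Ω k * (m : Ω) = -1 := by
    have : algebraMap ℂ Ω (k * m) = -1 := by
      rw [hk, div_mul_cancel₀ _ hm0, map_neg, map_one]
    rwa [map_mul, map_natCast] at this
  have hDu : D u = algebraMap ℂ Ω k * u ^ (m + 1) := by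
    obtain ⟨m1, rfl⟩ : ∃ m1, m = m1 + 1 := ⟨m - 1, by omega⟩
    have h1 : D (z * u ^ (m1 + 1)) = 0 := by rw [hzu, Derivation.map_one_eq_zero]
    rw [Derivation.leibniz, Derivation.leibniz_pow, hz, Nat.add_sub_cancel] at h1
    simp only [smul_eq_mul, nsmul_eq_mul, mul_one] at h1
    linear_combination (-algebraMap ℂ Ω k * u) * h1 +
      (algebraMap ℂ Ω k * ((m1 + 1 : ℕ) : Ω) * D u) * hzu + D u * hkm
  obtain ⟨v, hv⟩ : ∃ v, v = w * u ^ a := ⟨_, rfl⟩
  have hDv : D v = u ^ a * Polynomial.eval₂ (ph z) w R +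
      a * algebraMap ℂ Ω k * u ^ m * (w * u ^ a) := by
    rw [hv, Derivation.leibniz, D_pow D hDu a, hw]
    simp only [smul_eq_mul]
    ring
  -- `z` and `y` over `C(u, v)`
  set F := IntermediateField.adjoin ℂ ({u, v} : Set Ω) with hF
  have huF : u ∈ F := IntermediateField.subset_adjoin ℂ _ (by simp)
  have hvF : v ∈ F := IntermediateField.subset_adjoin ℂ _ (by simp)
  have hzF : z ∈ F := by
    have : z = (u ^ m)⁻¹ := by rw [hu, inv_inv]
    rw [this]
    exact F.inv_mem (pow_mem huF m)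
  have hyF : y ∈ F := by
    have h1 : w ∈ F := by
      have : w = v * (u ^ a)⁻¹ := by
        rw [hv, mul_assoc, mul_inv_cancel₀ (pow_ne_zero _ hu0), mul_one]
      rw [this]
      exact F.mul_mem hvF (F.inv_mem (pow_mem huF a))
    have h2 : ph z s ∈ F := by
      rw [ph_apply]
      have h3 := Polynomial.aeval_algebraMap_apply Ω (⟨z, hzF⟩ : F) s
      rw [show (algebraMap F Ω) (⟨z, hzF⟩ : F) = z from rfl] at h3
      rw [h3]
      exact (Polynomial.aeval (⟨z, hzF⟩ : F) s).2
    have h3 : y = w - ph z s := by rw [hwdef]; ring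
    rw [h3]
    exact F.sub_mem h1 h2
  have halg : ∀ x ∈ F, IsAlgebraic F x := fun x hx => isAlgebraic_algebraMap (⟨x, hx⟩ : F)
  refine hch Ω D hC z y u v hz hfl (halg z hzF) (halg y hyF)
    ![C k * X 0 ^ (m + 1 + a * (e + 1)), A1 R e m a k] ?_ (Or.inr ?_)
  · change aeval ![u, v] (C k * X 0 ^ (m + 1 + a * (e + 1))) * D v = aeval ![u, v] (A1 R e m a k) * D u
    rw [hv, aeval_A1 R k hRd hzu key, ← hDv, ← hv, map_mul, map_pow, aeval_X, aeval_C, hDu]
    change algebraMap ℂ Ω k * u ^ (m + 1 + a * (e + 1)) * D v = _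
    ring
  · set Q : Polynomial ℂ := ∑ j ∈ Finset.range (e + 3),
      Polynomial.C (qc R (a * (e + 2)) m a j) * Polynomial.X ^ j with hQ
    have hQc : ∀ n, Q.coeff n = if n < e + 3 then qc R (a * (e + 2)) m a n else 0 := by
      intro n
      rw [hQ, Polynomial.finsetSum_coeff]
      simp only [Polynomial.coeff_C_mul_X_pow]
      rw [Finset.sum_ite_eq]
      simp only [Finset.mem_range]
    have hQtop : Q.coeff (e + 2) = c := by
      rw [hQc, if_pos (by omega), qc, hRc, Polynomial.support_C hc0, Finset.sum_singleton,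
        if_pos (by omega), Polynomial.coeff_C_zero]
    have hQ1 : Q.coeff (e + 1) = 0 := by
      rw [hQc, if_pos (by omega), qc, hR1]
      simp
    have hQj : Q.coeff j0 ≠ 0 := by
      rw [hQc, if_pos (by omega), qc, Finset.sum_eq_single a]
      · rw [if_pos, ha]
        · exact Polynomial.leadingCoeff_ne_zero.2 hj0c
        · rw [← hmj]
          exact le_of_eq (by ring)
      · intro i hi hia
        rw [if_neg]
        have h1 : i ≤ a := by
          rw [ha]
          exact Polynomial.le_natDegree_of_mem_supp i hi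
        have h2 : i < a := lt_of_le_of_ne h1 hia
        rw [← hmj]
        have h3 : m * i < m * a := Nat.mul_lt_mul_of_pos_left h2 (by omega)
        have h4 : a * (m + j0) = m * a + a * j0 := by ring
        omega
      · intro h1
        exfalso
        apply h1
        rw [ha]
        exact Polynomial.natDegree_mem_support_of_nonzero hj0c
    have hQd : Q.natDegree = e + 2 := by
      refine le_antisymm ?_ (Polynomial.le_natDegree_of_ne_zero (by rw [hQtop]; exact hc0))
      rw [Polynomial.natDegree_le_iff_coeff_eq_zero]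
      intro n hn
      rw [hQc, if_neg (by omega)]
    have hQ0 : Q ≠ 0 := by
      intro h0
      rw [h0] at hQtop
      exact hc0 (by rw [← hQtop]; simp)
    have hres : res (A1 R e m a k) = Q := res_A1 R e m a (by omega) k
    have hex : ∃ c' : ℂ, (lau c' (Polynomial.C k) Q).coeff (-1) ≠ 0 := by
      by_contra hall
      push Not at hall
      obtain ⟨α, hα⟩ := hp Q (by omega) (fun c' => by
        have h1 := hall c'
        have h2 : lau c' (Polynomial.C k) Q = HahnSeries.C k * lau c' 1 Q := by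
          unfold lau
          rw [Polynomial.taylor_C, Polynomial.taylor_one, map_one, ← mul_div_assoc]
          congr 1
          rw [Polynomial.coe_C, HahnSeries.ofPowerSeries_C, Polynomial.coe_one]
          simp
        rw [h2, HahnSeries.C_mul_eq_smul, HahnSeries.coeff_smul, smul_eq_mul] at h1
        exact (mul_eq_zero.1 h1).resolve_left hk0)
      rw [hQd] at hα
      have h3 : Q.leadingCoeff = c := by
        rw [Polynomial.leadingCoeff, hQd, hQtop]
      rw [h3, sub_eq_add_neg, ← map_neg] at hα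
      have h4 := hQ1
      rw [hα, Polynomial.coeff_C_mul, Polynomial.coeff_X_add_C_pow] at h4
      have h5 : e + 2 - (e + 1) = 1 := by omega
      rw [h5, pow_one, Nat.choose_succ_self_right] at h4
      have h6 : α = 0 := by
        have h7 : (((e + 1 + 1 : ℕ)) : ℂ) ≠ 0 := by exact_mod_cast (by omega : e + 1 + 1 ≠ 0)
        rcases mul_eq_zero.1 h4 with h8 | h8
        · exact absurd h8 hc0
        · rcases mul_eq_zero.1 h8 with h9 | h9
          · exact neg_eq_zero.1 h9
          · exact absurd h9 h7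
      apply hQj
      rw [hα, Polynomial.coeff_C_mul, Polynomial.coeff_X_add_C_pow, h6, neg_zero,
        zero_pow (by omega), zero_mul, mul_zero]
    obtain ⟨c', hc'⟩ := hex
    refine ⟨m + 1 + a * (e + 1), C k, c', ?_, ?_, Or.inl ⟨by omega, ?_⟩⟩
    · change C k * X 0 ^ (m + 1 + a * (e + 1)) = _
      ring
    · change res (A1 R e m a k) ≠ 0
      rw [hres]
      exact hQ0
    · change (lau c' (res (C k)) (res (A1 R e m a k))).coeff (-1) ≠ 0
      rw [hres]
      have : res (C k : MvPolynomial (Fin 2) ℂ) = Polynomial.C k := by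
        unfold res
        rw [aeval_C]
        rfl
      rw [this]
      exact hc'

end Monic26

open Monic26 in
theorem monic_26 (hch : ChartStmt) (hp : PowerStmt) : MonicStmt := by
  intro Ω _ _ _ D hC z y hz hfl P hd hlc hy
  obtain ⟨e, he⟩ : ∃ e, P.natDegree = e + 2 := ⟨P.natDegree - 2, by omega⟩
  obtain ⟨c, hc0, hc⟩ := hlc
  obtain ⟨s, R, hRd, hRc, hR1, hw⟩ := shift D hz P he hc0 hc hy
  by_cases hne : ∃ j, j < e + 1 ∧ R.coeff j ≠ 0
  · exact core D hC hch hp hz hfl s R hRd hc0 hRc hR1 hw hne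
  · push Not at hne
    have hR : R = Polynomial.C (Polynomial.C c) * Polynomial.X ^ (e + 2) := by
      ext1 n
      rw [Polynomial.coeff_C_mul_X_pow]
      split_ifs with h
      · rw [h, hRc]
      · rcases Nat.lt_or_ge n (e + 1) with h1 | h1
        · exact hne n h1
        · rcases Nat.lt_or_ge n (e + 2) with h2 | h2
          · have h3 : n = e + 1 := by omega
            rw [h3, hR1]
          · exact Polynomial.coeff_eq_zero_of_natDegree_lt (by omega)
    refine bernoulli D hC hz s e (c := c) ?_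
    rw [hw, hR, Polynomial.eval₂_mul, Polynomial.eval₂_C, Polynomial.eval₂_pow, Polynomial.eval₂_X,
      ph_apply, Polynomial.aeval_C]

end Pool.Agent.Lib.MP_1e09a3_nt.FO
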