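import Pool.Agent.Lib.MP_1e09a3_nt.FO.Stmts73
import Pool.Agent.Lib.MP_1e09a3_nt.WK

/-!
First order equations: Kronecker's theorem, form with points of characteristic `p`.
-/

set_option linter.style.haveILetI false

open Polynomial

namespace Pool.Agent.Lib.MP_1e09a3_nt.FO

open FE

namespace Rat22

/-- Bezout relation with integral coefficients for a separable polynomial -/
theorem bezout (m : ℤ[X]) (hm : (m.map (algebraMap ℤ ℚ)).Separable) :
    ∃ N : ℤ, N ≠ 0 ∧ ∃ U V : ℤ[X], U * m + V * derivative m = C N := by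
  obtain ⟨a, b, hab⟩ := hm
  obtain ⟨s, hs, ha⟩ := IsLocalization.integerNormalization_spec (nonZeroDivisors ℤ) a
  obtain ⟨t, ht, hb⟩ := IsLocalization.integerNormalization_spec (nonZeroDivisors ℤ) b
  set A := IsLocalization.integerNormalization (nonZeroDivisors ℤ) a with hA
  set B := IsLocalization.integerNormalization (nonZeroDivisors ℤ) b with hB
  refine ⟨s * t, mul_ne_zero (nonZeroDivisors.ne_zero hs) (nonZeroDivisors.ne_zero ht),
    C t * A, C s * B, ?_⟩
  apply Polynomial.map_injective (algebraMap ℤ ℚ) (algebraMap ℤ ℚ).injective_int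
  rw [Polynomial.map_add, Polynomial.map_mul, Polynomial.map_mul, Polynomial.map_mul,
    Polynomial.map_mul, Polynomial.map_C, Polynomial.map_C, Polynomial.map_C, ha, hb,
    ← Polynomial.derivative_map]
  have h1 : (s • a : ℚ[X]) = C (algebraMap ℤ ℚ s) * a := by
    rw [← Polynomial.smul_eq_C_mul, algebraMap_smul]
  have h2 : (t • b : ℚ[X]) = C (algebraMap ℤ ℚ t) * b := by
    rw [← Polynomial.smul_eq_C_mul, algebraMap_smul]
  rw [h1, h2, map_mul, C_mul]
  linear_combination (C (algebraMap ℤ ℚ s) * C (algebraMap ℤ ℚ t)) * hab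

/-- For almost all `p` the ring `ℤ[β]` is reduced modulo `p`, also after adding integral
elements. -/
theorem reduced {L : Type*} [Field L] [CharZero L] (β : L) (hβ : IsIntegral ℤ β) :
    ∃ N0 : ℕ, 0 < N0 ∧ ∀ p : ℕ, p.Prime → ¬ p ∣ N0 → ∀ (f : ℤ[X]) (n : ℕ) (c : L),
      n ≠ 0 → IsIntegral ℤ c → aeval β f ^ n = p * c → ∃ r : ℤ[X], aeval β f = p * aeval β r := by
  let K := IntermediateField.adjoin ℚ {β}
  have hβQ : IsIntegral ℚ β := hβ.tower_top
  haveI : FiniteDimensional ℚ K := IntermediateField.adjoin.finiteDimensional hβQ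
  let pb : PowerBasis ℚ K := IntermediateField.adjoin.powerBasis hβQ
  have hgen : algebraMap K L pb.gen = β := by
    have h1 : pb.gen = IntermediateField.AdjoinSimple.gen ℚ β :=
      IntermediateField.adjoin.powerBasis_gen hβQ
    rw [h1]
    exact IntermediateField.AdjoinSimple.coe_gen ℚ β
  have hpb : IsIntegral ℤ pb.gen := by
    rw [← hgen] at hβ
    exact (isIntegral_algebraMap_iff (algebraMap K L).injective).1 hβ
  have hΔ0 : Algebra.discr ℚ pb.basis ≠ 0 := Algebra.discr_not_zero_of_basis ℚ pb.basis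
  have hΔi : IsIntegral ℤ (Algebra.discr ℚ pb.basis) := by
    refine Algebra.discr_isIntegral ℚ fun i => ?_
    rw [pb.basis_eq_pow]
    exact hpb.pow _
  obtain ⟨z, hz⟩ := IsIntegrallyClosed.isIntegral_iff.1 hΔi
  have hz0 : z ≠ 0 := by
    rintro rfl
    rw [map_zero] at hz
    exact hΔ0 hz.symm
  have hsep : ((minpoly ℤ β).map (algebraMap ℤ ℚ)).Separable := by
    rw [← minpoly.isIntegrallyClosed_eq_field_fractions' ℚ hβ]
    exact (minpoly.irreducible hβQ).separable
  obtain ⟨N1, hN1, U, V, hUV⟩ := bezout _ hsep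
  refine ⟨(z * N1).natAbs, Int.natAbs_pos.2 (mul_ne_zero hz0 hN1), ?_⟩
  intro p hp hpN f n c hn hc hfc
  haveI : Fact p.Prime := ⟨hp⟩
  have hpz : ¬ (p : ℤ) ∣ z := fun h => hpN (Int.natCast_dvd.1 (h.mul_right _))
  have hpN1 : ¬ (p : ℤ) ∣ N1 := fun h => hpN (Int.natCast_dvd.1 (h.mul_left _))
  have hpL : (p : L) ≠ 0 := by exact_mod_cast hp.ne_zero
  -- the element `c` lies in `K`
  let cK : K := aeval pb.gen f ^ n / p
  have hcK : algebraMap K L cK = c := by
    simp only [cK]
    rw [map_div₀, map_pow, map_natCast, div_eq_iff hpL, mul_comm c, ← hfc, ← hgen,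
      aeval_algebraMap_apply]
  have hcKi : IsIntegral ℤ cK := by
    rw [← hcK] at hc
    exact (isIntegral_algebraMap_iff (algebraMap K L).injective).1 hc
  have h1 := Algebra.discr_mul_isIntegral_mem_adjoin ℚ (R := ℤ) (B := pb) hpb hcKi
  rw [Algebra.adjoin_singleton_eq_range_aeval] at h1
  obtain ⟨G, hG⟩ := h1
  have hG' : aeval β G = (z : L) * c := by
    rw [← hgen, aeval_algebraMap_apply, ← hcK]
    have h2 : aeval pb.gen G = Algebra.discr ℚ pb.basis • cK := hG
    rw [h2, ← hz, Algebra.smul_def, map_mul, ← IsScalarTower.algebraMap_apply]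
    congr 1
    simp
  have h2 : aeval β (C z * f ^ n - C (p : ℤ) * G) = 0 := by
    rw [map_sub, map_mul, map_mul, map_pow, aeval_C, aeval_C, hfc, hG']
    simp
    ring
  have h3 := minpoly.isIntegrallyClosed_dvd hβ h2
  set m := minpoly ℤ β with hm
  let φ := Int.castRingHom (ZMod p)
  have hφp : φ (p : ℤ) = 0 := by simp [φ]
  have hu : ∀ y : ℤ, ¬ (p : ℤ) ∣ y → IsUnit (φ y) := by
    intro y hy
    refine IsUnit.mk0 _ fun h => hy ?_
    exact (ZMod.intCast_zmod_eq_zero_iff_dvd y p).1 h
  have h4 : m.map φ ∣ (f.map φ) ^ n := by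
    have h5 := Polynomial.map_dvd φ h3
    rw [Polynomial.map_sub, Polynomial.map_mul, Polynomial.map_mul, Polynomial.map_C,
      Polynomial.map_C, hφp, C_0, zero_mul, sub_zero, Polynomial.map_pow] at h5
    exact ((hu z hpz).map C).dvd_mul_left.1 h5
  have h5 : (m.map φ).Separable := by
    have h6 := congrArg (Polynomial.map φ) hUV
    rw [Polynomial.map_add, Polynomial.map_mul, Polynomial.map_mul, Polynomial.map_C,
      ← Polynomial.derivative_map] at h6
    obtain ⟨w, hw⟩ := ((hu N1 hpN1).map C).exists_left_inv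
    refine ⟨w * U.map φ, w * V.map φ, ?_⟩
    rw [mul_assoc, mul_assoc, ← mul_add, h6, hw]
  have h6 : m.map φ ∣ f.map φ := (h5.squarefree.dvd_pow_iff_dvd hn).1 h4
  obtain ⟨q', hq'⟩ := h6
  obtain ⟨q, rfl⟩ := Polynomial.map_surjective φ (ZMod.ringHom_surjective φ) q'
  have h7 : C (p : ℤ) ∣ f - m * q := by
    rw [C_dvd_iff_dvd_coeff]
    intro i
    have h8 : (f - m * q).map φ = 0 := by
      rw [Polynomial.map_sub, Polynomial.map_mul, hq', sub_self]
    have h9 := congrArg (fun P => P.coeff i) h8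
    simp only [coeff_map, coeff_zero] at h9
    exact (ZMod.intCast_zmod_eq_zero_iff_dvd _ p).1 h9
  obtain ⟨r, hr⟩ := h7
  refine ⟨r, ?_⟩
  have h8 := congrArg (aeval β) hr
  rw [map_sub, map_mul, minpoly.aeval, zero_mul, sub_zero, map_mul, aeval_C] at h8
  rw [h8]
  simp

/-- retraction to an algebraically closed subfield `L`, radical version -/
theorem descend {L C : Type*} [Field L] [IsAlgClosed L] [Field C] [Algebra L C]
    (S : Set C) (hS : S.Finite) (b : L)
    (h : ∀ p : ℕ, p.Prime → ∃ n : ℕ, ∃ c ∈ Algebra.adjoin ℤ S,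
      ((algebraMap L C b) ^ p - algebraMap L C b) ^ n = p * c) :
    ∃ S' : Set L, S'.Finite ∧
      ∀ p : ℕ, p.Prime → ∃ n : ℕ, ∃ c ∈ Algebra.adjoin ℤ S', (b ^ p - b) ^ n = p * c := by
  obtain ⟨s, -⟩ := exists_retraction (K := L) S hS (1 : C) one_ne_zero
    (Subalgebra.one_mem _)
  have hle : ∀ x ∈ Algebra.adjoin ℤ S, x ∈ Algebra.adjoin L S := by
    intro x hx
    induction hx using Algebra.adjoin_induction with
    | mem x hx => exact Algebra.subset_adjoin hx
    | algebraMap n =>
      rw [eq_intCast (algebraMap ℤ C) n]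
      exact Subalgebra.intCast_mem _ n
    | add x z _ _ h1 h2 => exact Subalgebra.add_mem _ h1 h2
    | mul x z _ _ h1 h2 => exact Subalgebra.mul_mem _ h1 h2
  refine ⟨Set.range fun x : S => s ⟨x, Algebra.subset_adjoin x.2⟩, ?_, ?_⟩
  · haveI : Finite S := hS.to_subtype
    exact Set.finite_range _
  · intro p hp
    obtain ⟨n, c, hc, hbc⟩ := h p hp
    have hmem : ∀ (c : C) (hc : c ∈ Algebra.adjoin ℤ S), s ⟨c, hle c hc⟩ ∈
        Algebra.adjoin ℤ (Set.range fun x : S => s ⟨x, Algebra.subset_adjoin x.2⟩) := by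
      intro c hc
      induction hc using Algebra.adjoin_induction with
      | mem x hx => exact Algebra.subset_adjoin ⟨⟨x, hx⟩, rfl⟩
      | algebraMap n =>
        have : s ⟨algebraMap ℤ C n, hle _ (Subalgebra.algebraMap_mem _ n)⟩ = (n : L) := by
          have h1 : (⟨algebraMap ℤ C n, hle _ (Subalgebra.algebraMap_mem _ n)⟩ :
              Algebra.adjoin L S) = (n : Algebra.adjoin L S) := by
            apply Subtype.ext; simp
          rw [h1, map_intCast]
        rw [this]
        exact Subalgebra.intCast_mem _ n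
      | add x z hx hz h1 h2 =>
        have : s ⟨x + z, hle _ (Subalgebra.add_mem _ hx hz)⟩ =
            s ⟨x, hle _ hx⟩ + s ⟨z, hle _ hz⟩ := by
          rw [← map_add]; rfl
        rw [this]
        exact Subalgebra.add_mem _ h1 h2
      | mul x z hx hz h1 h2 =>
        have : s ⟨x * z, hle _ (Subalgebra.mul_mem _ hx hz)⟩ =
            s ⟨x, hle _ hx⟩ * s ⟨z, hle _ hz⟩ := by
          rw [← map_mul]; rfl
        rw [this]
        exact Subalgebra.mul_mem _ h1 h2
    refine ⟨n, s ⟨c, hle c hc⟩, hmem c hc, ?_⟩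
    have h3 : algebraMap L (Algebra.adjoin L S) ((b ^ p - b) ^ n)
        = (p : Algebra.adjoin L S) * ⟨c, hle c hc⟩ := by
      apply Subtype.ext
      have h5 : ((algebraMap L (Algebra.adjoin L S) ((b ^ p - b) ^ n) : Algebra.adjoin L S) : C)
          = algebraMap L C ((b ^ p - b) ^ n) := rfl
      have h6 : (((p : Algebra.adjoin L S) * ⟨c, hle c hc⟩ : Algebra.adjoin L S) : C)
          = (p : C) * c := by simp
      rw [h5, h6, map_pow, map_sub, map_pow, hbc]
    have h4 := congrArg s h3
    rw [AlgHom.commutes, map_mul, map_natCast] at h4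
    exact h4

/-- the algebraic case -/
theorem alg {L : Type*} [Field L] [CharZero L] [IsAlgClosed L] (hZ : ∀ x : L, IsAlgebraic ℤ x)
    (S : Set L) (hS : S.Finite) (b : L)
    (h : ∀ p : ℕ, p.Prime → ∃ n : ℕ, ∃ c ∈ Algebra.adjoin ℤ S, (b ^ p - b) ^ n = p * c) :
    ∃ q : ℚ, (q : L) = b := by
  obtain ⟨g, hg0, hg⟩ := exists_denominator (R := ℤ) (insert b S) (hS.insert _)
    (fun s _ => hZ s)
  obtain ⟨M, hM0, hM⟩ := (hZ b).exists_integral_multiple
  set A := Algebra.adjoin ℤ (insert b S) with hA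
  have hbA : b ∈ A := Algebra.subset_adjoin (Set.mem_insert _ _)
  have hle : Algebra.adjoin ℤ S ≤ A := Algebra.adjoin_mono (Set.subset_insert _ _)
  set β : L := M • b with hβ
  have hβA : β ∈ A := Subalgebra.zsmul_mem _ hbA M
  obtain ⟨N0, hN0, hred⟩ := reduced β hM
  set N := N0 * g.natAbs with hN
  have hNpos : 0 < N := Nat.mul_pos hN0 (Int.natAbs_pos.2 hg0)
  have hNL : (N : L) ≠ 0 := by exact_mod_cast hNpos.ne'
  -- the Kronecker condition in `ℤ[β, 1/N]`
  have key : ∀ p : ℕ, p.Prime → ∃ c ∈ Algebra.adjoin ℤ ({β, (N : L)⁻¹} : Set L),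
      β ^ p - β = p * c := by
    intro p hp
    have hβ' : β ∈ Algebra.adjoin ℤ ({β, (N : L)⁻¹} : Set L) :=
      Algebra.subset_adjoin (Set.mem_insert _ _)
    have hN' : (N : L)⁻¹ ∈ Algebra.adjoin ℤ ({β, (N : L)⁻¹} : Set L) :=
      Algebra.subset_adjoin (Set.mem_insert_of_mem _ rfl)
    by_cases hpN : p ∣ N
    · obtain ⟨d, hd⟩ := hpN
      refine ⟨(β ^ p - β) * (d * (N : L)⁻¹), Subalgebra.mul_mem _ (Subalgebra.sub_mem _
        (Subalgebra.pow_mem _ hβ' p) hβ') (Subalgebra.mul_mem _ (Subalgebra.natCast_mem _ d) hN'),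
        ?_⟩
      have h1 : (p : L) * d * (N : L)⁻¹ = 1 := by
        rw [← Nat.cast_mul, ← hd]
        exact mul_inv_cancel₀ hNL
      linear_combination -(β ^ p - β) * h1
    · obtain ⟨n, c, hc, hbc⟩ := h p hp
      -- the relation for `β`
      have h1 : ∃ c' ∈ A, (β ^ p - β) ^ (n + 1) = p * c' := by
        obtain ⟨k, hk⟩ := int_pow_sub M p hp
        have hkL : (M : L) ^ p - M = p * k := by
          exact_mod_cast congrArg (fun n : ℤ => (n : L)) hk
        set u : L := (M : L) ^ p * (b ^ p - b) with hu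
        have huA : u ∈ A := Subalgebra.mul_mem _ (Subalgebra.pow_mem _ (Subalgebra.intCast_mem _ M)
          _) (Subalgebra.sub_mem _ (Subalgebra.pow_mem _ hbA _) hbA)
        have h2 : β ^ p - β = u + p * (k * b) := by
          rw [hβ, hu, zsmul_eq_mul]
          linear_combination b * hkL
        have h3 : u ^ (n + 1) = p * (u * ((M : L) ^ p) ^ n * c) := by
          rw [pow_succ, hu, mul_pow, hbc]
          ring
        have hxA : β ^ p - β ∈ A := Subalgebra.sub_mem _ (Subalgebra.pow_mem _ hβA _) hβA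
        obtain ⟨w, hw⟩ := sub_dvd_pow_sub_pow (⟨β ^ p - β, hxA⟩ : A) ⟨u, huA⟩ (n + 1)
        have hw' := congrArg Subtype.val hw
        have hw'' : (β ^ p - β) ^ (n + 1) - u ^ (n + 1) = (β ^ p - β - u) * (w : L) := hw'
        refine ⟨u * ((M : L) ^ p) ^ n * c + k * b * w, ?_, ?_⟩
        · exact Subalgebra.add_mem _ (Subalgebra.mul_mem _ (Subalgebra.mul_mem _ huA
            (Subalgebra.pow_mem _ (Subalgebra.pow_mem _ (Subalgebra.intCast_mem _ M) _) _))
            (hle hc)) (Subalgebra.mul_mem _ (Subalgebra.mul_mem _ (Subalgebra.intCast_mem _ k) hbA)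
              w.2)
        · have h4 : β ^ p - β - u = p * (k * b) := by rw [h2]; ring
          rw [h4, h3] at hw''
          linear_combination hw''
      obtain ⟨c', hc', hc'2⟩ := h1
      obtain ⟨l, hl⟩ := hg c' hc'
      have hpg : IsCoprime (p : ℤ) (g ^ l) := by
        apply IsCoprime.pow_right
        rw [Int.isCoprime_iff_gcd_eq_one]
        have h5 : Nat.Coprime p g.natAbs := (Nat.Prime.coprime_iff_not_dvd hp).2
          fun h => hpN (h.mul_left _)
        simpa [Int.gcd, Nat.Coprime] using h5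
      obtain ⟨s, t, hst⟩ := hpg
      have hxi : IsIntegral ℤ (β ^ p - β) := (hM.pow p).sub hM
      have hci : IsIntegral ℤ (s • (β ^ p - β) ^ (n + 1) + t • (g ^ l • c')) :=
        ((hxi.pow _).smul _).add (hl.smul _)
      have h6 : aeval β (X ^ p - X : ℤ[X]) ^ (n + 1) =
          p * (s • (β ^ p - β) ^ (n + 1) + t • (g ^ l • c')) := by
        have h7 : (s : L) * p + t * (g : L) ^ l = 1 := by exact_mod_cast hst
        rw [map_sub, map_pow, aeval_X, zsmul_eq_mul, zsmul_eq_mul, zsmul_eq_mul, hc'2]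
        push_cast
        linear_combination -(p * c' : L) * h7
      obtain ⟨r, hr⟩ := hred p hp (fun h => hpN (h.mul_right _)) _ (n + 1) _ (Nat.succ_ne_zero n)
        hci h6
      rw [map_sub, map_pow, aeval_X] at hr
      refine ⟨aeval β r, ?_, hr⟩
      have h8 : aeval β r ∈ Algebra.adjoin ℤ ({β} : Set L) := by
        rw [Algebra.adjoin_singleton_eq_range_aeval]
        exact ⟨r, rfl⟩
      exact Algebra.adjoin_mono (Set.singleton_subset_iff.2 (Set.mem_insert _ _)) h8
  obtain ⟨q, hq⟩ := kronecker _ (Set.toFinite _) β key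
  refine ⟨q / M, ?_⟩
  have hM' : (M : L) ≠ 0 := by exact_mod_cast hM0
  push_cast
  rw [hq, hβ, zsmul_eq_mul]
  field_simp

/-- Kronecker's theorem, radical version -/
theorem kron {C : Type*} [Field C] [CharZero C] [IsAlgClosed C] (S : Set C)
    (hS : S.Finite) (b : C)
    (h : ∀ p : ℕ, p.Prime → ∃ n : ℕ, ∃ c ∈ Algebra.adjoin ℤ S, (b ^ p - b) ^ n = p * c) :
    ∃ q : ℚ, (q : C) = b := by
  classical
  by_cases halg : IsAlgebraic ℚ b
  · -- the algebraic case
    let b' : algebraicClosure ℚ C := ⟨b, mem_algebraicClosure_iff.2 halg⟩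
    haveI : IsAlgClosed (algebraicClosure ℚ C) := (algebraicClosure.isAlgClosure ℚ C).isAlgClosed
    obtain ⟨S', hS', h'⟩ := descend (L := algebraicClosure ℚ C) S hS b' h
    have hZ : ∀ x : algebraicClosure ℚ C, IsAlgebraic ℤ x := by
      intro x
      rw [IsFractionRing.isAlgebraic_iff ℤ ℚ]
      have h1 : IsAlgebraic ℚ x := (algebraicClosure.isAlgebraic ℚ C).isAlgebraic x
      convert! h1
    obtain ⟨q, hq⟩ := alg hZ S' hS' b' h'
    refine ⟨q, ?_⟩
    have := congrArg (algebraMap (algebraicClosure ℚ C) C) hq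
    rw [map_ratCast] at this
    exact this
  · -- the transcendental case
    exfalso
    have htr : Transcendental ℤ b := by
      intro hb
      exact halg ((IsFractionRing.isAlgebraic_iff ℤ ℚ C).1 hb)
    have hinj : Function.Injective (aeval b : ℤ[X] →ₐ[ℤ] C) :=
      transcendental_iff_injective.1 htr
    let K := FractionRing ℤ[X]
    let ψ : K →+* C := IsFractionRing.lift (A := ℤ[X]) (g := (aeval b : ℤ[X] →ₐ[ℤ] C).toRingHom) hinj
    letI : Algebra K C := ψ.toAlgebra
    letI : Algebra ℤ[X] C := (aeval b : ℤ[X] →ₐ[ℤ] C).toRingHom.toAlgebra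
    haveI : IsScalarTower ℤ[X] K C := IsScalarTower.of_algebraMap_eq fun x => by
      change _ = ψ (algebraMap ℤ[X] K x)
      rw [IsFractionRing.lift_algebraMap]
      rfl
    let b' : algebraicClosure K C := algebraMap K _ (algebraMap ℤ[X] K X)
    have hb' : (b' : C) = b := by
      change algebraMap K C (algebraMap ℤ[X] K X) = b
      rw [← IsScalarTower.algebraMap_apply]
      change aeval b (X : ℤ[X]) = b
      simp
    haveI : IsAlgClosed (algebraicClosure K C) := (algebraicClosure.isAlgClosure K C).isAlgClosed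
    obtain ⟨S', hS', h'⟩ := descend (L := algebraicClosure K C) S hS b' (by
      have : algebraMap (algebraicClosure K C) C b' = b := hb'
      rw [this]; exact h)
    have hZ : ∀ x : algebraicClosure K C, IsAlgebraic ℤ[X] x := by
      intro x
      rw [IsFractionRing.isAlgebraic_iff ℤ[X] K]
      exact Algebra.IsAlgebraic.isAlgebraic x
    obtain ⟨g, hg0, hg⟩ := exists_denominator (R := ℤ[X]) S' hS' (fun s _ => hZ s)
    -- every prime divides `g`
    have key : ∀ p : ℕ, p.Prime → (Polynomial.C (p : ℤ)) ∣ g := by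
      intro p hp
      obtain ⟨n, c, hc, hbc⟩ := h' p hp
      obtain ⟨k, hk⟩ := hg c hc
      have hpK : (p : K) ≠ 0 := by exact_mod_cast hp.ne_zero
      have hpL : (p : algebraicClosure K C) ≠ 0 := by exact_mod_cast hp.ne_zero
      let κ : K := algebraMap ℤ[X] K (g ^ k * (X ^ p - X) ^ n) / p
      have hκ : algebraMap K (algebraicClosure K C) κ = g ^ k • c := by
        simp only [κ]
        rw [map_div₀, map_natCast, div_eq_iff hpL, ← IsScalarTower.algebraMap_apply, map_mul,
          Algebra.smul_def, mul_assoc, mul_comm c, ← hbc]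
        congr 1
        simp only [b', map_sub, map_pow, ← IsScalarTower.algebraMap_apply]
      have hint : IsIntegral ℤ[X] κ := by
        rw [← hκ] at hk
        exact (isIntegral_algebraMap_iff (algebraMap K (algebraicClosure K C)).injective).1 hk
      obtain ⟨hh, hhh⟩ := IsIntegrallyClosed.isIntegral_iff.1 hint
      have h5 : g ^ k * (X ^ p - X) ^ n = Polynomial.C (p : ℤ) * hh := by
        apply IsFractionRing.injective ℤ[X] K
        have h6 : algebraMap ℤ[X] K (Polynomial.C (p : ℤ)) = (p : K) := by simp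
        rw [map_mul (algebraMap ℤ[X] K) (Polynomial.C (p : ℤ)), hhh, h6]
        simp only [κ]
        rw [mul_div_cancel₀ _ hpK]
      have hprime : Prime (Polynomial.C (p : ℤ)) := by
        rw [Polynomial.prime_C_iff]
        exact Nat.prime_iff_prime_int.1 hp
      rcases hprime.dvd_or_dvd ⟨hh, h5⟩ with h7 | h7
      · exact hprime.dvd_of_dvd_pow h7
      · exfalso
        have h7 := hprime.dvd_of_dvd_pow h7
        rw [Polynomial.C_dvd_iff_dvd_coeff] at h7
        have h8 := h7 p
        have hp1 : p ≠ 1 := hp.ne_one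
        rw [coeff_sub, coeff_X_pow, if_pos rfl, coeff_X, if_neg (Ne.symm hp1), sub_zero] at h8
        have h9 : (p : ℤ) ∣ 1 := h8
        have := Int.le_of_dvd one_pos h9
        have := hp.two_le
        omega
    obtain ⟨p, hpg, hp⟩ := Nat.exists_infinite_primes (g.leadingCoeff.natAbs + 1)
    have h1 := (Polynomial.C_dvd_iff_dvd_coeff _ _).1 (key p hp) g.natDegree
    have h2 : g.coeff g.natDegree ≠ 0 := by
      rw [Polynomial.coeff_natDegree]; exact leadingCoeff_ne_zero.2 hg0
    have h3 := Nat.le_of_dvd (Int.natAbs_pos.2 h2) (Int.natAbs_dvd_natAbs.2 h1)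
    rw [Int.natAbs_natCast] at h3
    rw [Polynomial.coeff_natDegree] at h3
    omega

end Rat22

/-- FO4 -/
theorem rat_22 : RatStmt := by
  intro C _ _ _ T hT b h
  refine Rat22.kron T hT (b : C) fun p hp => ?_
  haveI : Fact p.Prime := ⟨hp⟩
  have hle : ∀ x : Zg T, (x : C) ∈ Algebra.adjoin ℤ T := by
    intro x
    have : Zg T ≤ (Algebra.adjoin ℤ T).toSubring := by
      rw [Subring.closure_le]
      exact Algebra.subset_adjoin
    exact this x.2
  have h1 : b ^ p - b ∈ (Ideal.span {((p : ℕ) : Zg T)}).radical := by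
    rw [Ideal.radical_eq_sInf, Submodule.mem_sInf]
    rintro J ⟨hJ, hJp⟩
    haveI := hJp
    let k := FractionRing (Zg T ⧸ J)
    have h0 : ((p : ℕ) : k) = 0 := by
      have h2 : ((p : ℕ) : Zg T ⧸ J) = 0 := by
        rw [← map_natCast (Ideal.Quotient.mk J), Ideal.Quotient.eq_zero_iff_mem]
        exact hJ (Ideal.mem_span_singleton_self _)
      rw [← map_natCast (algebraMap (Zg T ⧸ J) k), h2, map_zero]
    haveI : CharP k p := by
      obtain ⟨q, hq⟩ := CharP.exists k
      have h2 : q ∣ p := (CharP.cast_eq_zero_iff _ q p).1 h0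
      rcases (Nat.dvd_prime hp).1 h2 with h3 | h3
      · subst h3
        exact absurd rfl (CharP.char_ne_one k 1)
      · rwa [← h3]
    have h2 := h p k ((algebraMap (Zg T ⧸ J) k).comp (Ideal.Quotient.mk J))
    rw [RingHom.comp_apply, ← map_pow] at h2
    have h3 := IsFractionRing.injective (Zg T ⧸ J) k h2
    rw [← map_pow] at h3
    have h4 : Ideal.Quotient.mk J (b ^ p - b) = 0 := by
      rw [map_sub, h3, sub_self]
    exact Ideal.Quotient.eq_zero_iff_mem.1 h4
  obtain ⟨n, hn⟩ := h1
  obtain ⟨c, hc⟩ := Ideal.mem_span_singleton'.1 hn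
  refine ⟨n, c, hle c, ?_⟩
  have h2 := congrArg Subtype.val hc
  push_cast at h2
  rw [← h2]
  ring

end Pool.Agent.Lib.MP_1e09a3_nt.FO
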