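import Pool.Agent.Lib.MP_1e09a3_nt.FO.Exact39
import Pool.Agent.Lib.MP_1e09a3_nt.FE.Pi16

/-!
FO9: residues in characteristic `p`.
-/

open Finset

namespace Pool.Agent.Lib.MP_1e09a3_nt.FO

namespace ResP39

section hoch

variable {F : Type} [Field F] (p : ℕ) [CharP F p] [hp : Fact p.Prime]

/-- The `p`-th iterate of a derivation is a derivation in characteristic `p`. -/
theorem iter_p (δ : Derivation ℤ F F) (x y : F) :
    (⇑δ)^[p] (x * y) = (⇑δ)^[p] x * y + x * (⇑δ)^[p] y := by
  have h1 := Exact39.leib δ 0 p x y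
  have e0 : ∀ (k : ℕ) (g : F), (Exact39.NN δ 0 ^ k) g = (⇑δ)^[k] g := by
    intro k g
    rw [Exact39.NN_pow]
    have : (fun g => δ g + 0 * g) = ⇑δ := by
      funext g
      rw [zero_mul, add_zero]
    rw [this]
  simp only [e0] at h1
  have h2 : ∑ ij ∈ antidiagonal p, (p.choose ij.1 : F) * ((⇑δ)^[ij.1] x * (⇑δ)^[ij.2] y) =
      ∑ ij ∈ ({(0, p), (p, 0)} : Finset (ℕ × ℕ)),
        (p.choose ij.1 : F) * ((⇑δ)^[ij.1] x * (⇑δ)^[ij.2] y) := by
    symm
    refine Finset.sum_subset ?_ ?_
    · intro z hz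
      rw [Finset.mem_insert, Finset.mem_singleton] at hz
      rw [HasAntidiagonal.mem_antidiagonal]
      rcases hz with rfl | rfl
      · simp
      · simp
    · rintro ⟨i, j⟩ hx hx'
      rw [HasAntidiagonal.mem_antidiagonal] at hx
      simp only [Finset.mem_insert, Finset.mem_singleton, Prod.mk.injEq, not_or] at hx' hx
      have hi : i ≠ 0 := fun h0 => hx'.1 ⟨h0, by omega⟩
      have hip : i < p := by
        rcases Nat.lt_or_ge i p with h | h
        · exact h
        · exact absurd ⟨(by omega : i = p), (by omega : j = 0)⟩ hx'.2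
      have h3 : p ∣ p.choose i := hp.out.dvd_choose_self hi hip
      rw [(CharP.cast_eq_zero_iff F p _).2 h3, zero_mul]
  rw [h1, h2, Finset.sum_pair (by
    intro h0
    have := congrArg Prod.fst h0
    have h4 := hp.out.pos
    simp only at this
    omega)]
  simp only [Nat.choose_zero_right, Nat.choose_self, Nat.cast_one, one_mul,
    Function.iterate_zero_apply]
  rw [add_comm]

theorem der_natCast (d : Derivation ℤ F F) (n : ℕ) : d (n : F) = 0 := d.map_natCast n

theorem iter_pow (d : Derivation ℤ F F) (v c : F) (hv : d v = 1) (hc : d c = 0) (m : ℕ) :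
    ∀ j, j ≤ m → (⇑d)^[j] (v ^ m * c) = (m.descFactorial j : F) * v ^ (m - j) * c := by
  intro j
  induction j with
  | zero => intro _; simp
  | succ j ih =>
    intro hj
    rw [Function.iterate_succ_apply', ih (by omega), Derivation.leibniz, Derivation.leibniz,
      Derivation.leibniz_pow]
    simp only [smul_eq_mul, nsmul_eq_mul]
    rw [hc, hv, der_natCast, Nat.descFactorial_succ, show m - (j + 1) = m - j - 1 by omega]
    push_cast
    ring

/-- Hochschild's formula in characteristic `p`. -/
theorem hoch (d : Derivation ℤ F F) (v φ : F) (hv : d v = 1) (hd : ∀ x, (⇑d)^[p] x = 0) (s : F) :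
    (⇑(φ • d))^[p] s = (⇑(φ • d))^[p] v * d s := by
  obtain ⟨E, hE⟩ : ∃ E : F → F, E = (⇑(φ • d))^[p] := ⟨_, rfl⟩
  rw [← hE]
  have hEmul : ∀ x y, E (x * y) = E x * y + x * E y := fun x y => by
    rw [hE]; exact iter_p p (φ • d) x y
  have hEadd : ∀ x y, E (x + y) = E x + E y := fun x y => by
    rw [hE]; exact iterate_map_add (φ • d) p x y
  have hp0 := hp.out.pos
  have hEc : ∀ c, d c = 0 → E c = 0 := by
    intro c hc
    obtain ⟨m, hm⟩ : ∃ m, p = m + 1 := ⟨p - 1, by omega⟩
    rw [hE, hm, Function.iterate_succ_apply]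
    have : (φ • d) c = 0 := by
      show φ • d c = 0
      rw [hc, smul_zero]
    rw [this]
    exact iterate_map_zero (φ • d) m
  have hEpow : ∀ m : ℕ, E (v ^ m) = E v * d (v ^ m) := by
    intro m
    induction m with
    | zero => rw [pow_zero, Derivation.map_one_eq_zero, mul_zero]; exact hEc 1 (by simp)
    | succ m ih =>
      rw [pow_succ, hEmul, ih, Derivation.leibniz, smul_eq_mul, smul_eq_mul, hv]
      ring
  have key : ∀ m, m ≤ p → ∀ s, (⇑d)^[m] s = 0 → E s = E v * d s := by
    intro m
    induction m with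
    | zero =>
      intro _ s hs
      have hs' : s = 0 := hs
      rw [hs', map_zero, mul_zero]
      exact hEc 0 (map_zero d)
    | succ m ih =>
      intro hm s hs
      obtain ⟨c, hc⟩ : ∃ c : F, c = (m.factorial : F)⁻¹ * (⇑d)^[m] s := ⟨_, rfl⟩
      have hm0 : (m.factorial : F) ≠ 0 := by
        intro h0
        have h1 : p ∣ m.factorial := (CharP.cast_eq_zero_iff F p _).1 h0
        have h2 := hp.out.dvd_factorial.1 h1
        omega
      have hinv : d (m.factorial : F)⁻¹ = 0 := by
        have h1 : d ((m.factorial : F) * (m.factorial : F)⁻¹) = 0 := by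
          rw [mul_inv_cancel₀ hm0, Derivation.map_one_eq_zero]
        rw [Derivation.leibniz, smul_eq_mul, smul_eq_mul, der_natCast, mul_zero, add_zero] at h1
        exact (mul_eq_zero.1 h1).resolve_left hm0
      have hdc : d c = 0 := by
        rw [hc, Derivation.leibniz, smul_eq_mul, smul_eq_mul, hinv, mul_zero, add_zero,
          ← Function.iterate_succ_apply' (⇑d) m s, hs, mul_zero]
      have h3 : (⇑d)^[m] (s - v ^ m * c) = 0 := by
        rw [iterate_map_sub d m, iter_pow d v c hv hdc m m le_rfl, Nat.descFactorial_self,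
          Nat.sub_self, pow_zero, mul_one, hc, mul_inv_cancel_left₀ hm0, sub_self]
      have h4 := ih (by omega) _ h3
      have h5 : E (v ^ m * c) = E v * d (v ^ m * c) := by
        rw [hEmul, hEpow, hEc c hdc, Derivation.leibniz, smul_eq_mul, smul_eq_mul, hdc]
        ring
      have h6 : E s = E (s - v ^ m * c) + E (v ^ m * c) := by
        rw [← hEadd, sub_add_cancel]
      rw [h6, h4, h5, ← mul_add, ← map_add, sub_add_cancel]
  exact key p le_rfl s (hd s)

end hoch

/-- derivations of a field (the algebra structure over the integers is the canonical one) -/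
abbrev DerZ (F : Type) [Field F] : Type := Derivation ℤ F F

theorem mkDer (F : Type) [Field F] (f : F → F) (hadd : ∀ x y, f (x + y) = f x + f y)
    (hmul : ∀ x y, f (x * y) = x * f y + y * f x) : ∃ D : DerZ F, ∀ x, D x = f x := by
  refine ⟨Derivation.mk' (AddMonoidHom.mk' f hadd).toIntLinearMap fun x y => ?_, fun x => rfl⟩
  exact hmul x y

section laurent

variable {k : Type} [Field k]

theorem exists_d : ∃ d : DerZ (LaurentSeries k),
    ∀ (u : LaurentSeries k) (n : ℤ), (d u).coeff n = (n + 1 : ℤ) * u.coeff (n + 1) := by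
  obtain ⟨D, hD⟩ := FE.der_16 k 0 1 (by simp)
  obtain ⟨d, hd⟩ := mkDer (LaurentSeries k) (fun u => HahnSeries.single (-1 : ℤ) (1 : k) * D u)
    (fun x y => by rw [map_add, mul_add])
    (fun x y => by rw [Derivation.leibniz, smul_eq_mul, smul_eq_mul]; ring)
  refine ⟨d, fun u n => ?_⟩
  rw [hd]
  have h1 : n = (n + 1) + (-1) := by ring
  conv_lhs => rw [h1]
  rw [HahnSeries.coeff_single_mul_add, one_mul, hD]
  simp

/-- expansion at `c` -/
noncomputable def tau (c : k) (g : Polynomial k) : LaurentSeries k :=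
  HahnSeries.ofPowerSeries ℤ k (Polynomial.taylor c g : Polynomial k)

theorem tau_mul (c : k) (g h : Polynomial k) : tau c (g * h) = tau c g * tau c h := by
  rw [tau, tau, tau, Polynomial.taylor_mul, Polynomial.coe_mul, map_mul]

theorem tau_add (c : k) (g h : Polynomial k) : tau c (g + h) = tau c g + tau c h := by
  rw [tau, tau, tau, map_add, Polynomial.coe_add, map_add]

theorem tau_C (c a : k) : tau c (Polynomial.C a) = HahnSeries.C a := by
  rw [tau, Polynomial.taylor_C, Polynomial.coe_C, HahnSeries.ofPowerSeries_C]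

theorem tau_injective (c : k) (g : Polynomial k) (h : tau c g = 0) : g = 0 := by
  have h1 : ((Polynomial.taylor c g : Polynomial k) : PowerSeries k) = 0 :=
    HahnSeries.ofPowerSeries_injective (Γ := ℤ) (R := k) (by rw [map_zero]; exact h)
  have h2 : Polynomial.taylor c g = 0 := Polynomial.coe_eq_zero_iff.1 h1
  exact (Polynomial.taylor_injective c) (by rw [h2, map_zero])

theorem tau_coeff (c : k) (g : Polynomial k) (n : ℤ) : (tau c g).coeff n =
    if n < 0 then 0 else (Polynomial.taylor c g).coeff n.natAbs := by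
  rw [tau, PowerSeries.coeff_coe, Polynomial.coeff_coe]

theorem d_tau {d : DerZ (LaurentSeries k)}
    (hd : ∀ (u : LaurentSeries k) (n : ℤ), (d u).coeff n = (n + 1 : ℤ) * u.coeff (n + 1))
    (c : k) (g : Polynomial k) : d (tau c g) = tau c (Polynomial.derivative g) := by
  ext n
  rw [hd, tau_coeff, tau_coeff]
  have h1 : Polynomial.taylor c (Polynomial.derivative g) =
      Polynomial.derivative (Polynomial.taylor c g) := by
    rw [Polynomial.taylor_apply, Polynomial.taylor_apply, Polynomial.derivative_comp]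
    simp
  by_cases hn : n < 0
  · rw [if_pos hn]
    by_cases hn1 : n + 1 < 0
    · rw [if_pos hn1, mul_zero]
    · have : n + 1 = 0 := by omega
      rw [this]
      simp
  · obtain ⟨m, rfl⟩ : ∃ m : ℕ, n = m := ⟨n.toNat, by omega⟩
    rw [if_neg hn, if_neg (by omega), h1, Polynomial.coeff_derivative, Int.natAbs_natCast,
      show ((m : ℤ) + 1).natAbs = m + 1 by omega]
    push_cast
    ring

theorem d_iter {d : DerZ (LaurentSeries k)}
    (hd : ∀ (u : LaurentSeries k) (n : ℤ), (d u).coeff n = (n + 1 : ℤ) * u.coeff (n + 1))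
    (m : ℕ) (u : LaurentSeries k) (n : ℤ) : ((⇑d)^[m] u).coeff n =
      ((∏ i ∈ range m, (n + 1 + i) : ℤ) : k) * u.coeff (n + m) := by
  induction m generalizing n with
  | zero => simp
  | succ m ih =>
    rw [Function.iterate_succ_apply', hd, ih, Finset.prod_range_succ', ← mul_assoc]
    have e1 : ∀ i ∈ range m, n + 1 + 1 + (i : ℤ) = n + 1 + ((i + 1 : ℕ) : ℤ) := by
      intro i _
      push_cast
      ring
    rw [Finset.prod_congr rfl e1, show n + 1 + (m : ℤ) = n + ((m + 1 : ℕ) : ℤ) by
      push_cast; ring]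
    congr 1
    push_cast
    ring

theorem d_p (p : ℕ) [CharP k p] [hp : Fact p.Prime]
    {d : DerZ (LaurentSeries k)}
    (hd : ∀ (u : LaurentSeries k) (n : ℤ), (d u).coeff n = (n + 1 : ℤ) * u.coeff (n + 1))
    (u : LaurentSeries k) : (⇑d)^[p] u = 0 := by
  ext n
  rw [d_iter hd, HahnSeries.coeff_zero]
  have h1 : ((∏ i ∈ range p, (n + 1 + i) : ℤ) : k) = 0 := by
    have hp0 : (0 : ℤ) < p := by exact_mod_cast hp.out.pos
    rw [Int.cast_prod]
    refine Finset.prod_eq_zero (i := ((-(n + 1)) % p).toNat) ?_ ?_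
    · rw [Finset.mem_range]
      have h2 := Int.emod_lt_of_pos (-(n + 1)) hp0
      have h3 := Int.emod_nonneg (-(n + 1)) hp0.ne'
      omega
    · have h3 := Int.emod_nonneg (-(n + 1)) hp0.ne'
      have h4 : (((-(n + 1)) % p).toNat : ℤ) = (-(n + 1)) % p := Int.toNat_of_nonneg h3
      rw [h4]
      have h5 : (n + 1 + (-(n + 1)) % p : ℤ) = -((p : ℤ) * ((-(n + 1)) / p)) := by
        have := Int.emod_add_mul_ediv (-(n + 1)) p
        linarith
      rw [h5]
      push_cast
      rw [CharP.cast_eq_zero k p]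
      ring
  rw [h1, zero_mul]

theorem tau_nab {d : DerZ (LaurentSeries k)}
    (hd : ∀ (u : LaurentSeries k) (n : ℤ), (d u).coeff n = (n + 1 : ℤ) * u.coeff (n + 1))
    (c ε : k) (a b : Polynomial k) (m : ℕ) (g : Polynomial k) :
    tau c ((nab ε a b)^[m] g) =
      (fun x => (tau c b • d) x + HahnSeries.C ε * tau c a * x)^[m] (tau c g) := by
  induction m with
  | zero => rfl
  | succ m ih =>
    rw [Function.iterate_succ_apply', Function.iterate_succ_apply', ← ih]
    obtain ⟨x, hx⟩ : ∃ x : Polynomial k, x = (nab ε a b)^[m] g := ⟨_, rfl⟩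
    rw [← hx]
    show tau c (b * Polynomial.derivative x + Polynomial.C ε * a * x) =
      tau c b • d (tau c x) + HahnSeries.C ε * tau c a * tau c x
    rw [tau_add, tau_mul, tau_mul, tau_mul, tau_C, d_tau hd, smul_eq_mul]

theorem charP_laurent (p : ℕ) [CharP k p] : CharP (LaurentSeries k) p :=
  charP_of_injective_ringHom (f := (HahnSeries.C : k →+* LaurentSeries k))
    HahnSeries.C_injective p

/-- A logarithmic derivative has a simple pole with integral residue. -/
theorem logder {d : DerZ (LaurentSeries k)}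
    (hd : ∀ (u : LaurentSeries k) (n : ℤ), (d u).coeff n = (n + 1 : ℤ) * u.coeff (n + 1))
    {g L : LaurentSeries k} (hg : g ≠ 0) (hL : L * g = -(d g)) :
    (∀ n : ℤ, n < -1 → L.coeff n = 0) ∧ ∃ z : ℤ, L.coeff (-1) = z := by
  by_cases hL0 : L = 0
  · rw [hL0]
    exact ⟨fun n _ => by simp, 0, by simp⟩
  have h1 := HahnSeries.coeff_mul_order_add_order L g
  rw [hL, HahnSeries.leadingCoeff_eq, HahnSeries.leadingCoeff_eq, HahnSeries.coeff_neg, hd] at h1
  have hLn : L.coeff L.order ≠ 0 := fun h => hL0 (HahnSeries.coeff_order_eq_zero.1 h)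
  have hgn : g.coeff g.order ≠ 0 := fun h => hg (HahnSeries.coeff_order_eq_zero.1 h)
  have hord : -1 ≤ L.order := by
    by_contra hcon
    push Not at hcon
    have h2 : g.coeff (L.order + g.order + 1) = 0 :=
      HahnSeries.coeff_eq_zero_of_lt_order (by omega)
    rw [h2, mul_zero, neg_zero] at h1
    exact mul_ne_zero hLn hgn h1.symm
  refine ⟨fun n hn => HahnSeries.coeff_eq_zero_of_lt_order (by omega), ?_⟩
  rcases lt_or_eq_of_le hord with h | h
  · exact ⟨0, by rw [HahnSeries.coeff_eq_zero_of_lt_order h]; simp⟩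
  · rw [← h, show (-1 : ℤ) + g.order + 1 = g.order by ring] at h1
    refine ⟨-g.order, ?_⟩
    have h3 : (L.coeff (-1) + (g.order : k)) * g.coeff g.order = 0 := by
      rw [add_mul, ← h1]
      ring
    have h4 := (mul_eq_zero.1 h3).resolve_right hgn
    push_cast
    linear_combination h4

end laurent

end ResP39

open ResP39 in
theorem resP_39 : ResPStmt := by
  intro k _ p _ hp hp2 a b hb c
  have := charP_laurent (k := k) p
  obtain ⟨d, hd⟩ := exists_d (k := k)
  obtain ⟨v, hv⟩ : ∃ v : LaurentSeries k, v = tau c (Polynomial.X - Polynomial.C c) := ⟨_, rfl⟩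
  have hdv : d v = 1 := by
    rw [hv, d_tau hd]
    have : Polynomial.derivative (Polynomial.X - Polynomial.C c) = Polynomial.C (1 : k) := by
      simp
    rw [this, tau_C, map_one]
  have hb0 : tau c b ≠ 0 := fun h => hb (tau_injective c b h)
  obtain ⟨δ, hδ⟩ : ∃ δ : DerZ (LaurentSeries k), δ = tau c b • d :=
    ⟨_, rfl⟩
  have hδx : ∀ x, δ x = tau c b * d x := fun x => by rw [hδ]; rfl
  have hδv : δ v = tau c b := by rw [hδx, hdv, mul_one]
  obtain ⟨f, hf⟩ : ∃ f : LaurentSeries k, f = (⇑δ)^[p - 1] (tau c b) / tau c b := ⟨_, rfl⟩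
  have hpos := hp.out.pos
  have hδp : ∀ h, (⇑δ)^[p] h = f * δ h := by
    intro h
    have h1 := hoch p d v (tau c b) hdv (d_p p hd) h
    rw [← hδ] at h1
    have h2 : (⇑δ)^[p] v = (⇑δ)^[p - 1] (tau c b) := by
      conv_lhs => rw [show p = (p - 1) + 1 by omega, Function.iterate_succ_apply, hδv]
    rw [h1, h2, hf, hδx]
    field_simp
  have hlau : lau c a b = tau c a / tau c b := rfl
  have hδnab : ∀ m : ℕ, (fun x => (tau c b • d) x + HahnSeries.C 0 * tau c b * x)^[m] (tau c b) =
      (⇑δ)^[m] (tau c b) := by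
    intro m
    have : (fun x => (tau c b • d) x + HahnSeries.C (0 : k) * tau c b * x) = ⇑δ := by
      funext x
      rw [map_zero, zero_mul, zero_mul, add_zero, hδ]
    rw [this]
  have hfb : f * tau c b = (⇑δ)^[p - 1] (tau c b) := by
    rw [hf, div_mul_cancel₀ _ hb0]
  obtain ⟨ex1, ex2⟩ := exact_39 (LaurentSeries k) p hp2 δ v f (by rw [hδv]; exact hb0) hδp
    (tau c a)
  refine ⟨fun h => ?_, fun h => ?_⟩
  · have h1 := congrArg (tau c) h
    rw [tau_mul, tau_mul, tau_nab hd, tau_nab hd] at h1
    have e1 : (fun x => (tau c b • d) x + HahnSeries.C (0 : k) * tau c a * x) = ⇑δ := by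
      funext x
      rw [map_zero, zero_mul, zero_mul, add_zero, hδ]
    have e2 : (fun x => (tau c b • d) x + HahnSeries.C (0 : k) * tau c 0 * x) = ⇑δ := by
      funext x
      rw [map_zero, zero_mul, zero_mul, add_zero, hδ]
    rw [e1, e2, ← hfb] at h1
    have h2 : (⇑δ)^[p - 1] (tau c a) = f * tau c a := by
      refine mul_right_cancel₀ hb0 ?_
      rw [h1]
      ring
    obtain ⟨g, hg⟩ := ex1 h2
    have h3 : lau c a b = d g := by
      rw [hlau, ← hg, hδx, mul_div_cancel_left₀ _ hb0]
    rw [h3, hd]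
    simp
  · have h1 := congrArg (tau c) h
    rw [tau_mul, tau_mul, tau_nab hd, tau_nab hd] at h1
    have e1 : (fun x => (tau c b • d) x + HahnSeries.C (1 : k) * tau c a * x) =
        fun g => δ g + tau c a * g := by
      funext x
      rw [map_one, one_mul, hδ]
    have e2 : (fun x => (tau c b • d) x + HahnSeries.C (0 : k) * tau c 0 * x) = ⇑δ := by
      funext x
      rw [map_zero, zero_mul, zero_mul, add_zero, hδ]
    rw [e1, e2, ← hfb] at h1
    have h2 : (fun g => δ g + tau c a * g)^[p - 1] (tau c a) = f * tau c a := by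
      refine mul_right_cancel₀ hb0 ?_
      rw [h1]
      ring
    obtain ⟨g, hg0, hg⟩ := ex2 h2
    have h3 : lau c a b * g = -(d g) := by
      rw [hδx] at hg
      rw [hlau, div_mul_eq_mul_div, div_eq_iff hb0]
      linear_combination hg
    obtain ⟨h4, z, hz⟩ := logder hd hg0 h3
    refine ⟨h4, ?_⟩
    rw [hz]
    have h5 : ((z : k)) ^ p = (z : k) := by
      have := map_intCast (frobenius k p) z
      rwa [frobenius_def] at this
    exact h5

end Pool.Agent.Lib.MP_1e09a3_nt.FO
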