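import Pool.Agent.Lib.MP_1e09a3_nt.FO.Stmts73

/-!
FO6: a matrix with a bad linear part is not `p`-closed at all points of positive characteristic.
-/

set_option autoImplicit false

namespace Pool.Agent.Lib.MP_1e09a3_nt.FO

open FE

namespace Sp97

/-- two vectors with vanishing minors are proportional -/
theorem prop_of_minors {C : Type} [Field C] {N : ℕ} {w v : Fin N → C} (hw : w ≠ 0)
    (h : ∀ i j, w i * v j - w j * v i = 0) : ∃ c : C, v = c • w := by
  obtain ⟨i, hi⟩ := Function.ne_iff.1 hw
  rw [Pi.zero_apply] at hi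
  refine ⟨v i / w i, ?_⟩
  funext j
  have h1 := h i j
  rw [Pi.smul_apply, smul_eq_mul]
  field_simp
  linear_combination h1

theorem exists_minor {C : Type} [Field C] {N : ℕ} {w v : Fin N → C} (hw : w ≠ 0)
    (h : ¬ ∃ c : C, v = c • w) : ∃ i j, w i * v j - w j * v i ≠ 0 := by
  by_contra hh
  push Not at hh
  exact h (prop_of_minors hw hh)

/-- the consequence of `p`-closedness for vectors over the ring -/
theorem transfer {C : Type} [Field C] {N : ℕ} {T' : Set C}
    {J' : Matrix (Fin N) (Fin N) (Zg T')}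
    (H : ∀ (p : ℕ) (k : Type) [Field k] [CharP k p] [Fact p.Prime] (π : Zg T' →+* k)
        (w : Fin N → k) (i j : Fin N),
        (J'.map π ^ p).mulVec w i * (J'.map π).mulVec w j =
          (J'.map π ^ p).mulVec w j * (J'.map π).mulVec w i)
    (p : ℕ) (k : Type) [Field k] [CharP k p] [Fact p.Prime] (π : Zg T' →+* k)
    (x : Fin N → Zg T') (i j : Fin N) :
    π ((J' ^ p).mulVec x i * J'.mulVec x j - (J' ^ p).mulVec x j * J'.mulVec x i) = 0 := by
  have h1 := H p k π (fun i => π (x i)) i j
  have h2 : J'.map π ^ p = (J' ^ p).map π := by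
    have := map_pow π.mapMatrix J' p
    simpa only [RingHom.mapMatrix_apply] using this.symm
  have h3 : ∀ (M : Matrix (Fin N) (Fin N) (Zg T')) (i : Fin N),
      (M.map π).mulVec (fun i => π (x i)) i = π (M.mulVec x i) := by
    intro M i
    exact (RingHom.map_mulVec π M x i).symm
  rw [h2, h3, h3, h3, h3] at h1
  rw [map_sub, map_mul, map_mul, h1, sub_self]

/-- lift of a vector to the ring -/
theorem lift_mulVec {C : Type} [Field C] {N : ℕ} {T' : Set C}
    {J : Matrix (Fin N) (Fin N) C} {J' : Matrix (Fin N) (Fin N) (Zg T')}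
    (hJ : J'.map (Zg T').subtype = J) (x : Fin N → Zg T') (i : Fin N) :
    ((J'.mulVec x i : Zg T') : C) = J.mulVec (fun i => (x i : C)) i := by
  have := RingHom.map_mulVec (Zg T').subtype J' x i
  rw [hJ] at this
  exact this

theorem pow_eigen {R : Type} [CommRing R] {N : ℕ} {J : Matrix (Fin N) (Fin N) R} {l : R}
    {w : Fin N → R} (h : J.mulVec w = l • w) (n : ℕ) : (J ^ n).mulVec w = l ^ n • w := by
  induction n with
  | zero => simp
  | succ n ih =>
    rw [pow_succ, ← Matrix.mulVec_mulVec, h, Matrix.mulVec_smul, ih, smul_smul, pow_succ, mul_comm]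

theorem pow_block {R : Type} [CommRing R] {N : ℕ} {J : Matrix (Fin N) (Fin N) R} {l : R}
    {w v : Fin N → R} (h : J.mulVec w = l • w) (h2 : J.mulVec v = l • v + w) (n : ℕ) :
    (J ^ (n + 1)).mulVec v = l ^ (n + 1) • v + ((n + 1 : ℕ) * l ^ n : R) • w := by
  induction n with
  | zero => simpa using h2
  | succ n ih =>
    rw [pow_succ, ← Matrix.mulVec_mulVec, h2, Matrix.mulVec_add, Matrix.mulVec_smul, ih,
      pow_eigen h]
    funext i
    simp only [Pi.add_apply, Pi.smul_apply, smul_eq_mul]
    push_cast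
    ring

end Sp97

open Sp97 in
theorem spectral_97 (hR : RatStmt) (hPi : PiStmt) : SpectralStmt := by
  intro C _ _ _ N J hB
  obtain ⟨l, w, hl, hw, hJw, hcase⟩ := hB
  rcases hcase with ⟨μ, v, hv, hJv, hμ⟩ | ⟨v, hJv⟩ | ⟨v, v', hv, hJv, hJv'⟩
  · -- two eigenvalues
    have hind : ¬ ∃ c : C, v = c • w := by
      rintro ⟨c, rfl⟩
      have h1 : l • (c • w) = μ • (c • w) := by
        rw [← hJv, Matrix.mulVec_smul, hJw, smul_comm]
      have h2 : (l - μ) • (c • w) = 0 := by rw [sub_smul, h1, sub_self]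
      rcases smul_eq_zero.1 h2 with h3 | h3
      · have := hμ 1
        apply this
        rw [Rat.cast_one, one_mul]
        exact (sub_eq_zero.1 h3).symm
      · exact hv h3
    obtain ⟨a, b, hab⟩ := exists_minor hw hind
    refine ⟨{l, μ, l⁻¹, (w a * v b - w b * v a)⁻¹} ∪ (Set.range w ∪ Set.range v), ?_, ?_⟩
    · exact (Set.toFinite _).union ((Set.finite_range w).union (Set.finite_range v))
    intro T' hT' hTT J' hJ' H
    have ml : l ∈ Zg T' := hTT (Or.inl (by simp))
    have mμ : μ ∈ Zg T' := hTT (Or.inl (by simp))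
    have mli : l⁻¹ ∈ Zg T' := hTT (Or.inl (by simp))
    have md : (w a * v b - w b * v a)⁻¹ ∈ Zg T' := hTT (Or.inl (by simp))
    have mw : ∀ i, w i ∈ Zg T' := fun i => hTT (Or.inr (Or.inl ⟨i, rfl⟩))
    have mv : ∀ i, v i ∈ Zg T' := fun i => hTT (Or.inr (Or.inr ⟨i, rfl⟩))
    set l' : Zg T' := ⟨l, ml⟩ with hl'
    set μ' : Zg T' := ⟨μ, mμ⟩ with hμ'
    set w' : Fin N → Zg T' := fun i => ⟨w i, mw i⟩ with hw'
    set v' : Fin N → Zg T' := fun i => ⟨v i, mv i⟩ with hv'
    have e1 : J'.mulVec w' = l' • w' := by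
      funext i
      apply Subtype.ext
      rw [lift_mulVec hJ']
      exact congrFun hJw i
    have e2 : J'.mulVec v' = μ' • v' := by
      funext i
      apply Subtype.ext
      rw [lift_mulVec hJ']
      exact congrFun hJv i
    have hrat : ∃ q : ℚ, (q : C) = ((⟨μ * l⁻¹, mul_mem mμ mli⟩ : Zg T') : C) := by
      refine hR C T' hT' ⟨μ * l⁻¹, mul_mem mμ mli⟩ ?_
      intro p k _ _ _ π
      have h1 := transfer H p k π (w' + v') a b
      have h2 : (J' ^ p).mulVec (w' + v') = l' ^ p • w' + μ' ^ p • v' := by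
        rw [Matrix.mulVec_add, pow_eigen e1, pow_eigen e2]
      have h3 : J'.mulVec (w' + v') = l' • w' + μ' • v' := by
        rw [Matrix.mulVec_add, e1, e2]
      rw [h2, h3] at h1
      simp only [Pi.add_apply, Pi.smul_apply, smul_eq_mul] at h1
      have h4 : (l' ^ p * w' a + μ' ^ p * v' a) * (l' * w' b + μ' * v' b) -
          (l' ^ p * w' b + μ' ^ p * v' b) * (l' * w' a + μ' * v' a) =
          (l' ^ p * μ' - μ' ^ p * l') * (w' a * v' b - w' b * v' a) := by ring
      rw [h4, map_mul] at h1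
      have h5 : π (w' a * v' b - w' b * v' a) ≠ 0 := by
        intro h0
        have h6 : (w' a * v' b - w' b * v' a) * (⟨(w a * v b - w b * v a)⁻¹, md⟩ : Zg T') = 1 := by
          apply Subtype.ext
          exact mul_inv_cancel₀ hab
        have h7 := congrArg π h6
        rw [map_mul, h0, zero_mul, map_one] at h7
        exact zero_ne_one h7
      have h8 : π (l' ^ p * μ' - μ' ^ p * l') = 0 := by
        rcases mul_eq_zero.1 h1 with h | h
        · exact h
        · exact absurd h h5
      set li : Zg T' := ⟨l⁻¹, mli⟩ with hli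
      have h9 : l' * li = 1 := Subtype.ext (mul_inv_cancel₀ hl)
      have h10 : (⟨μ * l⁻¹, mul_mem mμ mli⟩ : Zg T') = μ' * li := rfl
      rw [h10]
      have h11 : π l' * π li = 1 := by rw [← map_mul, h9, map_one]
      have h12 : π l' ^ p * π μ' = π μ' ^ p * π l' := by
        rw [map_sub, map_mul, map_mul, map_pow, map_pow] at h8
        exact sub_eq_zero.1 h8
      rw [map_mul, mul_pow]
      calc π μ' ^ p * π li ^ p = (π μ' ^ p * π l') * π li * π li ^ p := by
            rw [mul_assoc (π μ' ^ p), h11, mul_one]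
        _ = (π l' * π li) ^ p * (π μ' * π li) := by rw [← h12]; ring
        _ = π μ' * π li := by rw [h11, one_pow, one_mul]
    obtain ⟨q, hq⟩ := hrat
    apply hμ q
    rw [hq]
    field_simp
  · -- Jordan block with a nonzero eigenvalue
    have hind : ¬ ∃ c : C, v = c • w := by
      rintro ⟨c, rfl⟩
      have h1 : J.mulVec (c • w) = l • (c • w) := by rw [Matrix.mulVec_smul, hJw, smul_comm]
      rw [h1] at hJv
      exact hw (by simpa using hJv.symm)
    obtain ⟨a, b, hab⟩ := exists_minor hw hind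
    refine ⟨{l, l⁻¹, (w a * v b - w b * v a)⁻¹} ∪ (Set.range w ∪ Set.range v), ?_, ?_⟩
    · exact (Set.toFinite _).union ((Set.finite_range w).union (Set.finite_range v))
    intro T' hT' hTT J' hJ' H
    have ml : l ∈ Zg T' := hTT (Or.inl (by simp))
    have mli : l⁻¹ ∈ Zg T' := hTT (Or.inl (by simp))
    have md : (w a * v b - w b * v a)⁻¹ ∈ Zg T' := hTT (Or.inl (by simp))
    have mw : ∀ i, w i ∈ Zg T' := fun i => hTT (Or.inr (Or.inl ⟨i, rfl⟩))
    have mv : ∀ i, v i ∈ Zg T' := fun i => hTT (Or.inr (Or.inr ⟨i, rfl⟩))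
    set l' : Zg T' := ⟨l, ml⟩ with hl'
    set w' : Fin N → Zg T' := fun i => ⟨w i, mw i⟩ with hw'
    set v' : Fin N → Zg T' := fun i => ⟨v i, mv i⟩ with hv'
    have e1 : J'.mulVec w' = l' • w' := by
      funext i
      apply Subtype.ext
      rw [lift_mulVec hJ']
      exact congrFun hJw i
    have e2 : J'.mulVec v' = l' • v' + w' := by
      funext i
      apply Subtype.ext
      rw [lift_mulVec hJ']
      exact congrFun hJv i
    obtain ⟨p, k, _, _, _, ⟨π⟩⟩ := hPi C T' hT'
    have hp : p.Prime := Fact.out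
    have h1 := transfer H p k π v' a b
    obtain ⟨n, rfl⟩ := Nat.exists_eq_succ_of_ne_zero hp.ne_zero
    have h2 := pow_block e1 e2 n
    rw [Nat.succ_eq_add_one] at h1
    rw [h2, e2] at h1
    simp only [Pi.add_apply, Pi.smul_apply, smul_eq_mul] at h1
    have hc : ((n + 1 : ℕ) : k) = 0 := CharP.cast_eq_zero k (n + 1)
    have hc' : π ((n + 1 : ℕ) : Zg T') = 0 := by rw [map_natCast, hc]
    simp only [map_sub, map_mul, map_add, map_pow, hc', zero_mul, add_zero] at h1
    have h5 : π (w' a * v' b - w' b * v' a) ≠ 0 := by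
      intro h0
      have h6 : (w' a * v' b - w' b * v' a) * (⟨(w a * v b - w b * v a)⁻¹, md⟩ : Zg T') = 1 := by
        apply Subtype.ext
        exact mul_inv_cancel₀ hab
      have h7 := congrArg π h6
      rw [map_mul, h0, zero_mul, map_one] at h7
      exact zero_ne_one h7
    have h9 : l' * (⟨l⁻¹, mli⟩ : Zg T') = 1 := Subtype.ext (mul_inv_cancel₀ hl)
    have h10 : π l' ≠ 0 := by
      intro h0
      have h7 := congrArg π h9
      rw [map_mul, h0, zero_mul, map_one] at h7
      exact zero_ne_one h7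
    apply h5
    have h11 : π l' ^ (n + 1) * π (w' a * v' b - w' b * v' a) = 0 := by
      rw [map_sub, map_mul, map_mul]
      linear_combination (-1 : k) * h1
    rcases mul_eq_zero.1 h11 with h | h
    · exact absurd h (pow_ne_zero _ h10)
    · exact h
  · -- a nonzero eigenvalue and a nilpotent block
    have hind : ¬ ∃ c : C, v = c • w := by
      rintro ⟨c, rfl⟩
      rw [Matrix.mulVec_smul, hJw, smul_smul] at hJv
      rcases smul_eq_zero.1 hJv with h3 | h3
      · rcases mul_eq_zero.1 h3 with h4 | h4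
        · exact hv (by rw [h4, zero_smul])
        · exact hl h4
      · exact hw h3
    obtain ⟨a, b, hab⟩ := exists_minor hw hind
    refine ⟨{l, l⁻¹, (w a * v b - w b * v a)⁻¹} ∪ ((Set.range w ∪ Set.range v) ∪ Set.range v'),
      ?_, ?_⟩
    · exact (Set.toFinite _).union (((Set.finite_range w).union (Set.finite_range v)).union
        (Set.finite_range v'))
    intro T' hT' hTT J' hJ' H
    have ml : l ∈ Zg T' := hTT (Or.inl (by simp))
    have mli : l⁻¹ ∈ Zg T' := hTT (Or.inl (by simp))
    have md : (w a * v b - w b * v a)⁻¹ ∈ Zg T' := hTT (Or.inl (by simp))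
    have mw : ∀ i, w i ∈ Zg T' := fun i => hTT (Or.inr (Or.inl (Or.inl ⟨i, rfl⟩)))
    have mv : ∀ i, v i ∈ Zg T' := fun i => hTT (Or.inr (Or.inl (Or.inr ⟨i, rfl⟩)))
    have mu : ∀ i, v' i ∈ Zg T' := fun i => hTT (Or.inr (Or.inr ⟨i, rfl⟩))
    set l' : Zg T' := ⟨l, ml⟩ with hl'
    set w' : Fin N → Zg T' := fun i => ⟨w i, mw i⟩ with hw'
    set x : Fin N → Zg T' := fun i => ⟨v i, mv i⟩ with hx
    set y : Fin N → Zg T' := fun i => ⟨v' i, mu i⟩ with hy
    have e1 : J'.mulVec w' = l' • w' := by
      funext i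
      apply Subtype.ext
      rw [lift_mulVec hJ']
      exact congrFun hJw i
    have e2 : J'.mulVec x = 0 := by
      funext i
      apply Subtype.ext
      rw [lift_mulVec hJ']
      exact congrFun hJv i
    have e3 : J'.mulVec y = x := by
      funext i
      apply Subtype.ext
      rw [lift_mulVec hJ']
      exact congrFun hJv' i
    obtain ⟨p, k, _, _, _, ⟨π⟩⟩ := hPi C T' hT'
    have hp : p.Prime := Fact.out
    have h1 := transfer H p k π (w' + y) a b
    have h2 : (J' ^ p).mulVec (w' + y) = l' ^ p • w' := by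
      rw [Matrix.mulVec_add, pow_eigen e1]
      obtain ⟨n, hn⟩ : ∃ n, p = n + 2 := ⟨p - 2, by have := hp.two_le; omega⟩
      have : (J' ^ p).mulVec y = 0 := by
        rw [hn, pow_succ, ← Matrix.mulVec_mulVec, e3, pow_succ, ← Matrix.mulVec_mulVec, e2,
          Matrix.mulVec_zero]
      rw [this, add_zero]
    have h3 : J'.mulVec (w' + y) = l' • w' + x := by rw [Matrix.mulVec_add, e1, e3]
    rw [h2, h3] at h1
    simp only [Pi.add_apply, Pi.smul_apply, smul_eq_mul] at h1
    have h4 : l' ^ p * w' a * (l' * w' b + x b) - l' ^ p * w' b * (l' * w' a + x a) =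
        l' ^ p * (w' a * x b - w' b * x a) := by ring
    rw [h4, map_mul, map_pow] at h1
    have h5 : π (w' a * x b - w' b * x a) ≠ 0 := by
      intro h0
      have h6 : (w' a * x b - w' b * x a) * (⟨(w a * v b - w b * v a)⁻¹, md⟩ : Zg T') = 1 := by
        apply Subtype.ext
        exact mul_inv_cancel₀ hab
      have h7 := congrArg π h6
      rw [map_mul, h0, zero_mul, map_one] at h7
      exact zero_ne_one h7
    have h9 : l' * (⟨l⁻¹, mli⟩ : Zg T') = 1 := Subtype.ext (mul_inv_cancel₀ hl)
    have h10 : π l' ≠ 0 := by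
      intro h0
      have h7 := congrArg π h9
      rw [map_mul, h0, zero_mul, map_one] at h7
      exact zero_ne_one h7
    rcases mul_eq_zero.1 h1 with h | h
    · exact pow_ne_zero _ h10 h
    · exact h5 h

end Pool.Agent.Lib.MP_1e09a3_nt.FO
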