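import Pool.Agent.Lib.MP_1e09a3_nt.FO.Front73
import Pool.Agent.Lib.MP_1e09a3_nt.FO.Hoch17
import Pool.Agent.Lib.MP_1e09a3_nt.FO.Descend21
import Pool.Agent.Lib.MP_1e09a3_nt.FO.Rat22
import Pool.Agent.Lib.MP_1e09a3_nt.FO.Local97
import Pool.Agent.Lib.MP_1e09a3_nt.FO.Spectral97
import Pool.Agent.Lib.MP_1e09a3_nt.FO.Line42
import Pool.Agent.Lib.MP_1e09a3_nt.FO.ResP39
import Pool.Agent.Lib.MP_1e09a3_nt.FO.LauMap70
import Pool.Agent.Lib.MP_1e09a3_nt.FO.Exch17
import Pool.Agent.Lib.MP_1e09a3_nt.FO.Power42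
import Pool.Agent.Lib.MP_1e09a3_nt.FO.Monic26
import Pool.Agent.Lib.MP_1e09a3_nt.FE.Pi16

/-!
First order equations: final form.
-/

open MvPolynomial

namespace Pool.Agent.Lib.MP_1e09a3_nt.FO

open FE CF

theorem pclosed_all : PClosedStmt := pclosed_73 hoch_17 descend_21

theorem spectral_all : SpectralStmt := spectral_97 rat_22 FE.pi_16

theorem chart_all : ChartStmt :=
  chart_73 pclosed_all local_97 spectral_all lineStmt_42 resP_39 lauMap_70 rat_22 FE.pi_16 exch_17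

theorem monic_all : MonicStmt := monic_26 chart_all powerStmt_42

/-- equations of order `k + 1` -/
theorem order_final (U : Set ℂ) (y : ℂ → ℂ) (hU : IsOpen U) (hconn : IsPreconnected U)
    (hy : IsIntegralOn U y) (V : Set ℂ) (hV : IsOpen V) (hne : V.Nonempty) (hVU : V ⊆ U) (k : ℕ)
    (A B : MvPolynomial (Fin (k + 2)) ℂ)
    (hode : ∀ z ∈ V, eval (fun j => jet k y j z) A * iteratedDeriv (k + 1) y z =
      eval (fun j => jet k y j z) B) (hbad : BadPoint (odeField A B)) :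
    ∃ Q : MvPolynomial (Fin (k + 2)) ℂ, Q ≠ 0 ∧ ∀ z ∈ U, eval (fun j => jet k y j z) Q = 0 :=
  order_algebraic pclosed_all local_97 spectral_all U y hU hconn hy V hV hne hVU k A B hode hbad

/-- equations of order one, in algebraic coordinates -/
theorem chart_final (U : Set ℂ) (y : ℂ → ℂ) (hU : IsOpen U) (hconn : IsPreconnected U)
    (hy : IsIntegralOn U y) (V : Set ℂ) (hV : IsOpen V) (hVc : IsPreconnected V) (hVU : V ⊆ U)
    (u v : ℂ → ℂ) (hu : DifferentiableOn ℂ u V) (hv : DifferentiableOn ℂ v V)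
    (hz : IsAlgebraicIn V ![u, v] fun z => z) (hyalg : IsAlgebraicIn V ![u, v] y)
    (A : Fin 2 → MvPolynomial (Fin 2) ℂ)
    (hrel : ∀ z ∈ V, eval ![u z, v z] (A 0) * deriv v z = eval ![u z, v z] (A 1) * deriv u z)
    (hbad : BadPoint A ∨ BadLine A) : IsAlgebraicOn U y :=
  chart_algebraic chart_all U y hU hconn hy V hV hVc hVU u v hu hv hz hyalg A hrel hbad

/-- the equations `y' = P(z, y)` -/
theorem monic_final (U : Set ℂ) (y : ℂ → ℂ) (hU : IsOpen U) (hconn : IsPreconnected U)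
    (hy : IsIntegralOn U y) (V : Set ℂ) (hV : IsOpen V) (hne : V.Nonempty) (hVU : V ⊆ U)
    (P : Polynomial (Polynomial ℂ)) (hdeg : 2 ≤ P.natDegree)
    (hlead : ∃ c : ℂ, c ≠ 0 ∧ P.leadingCoeff = Polynomial.C c)
    (hode : ∀ z ∈ V, deriv y z = (P.map (Polynomial.evalRingHom z)).eval (y z)) :
    IsAlgebraicOn U y :=
  monic_algebraic monic_all U y hU hconn hy V hV hne hVU P hdeg hlead hode

end Pool.Agent.Lib.MP_1e09a3_nt.FO
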