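import Pool.Agent.Lib.MP_1e09a3_nt.FO.Chart73
import Pool.Agent.Lib.MP_1e09a3_nt.CF.Front73
import Pool.Agent.Lib.MP_1e09a3_nt.Final

/-!
First order equations: front end.
-/

set_option linter.style.haveILetI false

open scoped PowerSeries
open Filter Topology MvPolynomial

namespace Pool.Agent.Lib.MP_1e09a3_nt.FO

open FE CF

/-- the functions `z, y, y', …, y^(k)` -/
noncomputable def jet (k : ℕ) (y : ℂ → ℂ) : Fin (k + 2) → ℂ → ℂ :=
  Fin.cons (fun z => z) fun i : Fin (k + 1) => iteratedDeriv i y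

/-- The vector field of the equation `A y^(k+1) = B`: its components are
`A, A Y_1, …, A Y_k, B`; the variables `X_0, X_1, …, X_(k+1)` stand for `z, y, …, y^(k)`. -/
noncomputable def odeField {k : ℕ} (A B : MvPolynomial (Fin (k + 2)) ℂ) :
    Fin (k + 2) → MvPolynomial (Fin (k + 2)) ℂ :=
  Fin.snoc (α := fun _ => MvPolynomial (Fin (k + 2)) ℂ)
    (Fin.cons A fun i : Fin k => A * X i.succ.succ) B

section transfer

variable {Ω : Type} [Field Ω] [Algebra ℂ Ω] (ι : ℂ⟦X⟧ →ₐ[ℂ] Ω)

theorem aeval_taylor {N : ℕ} {f : Fin N → ℂ → ℂ} {a : ℂ} (hf : ∀ i, AnalyticAt ℂ (f i) a)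
    (p : MvPolynomial (Fin N) ℂ) :
    aeval (fun i => ι (taylor a (f i))) p = ι (taylor a fun s => eval (fun j => f j s) p) := by
  have h1 := taylor_aeval hf p
  simp only [← eval_eq_aeval'] at h1
  rw [h1]
  exact (MvPolynomial.comp_aeval_apply (fun i => taylor a (f i)) ι p).symm

theorem alg_transfer (hι : Function.Injective ι) {V : Set ℂ} (hV : IsOpen V)
    (hVc : IsPreconnected V) {a : ℂ} (ha : a ∈ V) {N : ℕ} {f : Fin N → ℂ → ℂ}
    (hf : ∀ i, AnalyticOnNhd ℂ (f i) V) {g : ℂ → ℂ} (hg : AnalyticOnNhd ℂ g V)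
    (h : IsAlgebraicIn V f g) :
    IsAlgebraic (IntermediateField.adjoin ℂ (Set.range fun i => ι (taylor a (f i))))
      (ι (taylor a g)) := by
  classical
  obtain ⟨H, ⟨s₀, hs₀, hHs⟩, hH⟩ := h
  set L := IntermediateField.adjoin ℂ (Set.range fun i => ι (taylor a (f i))) with hL
  have hmem : ∀ p : MvPolynomial (Fin N) ℂ, aeval (fun i => ι (taylor a (f i))) p ∈ L := by
    intro p
    have h1 : aeval (fun i => ι (taylor a (f i))) p ∈
        Algebra.adjoin ℂ (Set.range fun i => ι (taylor a (f i))) := by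
      rw [Algebra.adjoin_range_eq_range_aeval]
      exact ⟨p, rfl⟩
    exact IntermediateField.algebra_adjoin_le_adjoin ℂ _ h1
  have hfa : ∀ i, AnalyticAt ℂ (f i) a := fun i => hf i a ha
  have hpow : ∀ k : ℕ, taylor a (fun s => g s ^ k) = (taylor a g) ^ k := by
    intro k
    induction k with
    | zero =>
      simp only [pow_zero]
      rw [taylor_const, map_one]
    | succ k ih =>
      simp only [pow_succ]
      rw [taylor_mul ((hg a ha).fun_pow k) (hg a ha), ih]
  refine ⟨∑ k ∈ H.support, Polynomial.monomial k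
    (⟨aeval (fun i => ι (taylor a (f i))) (H.coeff k), hmem _⟩ : L), ?_, ?_⟩
  · intro h0
    obtain ⟨k, hk⟩ : ∃ k, eval (fun j => f j s₀) (H.coeff k) ≠ 0 := by
      by_contra hcon
      push Not at hcon
      apply hHs
      ext k
      rw [Polynomial.coeff_map, hcon k, Polynomial.coeff_zero]
    have hks : k ∈ H.support := by
      rw [Polynomial.mem_support_iff]
      intro h1
      rw [h1, map_zero] at hk
      exact hk rfl
    have h1 := congrArg (fun p => Polynomial.coeff p k) h0
    simp only [Polynomial.finsetSum_coeff, Polynomial.coeff_monomial,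
      Polynomial.coeff_zero] at h1
    rw [Finset.sum_eq_single k (fun b _ hb => if_neg hb) (fun h2 => absurd hks h2),
      if_pos rfl] at h1
    have h2 : aeval (fun i => ι (taylor a (f i))) (H.coeff k) = 0 := congrArg Subtype.val h1
    rw [aeval_taylor ι hfa] at h2
    exact (map_ne_zero_iff ι hι).2
      (taylor_ne_zero hVc ha (analyticOnNhd_eval hf _) ⟨s₀, hs₀, hk⟩) h2
  · rw [map_sum]
    have h1 : ∀ k, Polynomial.aeval (ι (taylor a g)) (Polynomial.monomial k
        (⟨aeval (fun i => ι (taylor a (f i))) (H.coeff k), hmem _⟩ : L)) =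
        ι (taylor a fun s => eval (fun j => f j s) (H.coeff k) * g s ^ k) := by
      intro k
      rw [Polynomial.aeval_monomial,
        taylor_mul (analyticOnNhd_eval hf _ a ha) ((hg a ha).fun_pow k), map_mul, hpow, map_pow,
        ← aeval_taylor ι hfa]
      rfl
    have h2 : ∀ S : Finset ℕ, ∑ k ∈ S, ι (taylor a fun s =>
        eval (fun j => f j s) (H.coeff k) * g s ^ k) =
        ι (taylor a fun s => ∑ k ∈ S, eval (fun j => f j s) (H.coeff k) * g s ^ k) := by
      intro S
      induction S using Finset.induction_on with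
      | empty => simp only [Finset.sum_empty]; rw [taylor_const, map_zero, map_zero]
      | insert k S hk ih =>
        simp only [Finset.sum_insert hk]
        rw [ih, ← map_add, ← taylor_add]
        · exact (analyticOnNhd_eval hf _ a ha).mul ((hg a ha).fun_pow k)
        · exact Finset.analyticAt_fun_sum _ fun k _ =>
            (analyticOnNhd_eval hf _ a ha).mul ((hg a ha).fun_pow k)
    simp only [h1]
    rw [h2, taylor_eq_zero_of_eventually, map_zero]
    filter_upwards [hV.mem_nhds ha] with s hs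
    have h3 := hH s hs
    rw [Polynomial.eval_map, Polynomial.eval₂_eq_sum, Polynomial.sum_def] at h3
    exact h3

theorem dep_transfer (hι : Function.Injective ι) {U : Set ℂ} (hU : IsPreconnected U) {a : ℂ}
    (ha : a ∈ U) {N : ℕ} {f : Fin N → ℂ → ℂ} (hf : ∀ i, AnalyticOnNhd ℂ (f i) U)
    (h : ¬ AlgebraicIndependent ℂ fun i => ι (taylor a (f i))) :
    ∃ Q : MvPolynomial (Fin N) ℂ, Q ≠ 0 ∧ ∀ z ∈ U, eval (fun i => f i z) Q = 0 := by
  rw [algebraicIndependent_iff] at h
  push Not at h
  obtain ⟨Q, hQ0, hQne⟩ := h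
  refine ⟨Q, hQne, ?_⟩
  have hQan : AnalyticOnNhd ℂ (fun z => eval (fun i => f i z) Q) U := analyticOnNhd_eval hf Q
  have hloc : (fun w => eval (fun i => f i w) Q) =ᶠ[𝓝 a] 0 := by
    refine eventually_zero_of_taylor (hQan a ha) ?_
    apply hι
    rw [map_zero, ← hQ0, aeval_taylor ι (fun i => hf i a ha)]
  exact fun z hz => hQan.eqOn_zero_of_preconnected_of_eventuallyEq_zero hU ha hloc hz

theorem algebraicOn_transfer (hι : Function.Injective ι) {U : Set ℂ} (hU : IsPreconnected U)
    {a : ℂ} (ha : a ∈ U) {y : ℂ → ℂ} (hy : AnalyticOnNhd ℂ y U)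
    (h : ¬ AlgebraicIndependent ℂ ![ι (taylor a fun w => w), ι (taylor a y)]) :
    IsAlgebraicOn U y := by
  have h1 : (fun i => ι (taylor a ((![fun z => z, y] : Fin 2 → ℂ → ℂ) i))) =
      ![ι (taylor a fun w => w), ι (taylor a y)] := by
    funext i
    fin_cases i <;> rfl
  obtain ⟨Q, hQ, hQz⟩ := dep_transfer ι hι hU ha (f := ![fun z => z, y]) (by
    intro i
    fin_cases i
    · exact fun z _ => analyticAt_id
    · exact hy) (by rw [h1]; exact h)
  refine ⟨Q, hQ, fun z hz => ?_⟩
  have h2 := hQz z hz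
  have h3 : (fun i => (![fun z => z, y] : Fin 2 → ℂ → ℂ) i z) = ![z, y z] := by
    funext i
    fin_cases i <;> rfl
  rwa [h3] at h2

end transfer

/-- The theorem in a chart. -/
theorem chart_algebraic (hchart : ChartStmt) (U : Set ℂ) (y : ℂ → ℂ) (hU : IsOpen U)
    (hconn : IsPreconnected U) (hy : IsIntegralOn U y) (V : Set ℂ) (hV : IsOpen V)
    (hVc : IsPreconnected V) (hVU : V ⊆ U) (u v : ℂ → ℂ) (hu : DifferentiableOn ℂ u V)
    (hv : DifferentiableOn ℂ v V) (hz : IsAlgebraicIn V ![u, v] fun z => z)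
    (hyalg : IsAlgebraicIn V ![u, v] y) (A : Fin 2 → MvPolynomial (Fin 2) ℂ)
    (hrel : ∀ z ∈ V, eval ![u z, v z] (A 0) * deriv v z = eval ![u z, v z] (A 1) * deriv u z)
    (hbad : BadPoint A ∨ BadLine A) : IsAlgebraicOn U y := by
  obtain ⟨D, hD⟩ := exists_psf_der
  set ι : ℂ⟦X⟧ →ₐ[ℂ] PSF := IsScalarTower.toAlgHom ℂ ℂ⟦X⟧ PSF with hι
  have hιD : ∀ g, D (ι g) = ι (PowerSeries.derivative ℂ g) := hD
  have hinj : Function.Injective ι := psf_injective
  have hz' := hz
  obtain ⟨-, ⟨a, haV, -⟩, -⟩ := hz'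
  have haU := hVU haV
  have hyan : AnalyticOnNhd ℂ y U := differentiableOn_of_isIntegralOn hU hy
  have huan : AnalyticOnNhd ℂ u V := hu.analyticOnNhd hV
  have hvan : AnalyticOnNhd ℂ v V := hv.analyticOnNhd hV
  have hf : ∀ i, AnalyticOnNhd ℂ ((![u, v] : Fin 2 → ℂ → ℂ) i) V := by
    intro i
    fin_cases i
    · exact huan
    · exact hvan
  have hrange : (Set.range fun i => ι (taylor a ((![u, v] : Fin 2 → ℂ → ℂ) i))) =
      {ι (taylor a u), ι (taylor a v)} := by
    ext x
    constructor
    · rintro ⟨i, rfl⟩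
      fin_cases i
      · exact Or.inl rfl
      · exact Or.inr rfl
    · rintro (rfl | hx)
      · exact ⟨0, rfl⟩
      · rw [Set.mem_singleton_iff] at hx
        exact ⟨1, hx.symm⟩
  have hzalg := alg_transfer ι hinj hV hVc haV hf (fun z _ => analyticAt_id) hz
  have hyalg' := alg_transfer ι hinj hV hVc haV hf (fun z hz => hyan z (hVU hz)) hyalg
  rw [hrange] at hzalg hyalg'
  refine algebraicOn_transfer ι hinj hconn haU hyan ?_
  refine hchart PSF D (const_psf hD) _ _ (ι (taylor a u)) (ι (taylor a v)) ?_ ?_ hzalg hyalg' A ?_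
    hbad
  · rw [hιD, ← taylor_deriv]
    have : deriv (fun w : ℂ => w) = fun _ => 1 := by
      funext w; exact deriv_id w
    rw [this, taylor_const, map_one, map_one]
  · exact isFlatElt_taylor (ι : ℂ⟦X⟧ →+* PSF) hιD hU haU hy
  · have h1 : (![ι (taylor a u), ι (taylor a v)] : Fin 2 → PSF) =
        fun i => ι (taylor a ((![u, v] : Fin 2 → ℂ → ℂ) i)) := by
      funext i
      fin_cases i <;> rfl
    have h2 : ∀ p : MvPolynomial (Fin 2) ℂ, aeval ![ι (taylor a u), ι (taylor a v)] p =
        ι (taylor a fun s => eval ![u s, v s] p) := by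
      intro p
      rw [h1, aeval_taylor ι (fun i => hf i a haV)]
      congr 2
      funext s
      congr 2
      funext i
      fin_cases i <;> rfl
    have h3 : ∀ p : MvPolynomial (Fin 2) ℂ, AnalyticAt ℂ (fun s => eval ![u s, v s] p) a := by
      intro p
      have h4 := analyticOnNhd_eval hf p a haV
      have h5 : (fun s => eval (fun j => (![u, v] : Fin 2 → ℂ → ℂ) j s) p) =
          fun s => eval ![u s, v s] p := by
        funext s
        congr 2
        funext i
        fin_cases i <;> rfl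
      rwa [h5] at h4
    rw [h2, h2, hιD, hιD, ← taylor_deriv, ← taylor_deriv, ← map_mul, ← map_mul,
      ← taylor_mul (h3 _) (hvan a haV).deriv, ← taylor_mul (h3 _) (huan a haV).deriv]
    congr 1
    refine taylor_congr ?_
    filter_upwards [hV.mem_nhds haV] with s hs
    exact hrel s hs

theorem analyticOnNhd_iteratedDeriv {U : Set ℂ} {y : ℂ → ℂ} (hy : AnalyticOnNhd ℂ y U) (n : ℕ) :
    AnalyticOnNhd ℂ (iteratedDeriv n y) U := by
  induction n with
  | zero => rw [iteratedDeriv_zero]; exact hy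
  | succ n ih => rw [iteratedDeriv_succ]; exact ih.deriv

/-- The theorem for equations of order `k + 1`. -/
theorem order_algebraic (hpc : PClosedStmt) (hloc : LocalStmt) (hsp : SpectralStmt) (U : Set ℂ)
    (y : ℂ → ℂ) (hU : IsOpen U) (hconn : IsPreconnected U) (hy : IsIntegralOn U y) (V : Set ℂ)
    (hV : IsOpen V) (hne : V.Nonempty) (hVU : V ⊆ U) (k : ℕ)
    (A B : MvPolynomial (Fin (k + 2)) ℂ)
    (hode : ∀ z ∈ V, eval (fun j => jet k y j z) A * iteratedDeriv (k + 1) y z =
      eval (fun j => jet k y j z) B) (hbad : BadPoint (odeField A B)) :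
    ∃ Q : MvPolynomial (Fin (k + 2)) ℂ, Q ≠ 0 ∧ ∀ z ∈ U, eval (fun j => jet k y j z) Q = 0 := by
  obtain ⟨D, hD⟩ := exists_psf_der
  set ι : ℂ⟦X⟧ →ₐ[ℂ] PSF := IsScalarTower.toAlgHom ℂ ℂ⟦X⟧ PSF with hι
  have hιD : ∀ g, D (ι g) = ι (PowerSeries.derivative ℂ g) := hD
  have hinj : Function.Injective ι := psf_injective
  obtain ⟨a, haV⟩ := hne
  have haU := hVU haV
  have hyan : AnalyticOnNhd ℂ y U := differentiableOn_of_isIntegralOn hU hy
  have hjan : ∀ i, AnalyticOnNhd ℂ (jet k y i) U := by
    intro i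
    refine Fin.cases ?_ (fun i => ?_) i
    · exact fun z _ => analyticAt_id
    · exact analyticOnNhd_iteratedDeriv hyan i
  have hja : ∀ i, AnalyticAt ℂ (jet k y i) a := fun i => hjan i a haU
  have hz1 : D (ι (taylor a (jet k y 0))) = 1 := by
    rw [hιD, ← taylor_deriv]
    have : deriv (jet k y 0) = fun _ => 1 := by
      funext w; exact deriv_id w
    rw [this, taylor_const, map_one, map_one]
  have hDj : ∀ i : Fin k, D (ι (taylor a (jet k y i.succ.castSucc))) =
      ι (taylor a (jet k y i.succ.succ)) := by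
    intro i
    rw [hιD, ← taylor_deriv]
    congr 2
    have h1 : jet k y i.succ.castSucc = iteratedDeriv i y := by
      rw [← Fin.succ_castSucc]
      rfl
    have h2 : jet k y i.succ.succ = iteratedDeriv (i + 1) y := rfl
    rw [h1, h2, iteratedDeriv_succ]
  have hDlast : D (ι (taylor a (jet k y (Fin.last (k + 1))))) =
      ι (taylor a (iteratedDeriv (k + 1) y)) := by
    rw [hιD, ← taylor_deriv, iteratedDeriv_succ]
    rfl
  -- flatness
  have hyflat : IsFlatElt D (ι (taylor a y)) :=
    isFlatElt_taylor (ι : ℂ⟦X⟧ →+* PSF) hιD hU haU hy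
  have hflat : ∀ i, IsFlatElt D (ι (taylor a (jet k y i))) := by
    intro i
    refine Fin.cases ?_ (fun i => ?_) i
    · exact isFlatElt_of_D_eq_one hz1
    · have h1 : ∀ n : ℕ, IsFlatElt D (ι (taylor a (iteratedDeriv n y))) := by
        intro n
        induction n with
        | zero => rw [iteratedDeriv_zero]; exact hyflat
        | succ n ih =>
          rw [iteratedDeriv_succ, taylor_deriv, ← hιD]
          exact D_mem_flatField ih
      exact h1 i
  -- the vector field
  have hfield : ∀ i, aeval (fun i => ι (taylor a (jet k y i))) (odeField A B i) =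
      aeval (fun i => ι (taylor a (jet k y i))) A * D (ι (taylor a (jet k y i))) := by
    intro i
    refine Fin.lastCases ?_ (fun i => ?_) i
    · rw [odeField, Fin.snoc_last, hDlast, aeval_taylor ι hja, aeval_taylor ι hja, ← map_mul,
        ← taylor_mul (analyticOnNhd_eval hjan A a haU) (analyticOnNhd_iteratedDeriv hyan (k + 1) a haU)]
      congr 1
      refine taylor_congr ?_
      filter_upwards [hV.mem_nhds haV] with s hs
      exact (hode s hs).symm
    · rw [odeField, Fin.snoc_castSucc]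
      refine Fin.cases ?_ (fun i => ?_) i
      · rw [Fin.cons_zero]
        have : (Fin.castSucc 0 : Fin (k + 2)) = 0 := rfl
        rw [this, hz1, mul_one]
      · rw [Fin.cons_succ, map_mul, aeval_X, hDj]
  refine dep_transfer ι hinj hconn haU hjan ?_
  refine main_point hpc hloc hsp PSF D (ι (taylor a (jet k y 0))) hz1 (k + 2) _ hflat
    ⟨0, by rw [hz1]; exact one_ne_zero⟩ (odeField A B) (fun i j => ?_) hbad
  rw [hfield, hfield]
  ring

/-- The theorem for the equations `y' = P(z, y)`. -/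
theorem monic_algebraic (hmonic : MonicStmt) (U : Set ℂ) (y : ℂ → ℂ) (hU : IsOpen U)
    (hconn : IsPreconnected U) (hy : IsIntegralOn U y) (V : Set ℂ) (hV : IsOpen V)
    (hne : V.Nonempty) (hVU : V ⊆ U) (P : Polynomial (Polynomial ℂ)) (hdeg : 2 ≤ P.natDegree)
    (hlead : ∃ c : ℂ, c ≠ 0 ∧ P.leadingCoeff = Polynomial.C c)
    (hode : ∀ z ∈ V, deriv y z = (P.map (Polynomial.evalRingHom z)).eval (y z)) :
    IsAlgebraicOn U y := by
  obtain ⟨D, hD⟩ := exists_psf_der
  set ι : ℂ⟦X⟧ →ₐ[ℂ] PSF := IsScalarTower.toAlgHom ℂ ℂ⟦X⟧ PSF with hι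
  have hιD : ∀ g, D (ι g) = ι (PowerSeries.derivative ℂ g) := hD
  have hinj : Function.Injective ι := psf_injective
  obtain ⟨a, haV⟩ := hne
  have haU := hVU haV
  have hyan : AnalyticOnNhd ℂ y U := differentiableOn_of_isIntegralOn hU hy
  refine algebraicOn_transfer ι hinj hconn haU hyan ?_
  refine hmonic PSF D (const_psf hD) _ _ ?_ ?_ P hdeg hlead ?_
  · rw [hιD, ← taylor_deriv]
    have : deriv (fun w : ℂ => w) = fun _ => 1 := by
      funext w; exact deriv_id w
    rw [this, taylor_const, map_one, map_one]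
  · exact isFlatElt_taylor (ι : ℂ⟦X⟧ →+* PSF) hιD hU haU hy
  · set p : MvPolynomial (Fin 2) ℂ :=
      P.eval₂ (Polynomial.aeval (X 0 : MvPolynomial (Fin 2) ℂ)).toRingHom (X 1) with hp
    have h1 : ∀ (R : Type) [CommRing R] [Algebra ℂ R] (x w : R), aeval ![x, w] p =
        Polynomial.eval₂ (Polynomial.aeval x : Polynomial ℂ →ₐ[ℂ] R).toRingHom w P := by
      intro R _ _ x w
      have h2 : aeval ![x, w] p = (aeval ![x, w] : MvPolynomial (Fin 2) ℂ →ₐ[ℂ] R).toRingHom p :=
        rfl
      rw [h2, hp, Polynomial.hom_eval₂]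
      congr 1
      · refine Polynomial.ringHom_ext (fun b => ?_) ?_
        · simp
        · simp
      · simp
    have h2 : (![ι (taylor a fun w => w), ι (taylor a y)] : Fin 2 → PSF) =
        fun i => ι (taylor a ((![fun z => z, y] : Fin 2 → ℂ → ℂ) i)) := by
      funext i
      fin_cases i <;> rfl
    rw [← h1, h2, aeval_taylor ι (by
      intro i
      fin_cases i
      · exact analyticAt_id
      · exact hyan a haU), hιD, ← taylor_deriv]
    congr 1
    refine taylor_congr ?_
    filter_upwards [hV.mem_nhds haV] with s hs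
    rw [hode s hs, eval_eq_aeval']
    have h3 : (fun j => (![fun z => z, y] : Fin 2 → ℂ → ℂ) j s) = ![s, y s] := by
      funext i
      fin_cases i <;> rfl
    rw [h3, h1, Polynomial.eval_map]
    congr 1

end Pool.Agent.Lib.MP_1e09a3_nt.FO
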