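import Pool.Agent.Lib.MP_1e09a3_nt.FO.Stmts73

/-! Hochschild's formula modulo `p` (module FO1), helper16. -/

set_option autoImplicit false

namespace Pool.Agent.Lib.MP_1e09a3_nt.FO

open FE

section
variable {C Ω : Type} [Field C] [Field Ω] [Algebra C Ω] {D : Derivation C Ω Ω}
  {B : Subalgebra ℤ Ω} {p : ℕ}

theorem natCast_memB (n : ℕ) : (n : Ω) ∈ B := by
  have := B.algebraMap_mem (n : ℤ)
  rwa [eq_intCast (algebraMap ℤ Ω), Int.cast_natCast] at this

theorem divDer16 (h : Stable D B) {x : Ω} (hx : DivBy B p x) : DivBy B p (D x) := by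
  obtain ⟨b, hb, rfl⟩ := hx
  refine ⟨D b, h b hb, ?_⟩
  have h1 : D ((p : Ω)) = 0 := by
    have : (p : Ω) = ((p : ℤ) : Ω) := by simp
    rw [this]; exact D_intCast D p
  rw [Derivation.leibniz, h1, smul_zero, add_zero, smul_eq_mul]

theorem divIter16 (h : Stable D B) (n : ℕ) {x : Ω} (hx : DivBy B p x) :
    DivBy B p ((⇑D)^[n] x) := by
  induction n with
  | zero => simpa using hx
  | succ n ih => rw [Function.iterate_succ_apply']; exact divDer16 h ih

theorem divMulR16 {s t : Ω} (hs : s ∈ B) (ht : DivBy B p t) : DivBy B p (t * s) := by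
  rw [mul_comm]; exact ht.mul hs

theorem divBy_of_mul {x : Ω} (hx : x ∈ B) (m : ℕ) (hm : Nat.Coprime m p)
    (h : DivBy B p ((m : Ω) * x)) : DivBy B p x := by
  have h1 : IsCoprime (m : ℤ) (p : ℤ) := Nat.isCoprime_iff_coprime.2 hm
  obtain ⟨u, v, huv⟩ := h1
  obtain ⟨b, hb, hb'⟩ := h
  refine ⟨(u : Ω) * b + (v : Ω) * x, ?_, ?_⟩
  · have hu : (u : Ω) ∈ B := by simpa using B.algebraMap_mem u
    have hv : (v : Ω) ∈ B := by simpa using B.algebraMap_mem v
    exact B.add_mem (B.mul_mem hu hb) (B.mul_mem hv hx)
  · have h2 : ((u : Ω) * m + (v : Ω) * p) = 1 := by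
      have := congrArg (fun n : ℤ => (n : Ω)) huv
      push_cast at this
      exact this
    calc x = ((u : Ω) * m + (v : Ω) * p) * x := by rw [h2, one_mul]
      _ = (u : Ω) * ((m : Ω) * x) + (p : Ω) * ((v : Ω) * x) := by ring
      _ = (p : Ω) * ((u : Ω) * b + (v : Ω) * x) := by rw [hb']; ring

theorem D_pow_z {z : Ω} (hz : D z = 1) (m : ℕ) : D (z ^ m) = m * z ^ (m - 1) := by
  rw [Derivation.leibniz_pow, hz]
  simp

/-- iterated derivative of `z^m y` when `y` is constant modulo `p` -/
theorem iter_zpow (h : Stable D B) {z : Ω} (hz : D z = 1) (hzB : z ∈ B) {y : Ω} (hy : y ∈ B)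
    (hDy : DivBy B p (D y)) (m : ℕ) : ∀ k, k ≤ m →
    DivBy B p ((⇑D)^[k] (z ^ m * y) - (m.descFactorial k : Ω) * z ^ (m - k) * y) := by
  intro k
  induction k with
  | zero =>
    intro _
    simpa using DivBy.zero B p
  | succ k ih =>
    intro hk
    have h1 := divDer16 h (ih (by omega))
    rw [map_sub] at h1
    rw [Function.iterate_succ_apply']
    have h2 : D ((m.descFactorial k : Ω) * z ^ (m - k) * y) =
        (m.descFactorial (k + 1) : Ω) * z ^ (m - (k + 1)) * y +
          (m.descFactorial k : Ω) * z ^ (m - k) * D y := by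
      have h3 : D ((m.descFactorial k : Ω)) = 0 := by
        have : ((m.descFactorial k : ℕ) : Ω) = (((m.descFactorial k : ℕ) : ℤ) : Ω) := by simp
        rw [this]; exact D_intCast D _
      rw [Derivation.leibniz, Derivation.leibniz, h3, smul_zero, add_zero, D_pow_z hz]
      simp only [smul_eq_mul]
      rw [Nat.descFactorial_succ]
      have h4 : m - k - 1 = m - (k + 1) := by omega
      rw [h4]
      push_cast
      ring
    rw [h2] at h1
    have h5 : DivBy B p ((m.descFactorial k : Ω) * z ^ (m - k) * D y) :=
      hDy.mul (B.mul_mem (natCast_memB _) (B.pow_mem hzB _))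
    have h6 := h1.add h5
    convert h6 using 1
    ring

end

theorem hoch_16 : HochStmt := by
  intro C Ω _ _ _ _ D B z φ p hp hzB hz hφ hst hD s hs t ht
  -- the derivation `φ D`
  set E : Derivation C Ω Ω := φ • D with hE
  have hEx : ∀ x, E x = φ * D x := fun x => by rw [hE]; simp
  have hfun : (fun x => φ * D x) = ⇑E := by funext x; rw [hEx]
  rw [hfun]
  have hEst : Stable E B := fun x hx => by rw [hEx]; exact B.mul_mem hφ (hst x hx)
  set w : Ω := (⇑E)^[p] z with hw
  have hwB : w ∈ B := hEst.iterate p hzB
  set F : Ω → Ω := fun x => (⇑E)^[p] x - w * D x with hF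
  have hFB : ∀ x ∈ B, F x ∈ B := fun x hx =>
    B.sub_mem (hEst.iterate p hx) (B.mul_mem hwB (hst x hx))
  have hFadd : ∀ x y, F (x + y) = F x + F y := by
    intro x y
    simp only [hF, iterate_add, map_add]
    ring
  have hFmul : ∀ x ∈ B, ∀ y ∈ B, DivBy B p (F (x * y) - (x * F y + y * F x)) := by
    intro x hx y hy
    have h1 := leibniz_mod hEst hp hx hy
    convert h1 using 1
    simp only [hF]
    rw [Derivation.leibniz, smul_eq_mul, smul_eq_mul]
    ring
  have hFdiv : ∀ x, DivBy B p x → DivBy B p (F x) := by
    intro x hx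
    exact (divIter16 hEst p hx).sub ((divDer16 hst hx).mul hwB)
  have hFz : F z = 0 := by
    simp only [hF]
    rw [hz, mul_one, ← hw, sub_self]
  have hFzn : ∀ n, DivBy B p (F (z ^ n)) := by
    intro n
    induction n with
    | zero =>
      have h1 := hFmul 1 B.one_mem 1 B.one_mem
      simp only [one_mul] at h1
      have h2 := h1.neg
      rw [pow_zero]
      convert h2 using 1
      ring
    | succ n ih =>
      have h1 := hFmul (z ^ n) (B.pow_mem hzB n) z hzB
      rw [hFz, mul_zero, zero_add, ← pow_succ] at h1
      have h2 := h1.add (ih.mul hzB)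
      convert h2 using 1
      ring
  have hp1 : 1 ≤ p := hp.one_lt.le
  -- constants modulo `p`
  have hFconst : ∀ x ∈ B, DivBy B p (D x) → DivBy B p (F x) := by
    intro x hx hDx
    have h1 : (⇑E)^[p] x = (⇑E)^[p - 1] (φ * D x) := by
      conv_lhs => rw [show p = (p - 1) + 1 by omega, Function.iterate_add_apply,
        Function.iterate_one, hEx]
    simp only [hF]
    rw [h1]
    exact (divIter16 hEst (p - 1) (hDx.mul hφ)).sub (hDx.mul hwB)
  -- main induction
  have main : ∀ n, n + 1 ≤ p → ∀ x ∈ B, DivBy B p ((⇑D)^[n + 1] x) → DivBy B p (F x) := by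
    intro n
    induction n with
    | zero =>
      intro _ x hx hDx
      exact hFconst x hx (by simpa using hDx)
    | succ n ih =>
      intro hn x hx hDx
      set y : Ω := (⇑D)^[n + 1] x with hy
      have hyB : y ∈ B := hst.iterate (n + 1) hx
      have hDy : DivBy B p (D y) := by
        rw [hy, ← Function.iterate_succ_apply' (⇑D) (n + 1) x]
        exact hDx
      set x' : Ω := ((n + 1).factorial : Ω) * x + -(z ^ (n + 1) * y) with hx'
      have hfB : ((n + 1).factorial : Ω) ∈ B := natCast_memB _
      have hzyB : z ^ (n + 1) * y ∈ B := B.mul_mem (B.pow_mem hzB _) hyB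
      have hx'B : x' ∈ B := B.add_mem (B.mul_mem hfB hx) (B.neg_mem hzyB)
      have hfac : ∀ k u, (⇑D)^[k] (((n + 1).factorial : Ω) * u) =
          ((n + 1).factorial : Ω) * (⇑D)^[k] u := by
        intro k u
        induction k with
        | zero => simp
        | succ k ihk =>
          rw [Function.iterate_succ_apply', ihk, Function.iterate_succ_apply',
            Derivation.leibniz]
          have h3 : D (((n + 1).factorial : ℕ) : Ω) = 0 := by
            have : (((n + 1).factorial : ℕ) : Ω) = ((((n + 1).factorial : ℕ) : ℤ) : Ω) := by simp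
            rw [this]; exact D_intCast D _
          rw [h3, smul_zero, add_zero, smul_eq_mul]
      have hneg : ∀ u, (⇑D)^[n + 1] (-u) = -(⇑D)^[n + 1] u := by
        intro u
        have h1 := iterate_add D (n + 1) u (-u)
        rw [add_neg_cancel] at h1
        have h2 : (⇑D)^[n + 1] (0 : Ω) = 0 := by
          have h3 := iterate_add D (n + 1) (0 : Ω) 0
          rw [add_zero] at h3
          have h4 := sub_eq_zero.2 h3
          have h5 : (⇑D)^[n + 1] (0 : Ω) - ((⇑D)^[n + 1] (0 : Ω) + (⇑D)^[n + 1] (0 : Ω)) =
            -(⇑D)^[n + 1] (0 : Ω) := by ring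
          rw [h5] at h4
          exact neg_eq_zero.1 h4
        rw [h2] at h1
        exact (neg_eq_of_add_eq_zero_right h1.symm).symm
      have hDx' : DivBy B p ((⇑D)^[n + 1] x') := by
        rw [hx', iterate_add, hfac, hneg, ← hy]
        have h1 := iter_zpow hst hz hzB hyB hDy (n + 1) (n + 1) le_rfl
        rw [Nat.descFactorial_self, Nat.sub_self, pow_zero, mul_one] at h1
        convert h1.neg using 1
        ring
      have h1 := ih (by omega) x' hx'B hDx'
      -- `F (z^(n+1) y)`
      have h2 : DivBy B p (F (z ^ (n + 1) * y)) := by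
        have h3 := hFmul (z ^ (n + 1)) (B.pow_mem hzB _) y hyB
        have h4 := (hFconst y hyB hDy).mul (B.pow_mem hzB (n + 1))
        have h5 := (hFzn (n + 1)).mul hyB
        have h6 := (h3.add h4).add h5
        convert h6 using 1
        ring
      have hFneg : ∀ u, F (-u) = -F u := by
        intro u
        have h3 := hFadd u (-u)
        have h4 : F 0 = 0 := by
          have h5 := hFadd 0 0
          rw [add_zero] at h5
          have h6 : F 0 + F 0 = F 0 + 0 := by rw [add_zero]; exact h5.symm
          exact add_left_cancel h6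
        rw [add_neg_cancel, h4] at h3
        exact (neg_eq_of_add_eq_zero_right h3.symm).symm
      have h3 : DivBy B p (F (((n + 1).factorial : Ω) * x)) := by
        have h4 := h1.add h2
        rw [hx', hFadd, hFneg] at h4
        convert h4 using 1
        ring
      -- the factorial is a constant
      have h4 : F (((n + 1).factorial : Ω) * x) = ((n + 1).factorial : Ω) * F x := by
        have hfacE : ∀ k u, (⇑E)^[k] (((n + 1).factorial : Ω) * u) =
            ((n + 1).factorial : Ω) * (⇑E)^[k] u := by
          intro k u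
          induction k with
          | zero => simp
          | succ k ihk =>
            rw [Function.iterate_succ_apply', ihk, Function.iterate_succ_apply',
              Derivation.leibniz]
            have h3 : E (((n + 1).factorial : ℕ) : Ω) = 0 := by
              have : (((n + 1).factorial : ℕ) : Ω) = ((((n + 1).factorial : ℕ) : ℤ) : Ω) := by
                simp
              rw [this]; exact D_intCast E _
            rw [h3, smul_zero, add_zero, smul_eq_mul]
        have h5 := hfac 1 x
        simp only [Function.iterate_one] at h5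
        simp only [hF]
        rw [hfacE, h5]
        ring
      rw [h4] at h3
      apply divBy_of_mul (hFB x hx) _ _ h3
      rw [Nat.coprime_comm, hp.coprime_iff_not_dvd]
      intro h5
      have := (hp.dvd_factorial).1 h5
      omega
  have hF0 : ∀ x ∈ B, DivBy B p (F x) := by
    intro x hx
    apply main (p - 1) (by omega) x hx
    rw [show p - 1 + 1 = p by omega]
    exact hD x hx
  have h1 := ((hF0 s hs).mul (hst t ht)).sub ((hF0 t ht).mul (hst s hs))
  convert h1 using 1
  simp only [hF]
  ring

end Pool.Agent.Lib.MP_1e09a3_nt.FO
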