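import Pool.Agent.Lib.MP_1e09a3_nt.FO.PClosed73

/-!
First order equations: the main argument.
-/

open MvPolynomial

namespace Pool.Agent.Lib.MP_1e09a3_nt.FO

open FE

section maps

variable {k l : Type} [CommRing k] [CommRing l] {N : ℕ}

theorem eval_map' (π : k →+* l) (P : Fin N → k) (g : MvPolynomial (Fin N) k) :
    eval (fun i => π (P i)) (map π g) = π (eval P g) := by
  induction g using MvPolynomial.induction_on with
  | C a => simp
  | add p q hp hq => rw [map_add, map_add, map_add, map_add, hp, hq]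
  | mul_X p i hp => rw [map_mul, map_mul, map_mul, map_mul, hp, map_X, eval_X, eval_X]

theorem jacAt_map (π : k →+* l) (A : Fin N → MvPolynomial (Fin N) k) (P : Fin N → k) :
    (jacAt A P).map π = jacAt (fun i => map π (A i)) (fun i => π (P i)) := by
  ext i j
  rw [Matrix.map_apply, jacAt, jacAt, Matrix.of_apply, Matrix.of_apply, pderiv_map, eval_map']

theorem res_map (π : k →+* l) (g : MvPolynomial (Fin 2) k) :
    (res g).map π = res (map π g) := by
  induction g using MvPolynomial.induction_on with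
  | C a => simp [res]
  | add p q hp hq =>
    unfold res at hp hq ⊢
    rw [map_add, map_add, Polynomial.map_add, hp, hq, map_add]
  | mul_X p i hp =>
    unfold res at hp ⊢
    rw [map_mul, map_mul, map_mul, Polynomial.map_mul, hp, map_X, aeval_X, aeval_X]
    congr 1
    fin_cases i
    · simp
    · simp

end maps

theorem main_point (hpc : PClosedStmt) (hloc : LocalStmt) (hsp : SpectralStmt) (Ω : Type)
    [Field Ω] [Algebra ℂ Ω] (D : Derivation ℂ Ω Ω) (z : Ω) (hz : D z = 1) (N : ℕ)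
    (f : Fin N → Ω) (hflat : ∀ i, IsFlatElt D (f i)) (hne : ∃ i, D (f i) ≠ 0)
    (A : Fin N → MvPolynomial (Fin N) ℂ)
    (hrel : ∀ i j, aeval f (A i) * D (f j) = aeval f (A j) * D (f i)) (hbad : BadPoint A) :
    ¬ AlgebraicIndependent ℂ f := by
  intro hind
  obtain ⟨P, hP, hJ⟩ := hbad
  obtain ⟨T, hT, hTJ⟩ := hsp ℂ N (jacAt A P) hJ
  obtain ⟨T', hT', hTT', A', hA', hcl⟩ := hpc ℂ Ω D z hz N f hflat hind hne A hrel
    (T ∪ Set.range P) (hT.union (Set.finite_range P))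
  set P' : Fin N → Zg T' := fun i => ⟨P i, hTT' (Or.inr ⟨i, rfl⟩)⟩ with hP'
  refine hTJ T' hT' (fun x hx => hTT' (Or.inl hx)) (jacAt A' P') ?_ ?_
  · rw [jacAt_map]
    congr 1
    exact funext hA'
  · intro p k _ _ hp π w i j
    rw [jacAt_map]
    refine hloc k N _ _ p hp.out.pos (fun i => ?_) (hcl p k π) w i j
    rw [eval_map']
    have h0 : eval P' (A' i) = 0 := by
      apply Subtype.ext
      have h1 := eval_map' (Zg T').subtype P' (A' i)
      rw [hA' i] at h1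
      change ((eval P' (A' i) : Zg T') : ℂ) = 0
      exact h1.symm.trans (hP i)
    rw [h0, map_zero]

theorem main_line (hpc : PClosedStmt) (hline : LineStmt) (hres : ResPStmt) (hlm : LauMapStmt)
    (hrat : RatStmt) (hpi : PiStmt) (Ω : Type)
    [Field Ω] [Algebra ℂ Ω] (D : Derivation ℂ Ω Ω) (z : Ω) (hz : D z = 1)
    (f : Fin 2 → Ω) (hflat : ∀ i, IsFlatElt D (f i)) (hne : ∃ i, D (f i) ≠ 0)
    (A : Fin 2 → MvPolynomial (Fin 2) ℂ)
    (hrel : ∀ i j, aeval f (A i) * D (f j) = aeval f (A j) * D (f i)) (hbad : BadLine A) :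
    ¬ AlgebraicIndependent ℂ f := by
  classical
  intro hind
  obtain ⟨m, a, c, hA0, hb0, hcase⟩ := hbad
  have hm : 0 < m := by
    rcases hcase with ⟨h, -⟩ | ⟨h, -⟩ <;> omega
  set H := lau c (res a) (res (A 1)) with hH
  obtain ⟨T, hT, hTL⟩ := hlm ℂ (res a) (res (A 1)) c hb0
  -- the coefficient which should not vanish
  obtain ⟨n₀, hn₀⟩ : ∃ n₀ : ℤ, (2 ≤ m ∧ n₀ = -1 ∧ H.coeff n₀ ≠ 0) ∨ (m = 1 ∧ n₀ < -1 ∧
      H.coeff n₀ ≠ 0) ∨ (m = 1 ∧ ∀ q : ℚ, H.coeff (-1) ≠ q) := by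
    rcases hcase with ⟨h1, h2⟩ | ⟨h1, ⟨n, hn, h2⟩ | h2⟩
    · exact ⟨-1, Or.inl ⟨h1, rfl, h2⟩⟩
    · exact ⟨n, Or.inr (Or.inl ⟨h1, hn, h2⟩)⟩
    · exact ⟨0, Or.inr (Or.inr ⟨h1, h2⟩)⟩
  set T₁ : Set ℂ := T ∪ ((fun m => a.coeff m) '' a.support ∪ {c, (2 : ℂ)⁻¹, (H.coeff n₀)⁻¹})
    with hT₁
  have hT₁fin : T₁.Finite :=
    hT.union ((a.support.finite_toSet.image _).union (by simp))
  obtain ⟨T', hT', hTT', A', hA', hcl⟩ := hpc ℂ Ω D z hz 2 f hflat hind hne A hrel T₁ hT₁fin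
  have hacoef : ∀ m, a.coeff m ∈ Zg T' := by
    intro m
    by_cases hm : m ∈ a.support
    · exact hTT' (Or.inr (Or.inl ⟨m, hm, rfl⟩))
    · rw [notMem_support_iff.1 hm]
      exact Subring.zero_mem _
  obtain ⟨a', ha'⟩ := exists_lift (Zg T') a hacoef
  have hcT : c ∈ Zg T' := hTT' (Or.inr (Or.inr (by simp)))
  have h2T : (2 : ℂ)⁻¹ ∈ Zg T' := hTT' (Or.inr (Or.inr (by simp)))
  have hHT : (H.coeff n₀)⁻¹ ∈ Zg T' := hTT' (Or.inr (Or.inr (by simp)))
  set c' : Zg T' := ⟨c, hcT⟩ with hc'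
  have hinj : Function.Injective (map (Zg T').subtype :
      MvPolynomial (Fin 2) (Zg T') →+* MvPolynomial (Fin 2) ℂ) :=
    map_injective _ Subtype.val_injective
  have hA0' : A' 0 = X 0 ^ m * a' := by
    apply hinj
    rw [hA', map_mul, map_pow, map_X, ha', hA0]
  have hra : (res a').map (Zg T').subtype = res a := by rw [res_map, ha']
  have hrb : (res (A' 1)).map (Zg T').subtype = res (A 1) := by rw [res_map, hA']
  have hp2 : ∀ (p : ℕ) (k : Type) [Field k] [CharP k p] (_ : Zg T' →+* k), p ≠ 2 := by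
    intro p k _ _ π hp
    subst hp
    have h1 : (2 : Zg T') * ⟨(2 : ℂ)⁻¹, h2T⟩ = 1 := by
      apply Subtype.ext
      change (2 : ℂ) * (2 : ℂ)⁻¹ = 1
      norm_num
    have h2 := congrArg π h1
    rw [map_mul, map_one, map_ofNat] at h2
    have h3 : (2 : k) = 0 := by exact_mod_cast CharP.cast_eq_zero k 2
    rw [h3, zero_mul] at h2
    exact zero_ne_one h2
  -- the conclusion in characteristic `p`
  have hid : ∀ (p : ℕ) (k : Type) [Field k] [CharP k p] [Fact p.Prime] (π : Zg T' →+* k),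
      (nab (if m = 1 then 1 else 0) ((res a').map π) ((res (A' 1)).map π))^[p - 1]
        ((res a').map π) * ((res (A' 1)).map π) =
      (nab 0 0 ((res (A' 1)).map π))^[p - 1] ((res (A' 1)).map π) * ((res a').map π) := by
    intro p k _ _ hp π
    rw [res_map, res_map]
    refine hline k (fun i => map π (A' i)) m p (map π a') hm hp.out.pos ?_ (hcl p k π)
    change map π (A' 0) = _
    rw [hA0', map_mul, map_pow, map_X]
  rcases hn₀ with ⟨h1, hn1, h2⟩ | ⟨h1, hn1, h2⟩ | ⟨h1, h2⟩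
  · obtain ⟨h, hh, hπ⟩ := hTL T' (fun x hx => hTT' (Or.inl hx)) (res a') (res (A' 1)) c' hra hrb
      rfl n₀
    obtain ⟨p, k, _, _, _, ⟨π⟩⟩ := hpi ℂ T' hT'
    have h3 := (hres k p (hp2 p k π) ((res a').map π) ((res (A' 1)).map π) (hπ k π).1 (π c')).1
      (by
        have := hid p k π
        rwa [if_neg (by omega)] at this)
    have h4 := (hπ k π).2
    rw [hn1, h3] at h4
    have h5 : h * ⟨(H.coeff n₀)⁻¹, hHT⟩ = 1 := by
      apply Subtype.ext
      change (h : ℂ) * (H.coeff n₀)⁻¹ = 1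
      rw [hh]
      exact mul_inv_cancel₀ h2
    have h6 := congrArg π h5
    rw [map_mul, map_one, h4, zero_mul] at h6
    exact zero_ne_one h6
  · obtain ⟨h, hh, hπ⟩ := hTL T' (fun x hx => hTT' (Or.inl hx)) (res a') (res (A' 1)) c' hra hrb
      rfl n₀
    obtain ⟨p, k, _, _, _, ⟨π⟩⟩ := hpi ℂ T' hT'
    have h3 := ((hres k p (hp2 p k π) ((res a').map π) ((res (A' 1)).map π) (hπ k π).1
      (π c')).2 (by
        have := hid p k π
        rwa [if_pos h1] at this)).1 n₀ hn1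
    have h4 := (hπ k π).2
    rw [h3] at h4
    have h5 : h * ⟨(H.coeff n₀)⁻¹, hHT⟩ = 1 := by
      apply Subtype.ext
      change (h : ℂ) * (H.coeff n₀)⁻¹ = 1
      rw [hh]
      exact mul_inv_cancel₀ h2
    have h6 := congrArg π h5
    rw [map_mul, map_one, h4, zero_mul] at h6
    exact zero_ne_one h6
  · obtain ⟨h, hh, hπ⟩ := hTL T' (fun x hx => hTT' (Or.inl hx)) (res a') (res (A' 1)) c' hra hrb
      rfl (-1)
    obtain ⟨q, hq⟩ := hrat ℂ T' hT' h (by
      intro p k _ _ _ π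
      have h3 := ((hres k p (hp2 p k π) ((res a').map π) ((res (A' 1)).map π) (hπ k π).1
        (π c')).2 (by
          have := hid p k π
          rwa [if_pos h1] at this)).2
      rw [(hπ k π).2]
      exact h3)
    exact h2 q (by rw [hq, hh])

end Pool.Agent.Lib.MP_1e09a3_nt.FO
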