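import Pool.Agent.Lib.MP_1e09a3_nt.FO.Stmts73

/-!
The vector field of a flat solution is `p`-closed after reduction.
-/

open MvPolynomial

namespace Pool.Agent.Lib.MP_1e09a3_nt.FO

open FE

section

variable {k l : Type} [CommRing k] [CommRing l] {N : ℕ}

theorem vec_X (A : Fin N → MvPolynomial (Fin N) k) (i : Fin N) : vec A (X i) = A i :=
  mkDerivation_X k A i

theorem map_vec (π : k →+* l) (A : Fin N → MvPolynomial (Fin N) k)
    (g : MvPolynomial (Fin N) k) :
    map π (vec A g) = vec (fun i => map π (A i)) (map π g) := by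
  induction g using MvPolynomial.induction_on with
  | C a => rw [map_C, derivation_C, derivation_C, map_zero]
  | add p q hp hq => rw [map_add, map_add, hp, hq, map_add, map_add]
  | mul_X p i hp =>
    rw [Derivation.leibniz, map_add, smul_eq_mul, smul_eq_mul, map_mul, map_mul, map_mul, hp,
      map_X, Derivation.leibniz, smul_eq_mul, smul_eq_mul, vec_X, vec_X]

theorem map_vec_iterate (π : k →+* l) (A : Fin N → MvPolynomial (Fin N) k) (n : ℕ)
    (g : MvPolynomial (Fin N) k) :
    map π ((⇑(vec A))^[n] g) = (⇑(vec fun i => map π (A i)))^[n] (map π g) := by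
  induction n generalizing g with
  | zero => rfl
  | succ n ih => rw [Function.iterate_succ_apply, Function.iterate_succ_apply, ih, map_vec]

end

theorem exists_lift {C : Type} [Field C] {N : ℕ} (B : Subring C) (g : MvPolynomial (Fin N) C)
    (h : ∀ m, g.coeff m ∈ B) : ∃ g' : MvPolynomial (Fin N) B, map B.subtype g' = g := by
  classical
  refine ⟨∑ m ∈ g.support, monomial m ⟨g.coeff m, h m⟩, ?_⟩
  rw [map_sum]
  conv_rhs => rw [g.as_sum]
  exact Finset.sum_congr rfl fun m _ => by rw [map_monomial]; rfl

theorem pclosed_73 (hH : HochStmt) (hD : DescendStmt) : PClosedStmt := by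
  intro C Ω _ _ _ _ D z hz N f hflat hind ⟨i₀, hi₀⟩ A hrel T hT
  classical
  have : CharZero Ω := charZero_of_injective_algebraMap (algebraMap C Ω).injective
  set φ := aeval f (A i₀) / D (f i₀) with hφdef
  have hφ : ∀ j, φ * D (f j) = aeval f (A j) := by
    intro j
    rw [hφdef, div_mul_eq_mul_div, div_eq_iff hi₀]
    exact hrel i₀ j
  have hffl : ∀ i, f i ∈ flatField D := hflat
  have hpfl : ∀ g : MvPolynomial (Fin N) C, aeval f g ∈ flatField D := by
    intro g
    induction g using MvPolynomial.induction_on with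
    | C a => rw [aeval_C]; exact (flatField D).algebraMap_mem a
    | add p q hp hq => rw [map_add]; exact (flatField D).add_mem hp hq
    | mul_X p i hp => rw [map_mul, aeval_X]; exact (flatField D).mul_mem hp (hffl i)
  have hφfl : φ ∈ flatField D :=
    (flatField D).div_mem (hpfl _) (D_mem_flatField (hffl i₀))
  obtain ⟨S, hS, hFS⟩ := isFlatElt_of_mem_finite (D := D) (F := Set.range f ∪ {z, φ})
    ((Set.finite_range f).union (by simp)) (by
      rintro x (⟨i, rfl⟩ | hx)
      · exact hflat i
      · rcases hx with rfl | hx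
        · exact isFlatElt_of_D_eq_one hz
        · rw [Set.mem_singleton_iff] at hx
          rw [hx]
          exact hφfl)
  have hfB : ∀ i, f i ∈ Algebra.adjoin ℤ S := fun i => hFS (Or.inl ⟨i, rfl⟩)
  have hzB : z ∈ Algebra.adjoin ℤ S := hFS (Or.inr (Or.inl rfl))
  have hφB : φ ∈ Algebra.adjoin ℤ S := hFS (Or.inr (Or.inr rfl))
  set T₁ : Set C := T ∪ ⋃ i, (fun m => (A i).coeff m) '' (A i).support with hT₁
  have hT₁fin : T₁.Finite :=
    hT.union (Set.finite_iUnion fun i => (A i).support.finite_toSet.image _)
  obtain ⟨T', hT'fin, hT', hdesc⟩ := hD C Ω N f hind S hS.1 T₁ hT₁fin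
  have hcoef : ∀ i m, (A i).coeff m ∈ Zg T' := by
    intro i m
    by_cases hm : m ∈ (A i).support
    · exact hT' (Or.inr (Set.mem_iUnion.2 ⟨i, m, hm, rfl⟩))
    · rw [notMem_support_iff.1 hm]
      exact Subring.zero_mem _
  choose A' hA' using fun i => exists_lift (Zg T') (A i) (hcoef i)
  refine ⟨T', hT'fin, fun x hx => hT' (Or.inl hx), A', hA', ?_⟩
  -- the vector field in the field
  have hder : ∀ g : MvPolynomial (Fin N) C, φ * D (aeval f g) = aeval f (vec A g) := by
    intro g
    induction g using MvPolynomial.induction_on with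
    | C a => rw [aeval_C, D.map_algebraMap, mul_zero, derivation_C, map_zero]
    | add p q hp hq => rw [map_add, map_add, mul_add, hp, hq, map_add, map_add]
    | mul_X p i hp =>
      rw [map_mul, Derivation.leibniz, smul_eq_mul, smul_eq_mul, aeval_X, Derivation.leibniz,
        smul_eq_mul, smul_eq_mul, map_add, map_mul, map_mul, vec_X, aeval_X, ← hp, ← hφ i]
      ring
  have hiter : ∀ (n : ℕ) (g : MvPolynomial (Fin N) C),
      (fun x => φ * D x)^[n] (aeval f g) = aeval f ((⇑(vec A))^[n] g) := by
    intro n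
    induction n with
    | zero => intro g; rfl
    | succ n ih =>
      intro g
      rw [Function.iterate_succ_apply, Function.iterate_succ_apply]
      change (fun x => φ * D x)^[n] (φ * D (aeval f g)) = _
      rw [hder, ih]
  intro p k _ _ hpF π i j
  have hp : p.Prime := hpF.out
  set g : MvPolynomial (Fin N) (Zg T') := (⇑(vec A'))^[p] (X i) * A' j -
    (⇑(vec A'))^[p] (X j) * A' i with hg
  have hmap : map (Zg T').subtype g = (⇑(vec A))^[p] (X i) * A j -
      (⇑(vec A))^[p] (X j) * A i := by
    have hfun : (fun i => map (Zg T').subtype (A' i)) = A := funext hA'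
    rw [hg, map_sub, map_mul, map_mul, map_vec_iterate, map_vec_iterate, hfun, map_X, map_X, hA',
      hA']
  have hdiv : DivBy (Algebra.adjoin ℤ S) p (aeval f (map (Zg T').subtype g)) := by
    rw [hmap, map_sub, map_mul, map_mul, ← hiter, ← hiter, aeval_X, aeval_X, ← hφ i, ← hφ j]
    have h1 := DivBy.mul hφB (hH C Ω D (Algebra.adjoin ℤ S) z φ p hp hzB hz hφB hS.stable
      (fun x hx => hS.divBy hp hx) (f i) (hfB i) (f j) (hfB j))
    convert h1 using 1
    ring
  have h0 := hdesc g p hdiv k π
  rw [hg, map_sub, map_mul, map_mul, map_vec_iterate, map_vec_iterate, map_X, map_X] at h0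
  exact sub_eq_zero.1 h0

end Pool.Agent.Lib.MP_1e09a3_nt.FO
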