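import Pool.Agent.Lib.MP_1e09a3_nt.FO.LauMap70

/-!
If all residues of `dY / Q(Y)` vanish then `Q` is a power of a linear polynomial (module FO11).
-/

namespace Pool.Agent.Lib.MP_1e09a3_nt.FO

namespace P42

open Polynomial

variable (s : Finset ℂ) (m : ℂ → ℕ) (l : ℂ)

/-- the polynomial with roots `s`, multiplicities `m`, leading coefficient `l` -/
noncomputable def Pol : ℂ[X] := C l * ∏ a ∈ s, (X - C a) ^ m a

/-- its radical -/
noncomputable def Rad : ℂ[X] := ∏ a ∈ s, (X - C a)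

/-- the radical without the root `a` -/
noncomputable def Ra (a : ℂ) : ℂ[X] := ∏ b ∈ s.erase a, (X - C b)

/-- the numerator of the logarithmic derivative of `Pol / Rad` -/
noncomputable def Tt : ℂ[X] := ∑ b ∈ s, C ((m b : ℂ) - 1) * Ra s b

/-- the polynomial without the root `a` -/
noncomputable def q1 (a : ℂ) : ℂ[X] := C l * ∏ b ∈ s.erase a, (X - C b) ^ m b

/-- the polynomial divided by `X - a` -/
noncomputable def Qa (a : ℂ) : ℂ[X] := (X - C a) ^ (m a - 1) * q1 s m l a

variable {s m l}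

theorem Pol_eq {a : ℂ} (ha : a ∈ s) : Pol s m l = (X - C a) ^ m a * q1 s m l a := by
  rw [Pol, q1, ← Finset.mul_prod_erase s _ ha]; ring

theorem Rad_eq {a : ℂ} (ha : a ∈ s) : Rad s = (X - C a) * Ra s a := by
  rw [Rad, Ra, ← Finset.mul_prod_erase s _ ha]

theorem mul_Qa {a : ℂ} (ha : a ∈ s) (hm : 0 < m a) :
    (X - C a) * Qa s m l a = Pol s m l := by
  rw [Pol_eq ha, Qa]
  obtain ⟨n, hn⟩ : ∃ n, m a = n + 1 := ⟨m a - 1, by omega⟩
  rw [hn, Nat.add_sub_cancel]; ring

theorem q1_eval (hl : l ≠ 0) (a : ℂ) : (q1 s m l a).eval a ≠ 0 := by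
  rw [q1, eval_mul, eval_C, eval_prod]
  refine mul_ne_zero hl (Finset.prod_ne_zero_iff.2 fun b hb => ?_)
  have : b ≠ a := Finset.ne_of_mem_erase hb
  simp only [eval_pow, eval_sub, eval_X, eval_C]
  exact pow_ne_zero _ (sub_ne_zero.2 this.symm)

theorem derivative_Rad : derivative (Rad s) = ∑ b ∈ s, Ra s b := by
  rw [Rad, derivative_prod_finset]
  refine Finset.sum_congr rfl fun b _ => ?_
  simp [Ra]

theorem derivative_Pol_mul (hm : ∀ a ∈ s, 0 < m a) :
    derivative (Pol s m l) * Rad s = ∑ b ∈ s, C (m b : ℂ) * Ra s b * Pol s m l := by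
  rw [Pol, derivative_C_mul, derivative_prod_finset, Finset.mul_sum, Finset.sum_mul]
  refine Finset.sum_congr rfl fun b hb => ?_
  rw [Rad_eq hb, ← Finset.mul_prod_erase s _ hb, derivative_pow, derivative_sub, derivative_X,
    derivative_C, sub_zero, mul_one]
  obtain ⟨n, hn⟩ : ∃ n, m b = n + 1 := ⟨m b - 1, by have := hm b hb; omega⟩
  rw [hn, Nat.add_sub_cancel]
  push_cast
  ring

theorem Tt_mul (hm : ∀ a ∈ s, 0 < m a) :
    Tt s m * Pol s m l = derivative (Pol s m l) * Rad s - derivative (Rad s) * Pol s m l := by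
  rw [derivative_Pol_mul hm, derivative_Rad, Tt, Finset.sum_mul, Finset.sum_mul,
    ← Finset.sum_sub_distrib]
  refine Finset.sum_congr rfl fun b _ => ?_
  rw [C_sub, C_1]; ring

/-- the residue functional -/
noncomputable def R (s : Finset ℂ) (m : ℂ → ℕ) (l a : ℂ) (P : ℂ[X]) : ℂ :=
  PowerSeries.coeff (m a - 1) (((Polynomial.taylor a P : ℂ[X]) : PowerSeries ℂ) *
    (((Polynomial.taylor a (q1 s m l a) : ℂ[X]) : PowerSeries ℂ))⁻¹)

theorem unit_q1 (hl : l ≠ 0) (a : ℂ) :
    ((Polynomial.taylor a (q1 s m l a) : ℂ[X]) : PowerSeries ℂ) *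
      (((Polynomial.taylor a (q1 s m l a) : ℂ[X]) : PowerSeries ℂ))⁻¹ = 1 := by
  apply PowerSeries.mul_inv_cancel
  rw [← PowerSeries.coeff_zero_eq_constantCoeff_apply, Polynomial.coeff_coe, Polynomial.taylor_coeff_zero]
  exact q1_eval hl a

theorem taylor_Pol {a : ℂ} (ha : a ∈ s) :
    ((Polynomial.taylor a (Pol s m l) : ℂ[X]) : PowerSeries ℂ) =
      PowerSeries.X ^ m a * ((Polynomial.taylor a (q1 s m l a) : ℂ[X]) : PowerSeries ℂ) := by
  rw [Pol_eq ha, Polynomial.taylor_mul, Polynomial.taylor_pow, map_sub, Polynomial.taylor_X, Polynomial.taylor_C, add_sub_cancel_right,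
    Polynomial.coe_mul, Polynomial.coe_pow, Polynomial.coe_X]

theorem lau_eq (hl : l ≠ 0) {a : ℂ} (ha : a ∈ s) (hm : 0 < m a) (P : ℂ[X]) :
    (lau a P (Pol s m l)).coeff (-1) = R s m l a P := by
  rw [lau, LauMap70.lauA _ _ _ _ (m a) (taylor_Pol ha) (unit_q1 hl a), R]
  rw [if_pos (by omega)]
  congr 2
  omega

theorem R_add (a : ℂ) (P P' : ℂ[X]) : R s m l a (P + P') = R s m l a P + R s m l a P' := by
  rw [R, map_add, Polynomial.coe_add, add_mul, map_add]; rfl

theorem R_C_mul (a c : ℂ) (P : ℂ[X]) : R s m l a (C c * P) = c * R s m l a P := by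
  rw [R, Polynomial.taylor_mul, Polynomial.taylor_C, Polynomial.coe_mul, Polynomial.coe_C, mul_assoc,
    PowerSeries.coeff_C_mul]; rfl

theorem R_sum (a : ℂ) {ι : Type} (t : Finset ι) (f : ι → ℂ[X]) :
    R s m l a (∑ i ∈ t, f i) = ∑ i ∈ t, R s m l a (f i) := by
  classical
  induction t using Finset.induction_on with
  | empty => simp [R]
  | insert i t hi ih => rw [Finset.sum_insert hi, R_add, ih, Finset.sum_insert hi]

theorem taylor_Xa (a : ℂ) : ((Polynomial.taylor a (X - C a) : ℂ[X]) : PowerSeries ℂ) = PowerSeries.X := by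
  rw [map_sub, Polynomial.taylor_X, Polynomial.taylor_C, add_sub_cancel_right, Polynomial.coe_X]

theorem R_Qa_self (hl : l ≠ 0) (a : ℂ) : R s m l a (Qa s m l a) = 1 := by
  rw [R, Qa, Polynomial.taylor_mul, Polynomial.taylor_pow, Polynomial.coe_mul, Polynomial.coe_pow, taylor_Xa, mul_assoc,
    unit_q1 hl, mul_one, PowerSeries.coeff_X_pow, if_pos rfl]

theorem R_dvd {a : ℂ} (hm : 0 < m a) {P : ℂ[X]} (h : (X - C a) ^ m a ∣ P) :
    R s m l a P = 0 := by
  obtain ⟨P', rfl⟩ := h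
  rw [R, Polynomial.taylor_mul, Polynomial.taylor_pow, Polynomial.coe_mul, Polynomial.coe_pow, taylor_Xa, mul_assoc,
    PowerSeries.coeff_X_pow_mul', if_neg (by omega)]

theorem R_Qa {a b : ℂ} (ha : a ∈ s) (hm : 0 < m a) (hab : a ≠ b) :
    R s m l a (Qa s m l b) = 0 := by
  apply R_dvd hm
  rw [Qa, q1]
  refine Dvd.dvd.mul_left (Dvd.dvd.mul_left ?_ _) _
  exact Finset.dvd_prod_of_mem (fun b => (X - C b) ^ m b) (Finset.mem_erase.2 ⟨hab, ha⟩)

/-- the numerator of the derivative of `N Rad / Pol` -/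
noncomputable def L (s : Finset ℂ) (m : ℂ → ℕ) (N : ℂ[X]) : ℂ[X] :=
  derivative N * Rad s - N * Tt s m

theorem L_mul (hm : ∀ a ∈ s, 0 < m a) (N : ℂ[X]) :
    L s m N * Pol s m l =
      derivative (N * Rad s) * Pol s m l - N * Rad s * derivative (Pol s m l) := by
  rw [L, sub_mul, mul_assoc N, Tt_mul hm, derivative_mul]; ring

theorem taylor_derivative (a : ℂ) (P : ℂ[X]) :
    ((Polynomial.taylor a (derivative P) : ℂ[X]) : PowerSeries ℂ) =
      PowerSeries.derivative ℂ ((Polynomial.taylor a P : ℂ[X]) : PowerSeries ℂ) := by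
  rw [PowerSeries.derivative_coe, Polynomial.taylor_apply, Polynomial.taylor_apply, derivative_comp]
  simp

theorem coeff_X_mul_deriv (u : PowerSeries ℂ) (n : ℕ) :
    PowerSeries.coeff n (PowerSeries.X * PowerSeries.derivative ℂ u) =
      n * PowerSeries.coeff n u := by
  cases n with
  | zero => simp
  | succ n => rw [PowerSeries.coeff_succ_X_mul, PowerSeries.coeff_derivative]; push_cast; ring

theorem R_L (hl : l ≠ 0) (hm : ∀ a ∈ s, 0 < m a) {a : ℂ} (ha : a ∈ s) (N : ℂ[X]) :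
    R s m l a (L s m N) = 0 := by
  set q : PowerSeries ℂ := ((Polynomial.taylor a (q1 s m l a) : ℂ[X]) : PowerSeries ℂ) with hq
  set u : PowerSeries ℂ := ((Polynomial.taylor a (N * Ra s a) : ℂ[X]) : PowerSeries ℂ) * q⁻¹ with hu
  have hqq : q * q⁻¹ = 1 := unit_q1 hl a
  have h1 : ((Polynomial.taylor a (N * Rad s) : ℂ[X]) : PowerSeries ℂ) = PowerSeries.X * (u * q) := by
    rw [Rad_eq ha, show N * ((X - C a) * Ra s a) = (X - C a) * (N * Ra s a) by ring, Polynomial.taylor_mul,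
      Polynomial.coe_mul, taylor_Xa, hu, mul_assoc _ q⁻¹ q, mul_comm q⁻¹ q, hqq]
    rw [mul_one]
  have h2 := taylor_Pol (m := m) (l := l) ha
  rw [← hq] at h2
  have h3 : ((Polynomial.taylor a (L s m N) : ℂ[X]) : PowerSeries ℂ) * (PowerSeries.X ^ m a * q) =
      PowerSeries.derivative ℂ (PowerSeries.X * (u * q)) * (PowerSeries.X ^ m a * q) -
        PowerSeries.X * (u * q) * PowerSeries.derivative ℂ (PowerSeries.X ^ m a * q) := by
    rw [← h1, ← h2, ← taylor_derivative, ← taylor_derivative, ← Polynomial.coe_mul,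
      ← Polynomial.coe_mul, ← Polynomial.coe_mul, ← Polynomial.taylor_mul, ← Polynomial.taylor_mul, ← Polynomial.taylor_mul,
      ← Polynomial.coe_sub, ← map_sub, L_mul hm]
  obtain ⟨n, hn⟩ : ∃ n, m a = n + 1 := ⟨m a - 1, by have := hm a ha; omega⟩
  have h4 : ((Polynomial.taylor a (L s m N) : ℂ[X]) : PowerSeries ℂ) =
      q * (PowerSeries.X * PowerSeries.derivative ℂ u - (n : PowerSeries ℂ) * u) := by
    have hne : (PowerSeries.X ^ m a * q : PowerSeries ℂ) ≠ 0 := by
      refine mul_ne_zero (pow_ne_zero _ PowerSeries.X_ne_zero) ?_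
      intro h; rw [h, zero_mul] at hqq; exact zero_ne_one hqq
    apply mul_right_cancel₀ hne
    rw [h3]
    simp only [Derivation.leibniz, Derivation.leibniz_pow, PowerSeries.derivative_X, smul_eq_mul,
      nsmul_eq_mul, hn, Nat.add_sub_cancel]
    push_cast
    ring
  rw [R, ← hq, h4, show q * (PowerSeries.X * PowerSeries.derivative ℂ u - (n : PowerSeries ℂ) * u)
    * q⁻¹ = (q * q⁻¹) * (PowerSeries.X * PowerSeries.derivative ℂ u - (n : PowerSeries ℂ) * u) by
      ring, hqq, one_mul, hn, Nat.add_sub_cancel, map_sub, coeff_X_mul_deriv]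
  have : (n : PowerSeries ℂ) * u = PowerSeries.C (n : ℂ) * u := by simp
  rw [this, PowerSeries.coeff_C_mul, sub_self]

theorem Rad_monic : (Rad s).Monic := monic_prod_of_monic _ _ fun a _ => monic_X_sub_C a

theorem Rad_natDegree : (Rad s).natDegree = s.card := by
  rw [Rad, natDegree_prod_of_monic _ _ fun a _ => monic_X_sub_C a]; simp

theorem Ra_monic (a : ℂ) : (Ra s a).Monic := monic_prod_of_monic _ _ fun a _ => monic_X_sub_C a

theorem Ra_natDegree {a : ℂ} (ha : a ∈ s) : (Ra s a).natDegree = s.card - 1 := by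
  rw [Ra, natDegree_prod_of_monic _ _ fun a _ => monic_X_sub_C a]
  simp [Finset.card_erase_of_mem ha]

theorem Tt_natDegree : (Tt s m).natDegree ≤ s.card - 1 := by
  apply natDegree_sum_le_of_forall_le
  intro b hb
  exact (natDegree_C_mul_le _ _).trans (Ra_natDegree hb).le

theorem Tt_coeff : (Tt s m).coeff (s.card - 1) = (∑ b ∈ s, (m b : ℂ)) - s.card := by
  rw [Tt, finsetSum_coeff]
  have : ∀ b ∈ s, (C ((m b : ℂ) - 1) * Ra s b).coeff (s.card - 1) = (m b : ℂ) - 1 := by
    intro b hb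
    rw [coeff_C_mul, ← Ra_natDegree hb, (Ra_monic b).coeff_natDegree, mul_one]
  rw [Finset.sum_congr rfl this, Finset.sum_sub_distrib]
  simp

theorem coeff_L (hs : 0 < s.card) (N : ℂ[X]) :
    (L s m N).coeff (N.natDegree + (s.card - 1)) =
      N.leadingCoeff * (N.natDegree - ((∑ b ∈ s, (m b : ℂ)) - s.card)) := by
  rw [L, coeff_sub, coeff_mul_add_eq_of_natDegree_le le_rfl Tt_natDegree, Tt_coeff]
  have h1 : (derivative N * Rad s).coeff (N.natDegree + (s.card - 1)) =
      N.leadingCoeff * N.natDegree := by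
    rcases Nat.eq_zero_or_pos N.natDegree with h | h
    · rw [derivative_of_natDegree_zero h]; simp [h]
    · rw [show N.natDegree + (s.card - 1) = (N.natDegree - 1) + s.card by omega,
        coeff_mul_add_eq_of_natDegree_le (natDegree_derivative_le N) (Rad_natDegree).le,
        coeff_derivative, ← Rad_natDegree, Rad_monic.coeff_natDegree, mul_one]
      rw [Nat.sub_add_cancel h, leadingCoeff]
      congr 1
      have : ((N.natDegree - 1 : ℕ) : ℂ) + 1 = ((N.natDegree - 1 + 1 : ℕ) : ℂ) := by push_cast; ring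
      rw [this, Nat.sub_add_cancel h]
  rw [h1, leadingCoeff]; ring

theorem coeff_L_ne (hs : 0 < s.card) {N : ℂ[X]} (hN : N ≠ 0)
    (hd : N.natDegree < (∑ b ∈ s, m b) - s.card) :
    (L s m N).coeff (N.natDegree + (s.card - 1)) ≠ 0 := by
  rw [coeff_L hs]
  refine mul_ne_zero (leadingCoeff_ne_zero.2 hN) ?_
  intro h
  have h1 : ((N.natDegree + s.card : ℕ) : ℂ) = ((∑ b ∈ s, m b : ℕ) : ℂ) := by
    push_cast
    linear_combination h
  have h2 := Nat.cast_injective h1
  omega

theorem Pol_natDegree (hl : l ≠ 0) : (Pol s m l).natDegree = ∑ b ∈ s, m b := by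
  rw [Pol, natDegree_C_mul hl, natDegree_prod_of_monic _ _ fun a _ => (monic_X_sub_C a).pow _]
  refine Finset.sum_congr rfl fun b _ => ?_
  rw [natDegree_pow, natDegree_X_sub_C, mul_one]

theorem Pol_ne (hl : l ≠ 0) : Pol s m l ≠ 0 := by
  rw [Pol]
  exact mul_ne_zero (C_ne_zero.2 hl)
    (Finset.prod_ne_zero_iff.2 fun a _ => pow_ne_zero _ (X_sub_C_ne_zero a))

/-- the map `(N, c) ↦ L N + ∑ c_a Pol / (X - a)` -/
noncomputable def Psi (s : Finset ℂ) (m : ℂ → ℕ) (l : ℂ) : ℂ[X] × (s → ℂ) →ₗ[ℂ] ℂ[X] where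
  toFun x := L s m x.1 + ∑ a : s, C (x.2 a) * Qa s m l a
  map_add' x y := by
    simp only [L, Prod.fst_add, Prod.snd_add, Pi.add_apply, C_add, add_mul, derivative_add,
      Finset.sum_add_distrib]
    ring
  map_smul' c x := by
    simp only [L, Prod.smul_fst, Prod.smul_snd, Pi.smul_apply, smul_eq_mul, C_mul, RingHom.id_apply,
      smul_eq_C_mul, derivative_C_mul, mul_add, mul_sub, Finset.mul_sum]
    congr 1
    · ring
    · exact Finset.sum_congr rfl fun a _ => by ring

theorem R_Psi (hl : l ≠ 0) (hm : ∀ a ∈ s, 0 < m a) (a : s) (x : ℂ[X] × (s → ℂ)) :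
    R s m l a (Psi s m l x) = x.2 a := by
  show R s m l a (L s m x.1 + ∑ a : s, C (x.2 a) * Qa s m l a) = x.2 a
  rw [R_add, R_L hl hm a.2, zero_add, R_sum, Finset.sum_eq_single a]
  · rw [R_C_mul, R_Qa_self hl, mul_one]
  · intro b _ hb
    rw [R_C_mul, R_Qa a.2 (hm a a.2), mul_zero]
    intro h
    exact hb (Subtype.ext h.symm)
  · intro h; exact absurd (Finset.mem_univ a) h

theorem Psi_degree (hl : l ≠ 0) (hm : ∀ a ∈ s, 0 < m a) (hs : 0 < s.card)
    (x : ℂ[X] × (s → ℂ)) (hx : x.1 ∈ degreeLT ℂ ((∑ b ∈ s, m b) - s.card)) :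
    Psi s m l x ∈ degreeLT ℂ (∑ b ∈ s, m b) := by
  show L s m x.1 + ∑ a : s, C (x.2 a) * Qa s m l a ∈ degreeLT ℂ (∑ b ∈ s, m b)
  have hle : s.card ≤ ∑ b ∈ s, m b := by
    rw [Finset.card_eq_sum_ones]
    exact Finset.sum_le_sum fun a ha => hm a ha
  refine Submodule.add_mem _ ?_ (Submodule.sum_mem _ fun a _ => ?_)
  · rcases eq_or_ne x.1 0 with h0 | h0
    · rw [h0, L]; simp
    · rw [mem_degreeLT] at hx ⊢
      rw [degree_eq_natDegree h0, Nat.cast_lt] at hx
      have h1 : (L s m x.1).natDegree ≤ (∑ b ∈ s, m b) - 1 := by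
        rw [L]
        refine (natDegree_sub_le _ _).trans (max_le ?_ ?_)
        · rcases Nat.eq_zero_or_pos x.1.natDegree with h | h
          · rw [derivative_of_natDegree_zero h]; simp
          · refine natDegree_mul_le.trans ?_
            have := natDegree_derivative_le x.1
            rw [Rad_natDegree]
            omega
        · refine natDegree_mul_le.trans ?_
          have := Tt_natDegree (s := s) (m := m)
          omega
      refine lt_of_le_of_lt degree_le_natDegree ?_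
      rw [Nat.cast_lt]
      omega
  · rw [← smul_eq_C_mul]
    refine Submodule.smul_mem _ _ ?_
    rw [mem_degreeLT]
    have h1 := mul_Qa (l := l) a.2 (hm a a.2)
    have h2 := congrArg natDegree h1
    have h3 : Qa s m l a ≠ 0 := by
      intro h
      rw [h, mul_zero] at h1
      exact Pol_ne hl h1.symm
    rw [natDegree_mul (X_sub_C_ne_zero _) h3, natDegree_X_sub_C, Pol_natDegree hl] at h2
    rw [degree_eq_natDegree h3, Nat.cast_lt]
    omega

theorem exists_N (hl : l ≠ 0) (hm : ∀ a ∈ s, 0 < m a) (hs : 0 < s.card) (P : ℂ[X])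
    (hP : P ∈ degreeLT ℂ (∑ b ∈ s, m b)) (hR : ∀ a ∈ s, R s m l a P = 0) :
    ∃ N ∈ degreeLT ℂ ((∑ b ∈ s, m b) - s.card), L s m N = P := by
  have hle : s.card ≤ ∑ b ∈ s, m b := by
    rw [Finset.card_eq_sum_ones]
    exact Finset.sum_le_sum fun a ha => hm a ha
  set V := degreeLT ℂ ((∑ b ∈ s, m b) - s.card) with hV
  set W := degreeLT ℂ (∑ b ∈ s, m b) with hW
  let f : (V × (s → ℂ)) →ₗ[ℂ] W :=
    LinearMap.codRestrict W
      ((Psi s m l).comp (LinearMap.prodMap V.subtype LinearMap.id))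
      (fun x => Psi_degree hl hm hs _ x.1.2)
  have hf : ∀ x, (f x : ℂ[X]) = Psi s m l ((x.1 : ℂ[X]), x.2) := fun x => rfl
  have : Module.Finite ℂ V := Module.Finite.equiv (degreeLTEquiv ℂ _).symm
  have : Module.Finite ℂ W := Module.Finite.equiv (degreeLTEquiv ℂ _).symm
  have hinj : Function.Injective f := by
    rw [injective_iff_map_eq_zero]
    intro x hx
    have h0 : Psi s m l ((x.1 : ℂ[X]), x.2) = 0 := by
      rw [← hf, hx]; rfl
    have h1 : x.2 = 0 := by
      funext a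
      have := R_Psi hl hm a ((x.1 : ℂ[X]), x.2)
      rw [h0] at this
      rw [← this]
      simp [R]
    have h2 : L s m (x.1 : ℂ[X]) = 0 := by
      have h3 : L s m (x.1 : ℂ[X]) + ∑ a : s, C (x.2 a) * Qa s m l a = 0 := h0
      rw [h1] at h3
      simpa using h3
    have h4 : (x.1 : ℂ[X]) = 0 := by
      by_contra hne
      have hx1 : (x.1 : ℂ[X]) ∈ degreeLT ℂ ((∑ b ∈ s, m b) - s.card) := x.1.2
      rw [mem_degreeLT, degree_eq_natDegree hne, Nat.cast_lt] at hx1
      exact coeff_L_ne hs hne hx1 (by rw [h2, coeff_zero])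
    exact Prod.ext (Subtype.ext h4) h1
  have hfin : Module.finrank ℂ (V × (s → ℂ)) = Module.finrank ℂ W := by
    rw [Module.finrank_prod, LinearEquiv.finrank_eq (degreeLTEquiv ℂ _),
      LinearEquiv.finrank_eq (degreeLTEquiv ℂ _), Module.finrank_fin_fun, Module.finrank_fin_fun,
      Module.finrank_fintype_fun_eq_card, Fintype.card_coe]
    omega
  have hsur := (LinearMap.injective_iff_surjective_of_finrank_eq_finrank hfin).1 hinj
  obtain ⟨x, hx⟩ := hsur ⟨P, hP⟩
  have h0 : Psi s m l ((x.1 : ℂ[X]), x.2) = P := by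
    rw [← hf, hx]
  have h1 : x.2 = 0 := by
    funext a
    have := R_Psi hl hm a ((x.1 : ℂ[X]), x.2)
    rw [h0, hR a a.2] at this
    exact this.symm
  refine ⟨x.1, x.1.2, ?_⟩
  have h3 : L s m (x.1 : ℂ[X]) + ∑ a : s, C (x.2 a) * Qa s m l a = P := h0
  rw [h1] at h3
  simpa using h3

end P42

open Polynomial P42 in
theorem powerStmt_42 : PowerStmt := by
  intro Q hQ hres
  have hQ0 : Q ≠ 0 := by rintro rfl; simp at hQ
  set s := Q.roots.toFinset with hs
  set m : ℂ → ℕ := fun a => Q.roots.count a with hm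
  set l := Q.leadingCoeff with hl
  have hl0 : l ≠ 0 := leadingCoeff_ne_zero.2 hQ0
  have hQP : Q = Pol s m l := by
    conv_lhs => rw [(IsAlgClosed.splits Q).eq_prod_roots]
    rw [Pol, ← Finset.prod_multiset_map_count]
  have hm0 : ∀ a ∈ s, 0 < m a := by
    intro a ha
    rw [hm]
    exact Multiset.count_pos.2 (Multiset.mem_toFinset.1 ha)
  have hdeg : Q.natDegree = ∑ b ∈ s, m b := by
    conv_lhs => rw [hQP]
    exact Pol_natDegree hl0
  have hs0 : 0 < s.card := by
    rw [Finset.card_pos, Finset.nonempty_iff_ne_empty]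
    intro h
    rw [h, Finset.sum_empty] at hdeg
    omega
  obtain ⟨N, hN, hLN⟩ := exists_N hl0 hm0 hs0 1
    (by rw [mem_degreeLT, ← hdeg, degree_one]; exact_mod_cast (by omega : 0 < Q.natDegree))
    (by
      intro a ha
      rw [← lau_eq hl0 ha (hm0 a ha), ← hQP]
      exact hres a)
  have hN0 : N ≠ 0 := by
    rintro rfl
    rw [L] at hLN
    simp at hLN
  rw [mem_degreeLT, degree_eq_natDegree hN0, Nat.cast_lt] at hN
  have h1 := coeff_L_ne hs0 hN0 hN
  rw [hLN, coeff_one] at h1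
  have h2 : N.natDegree + (s.card - 1) = 0 := by
    by_contra h
    exact h1 (if_neg h)
  have h3 : s.card = 1 := by omega
  obtain ⟨α, hα⟩ := Finset.card_eq_one.1 h3
  refine ⟨α, ?_⟩
  conv_lhs => rw [hQP]
  rw [hdeg, hα, Pol]
  simp

end Pool.Agent.Lib.MP_1e09a3_nt.FO
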