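import Pool.Agent.Lib.MP_1e09a3_nt.FlatField
import Pool.Agent.Lib.MP_1e09a3_nt.FE.Stmts73

/-!
First order equations and integral functions: statements of the modules.
-/

open MvPolynomial

namespace Pool.Agent.Lib.MP_1e09a3_nt.FO

open FE

/-- the vector field `∑ A_i ∂/∂X_i` -/
noncomputable abbrev vec {k : Type} [CommRing k] {N : ℕ} (A : Fin N → MvPolynomial (Fin N) k) :
    Derivation k (MvPolynomial (Fin N) k) (MvPolynomial (Fin N) k) := mkDerivation k A

/-- The `p`-th power of the vector field `A` is proportional to `A`. -/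
def PClosed {k : Type} [CommRing k] {N : ℕ} (A : Fin N → MvPolynomial (Fin N) k) (p : ℕ) : Prop :=
  ∀ i j, (⇑(vec A))^[p] (X i) * A j = (⇑(vec A))^[p] (X j) * A i

/-! ### from characteristic zero to characteristic `p` -/

/-- Hochschild's formula: if `D^p = 0` mod `p` then `(φ D)^p` is a multiple of `D` mod `p`. -/
def HochStmt : Prop :=
  ∀ (C Ω : Type) [Field C] [Field Ω] [CharZero Ω] [Algebra C Ω] (D : Derivation C Ω Ω)
    (B : Subalgebra ℤ Ω) (z φ : Ω) (p : ℕ), p.Prime → z ∈ B → D z = 1 → φ ∈ B → Stable D B →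
    (∀ x ∈ B, DivBy B p ((⇑D)^[p] x)) → ∀ s ∈ B, ∀ t ∈ B,
      DivBy B p ((fun x => φ * D x)^[p] s * D t - (fun x => φ * D x)^[p] t * D s)

/-- A polynomial whose value at algebraically independent elements is divisible by `p` in a
finitely generated ring is zero modulo `p`. -/
def DescendStmt : Prop :=
  ∀ (C Ω : Type) [Field C] [CharZero C] [Field Ω] [Algebra C Ω] (N : ℕ) (f : Fin N → Ω),
    AlgebraicIndependent C f → ∀ S : Set Ω, S.Finite → ∀ T : Set C, T.Finite →
    ∃ T' : Set C, T'.Finite ∧ T ⊆ Zg T' ∧ ∀ (g : MvPolynomial (Fin N) (Zg T')) (p : ℕ),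
      DivBy (Algebra.adjoin ℤ S) p (aeval f (map (Zg T').subtype g)) →
      ∀ (k : Type) [Field k] [CharP k p] [Fact p.Prime] (π : Zg T' →+* k), map π g = 0

/-- The vector field of a flat solution is `p`-closed after reduction. -/
def PClosedStmt : Prop :=
  ∀ (C Ω : Type) [Field C] [CharZero C] [Field Ω] [Algebra C Ω] (D : Derivation C Ω Ω) (z : Ω),
    D z = 1 → ∀ (N : ℕ) (f : Fin N → Ω), (∀ i, IsFlatElt D (f i)) → AlgebraicIndependent C f →
    (∃ i, D (f i) ≠ 0) → ∀ A : Fin N → MvPolynomial (Fin N) C,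
    (∀ i j, aeval f (A i) * D (f j) = aeval f (A j) * D (f i)) → ∀ T : Set C, T.Finite →
    ∃ T' : Set C, T'.Finite ∧ T ⊆ Zg T' ∧ ∃ A' : Fin N → MvPolynomial (Fin N) (Zg T'),
      (∀ i, map (Zg T').subtype (A' i) = A i) ∧
      ∀ (p : ℕ) (k : Type) [Field k] [CharP k p] [Fact p.Prime] (π : Zg T' →+* k),
        PClosed (fun i => map π (A' i)) p

/-- Kronecker's theorem, form with points of characteristic `p`. -/
def RatStmt : Prop :=
  ∀ (C : Type) [Field C] [CharZero C] [IsAlgClosed C] (T : Set C), T.Finite → ∀ b : Zg T,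
    (∀ (p : ℕ) (k : Type) [Field k] [CharP k p] [Fact p.Prime] (π : Zg T →+* k),
      π b ^ p = π b) → ∃ q : ℚ, (q : C) = b

/-! ### zeros of the vector field -/

/-- the Jacobian matrix at a point -/
noncomputable def jacAt {k : Type} [CommRing k] {N : ℕ} (A : Fin N → MvPolynomial (Fin N) k)
    (P : Fin N → k) : Matrix (Fin N) (Fin N) k :=
  Matrix.of fun i j => eval P (pderiv j (A i))

/-- the second order part of `p`-closedness at a zero -/
def LocalStmt : Prop :=
  ∀ (k : Type) [Field k] (N : ℕ) (A : Fin N → MvPolynomial (Fin N) k) (P : Fin N → k) (p : ℕ),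
    0 < p → (∀ i, eval P (A i) = 0) → PClosed A p → ∀ (w : Fin N → k) (i j : Fin N),
      (jacAt A P ^ p).mulVec w i * (jacAt A P).mulVec w j =
        (jacAt A P ^ p).mulVec w j * (jacAt A P).mulVec w i

/-- The matrix `J` is not nilpotent and not a multiple of a diagonalizable matrix with rational
eigenvalues: there are two eigenvalues `l ≠ 0` and `μ ∉ ℚ l`, or a Jordan block with eigenvalue
`l ≠ 0`, or a nonzero eigenvalue and a Jordan block with eigenvalue `0`. -/
def Bad {C : Type} [Field C] {N : ℕ} (J : Matrix (Fin N) (Fin N) C) : Prop :=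
  ∃ (l : C) (w : Fin N → C), l ≠ 0 ∧ w ≠ 0 ∧ J.mulVec w = l • w ∧
    ((∃ (μ : C) (v : Fin N → C), v ≠ 0 ∧ J.mulVec v = μ • v ∧ ∀ q : ℚ, μ ≠ q * l) ∨
      (∃ v : Fin N → C, J.mulVec v = l • v + w) ∨
      ∃ v v' : Fin N → C, v ≠ 0 ∧ J.mulVec v = 0 ∧ J.mulVec v' = v)

def SpectralStmt : Prop :=
  ∀ (C : Type) [Field C] [CharZero C] [IsAlgClosed C] (N : ℕ) (J : Matrix (Fin N) (Fin N) C),
    Bad J → ∃ T : Set C, T.Finite ∧ ∀ T' : Set C, T'.Finite → T ⊆ Zg T' →
      ∀ J' : Matrix (Fin N) (Fin N) (Zg T'), J'.map (Zg T').subtype = J →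
      ¬ ∀ (p : ℕ) (k : Type) [Field k] [CharP k p] [Fact p.Prime] (π : Zg T' →+* k)
        (w : Fin N → k) (i j : Fin N),
        (J'.map π ^ p).mulVec w i * (J'.map π).mulVec w j =
          (J'.map π ^ p).mulVec w j * (J'.map π).mulVec w i

/-- The vector field has a zero with a bad linear part. -/
def BadPoint {N : ℕ} (A : Fin N → MvPolynomial (Fin N) ℂ) : Prop :=
  ∃ P : Fin N → ℂ, (∀ i, eval P (A i) = 0) ∧ Bad (jacAt A P)

/-! ### invariant lines -/

/-- restriction to the line `X_0 = 0` -/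
noncomputable def res {k : Type} [CommRing k] (g : MvPolynomial (Fin 2) k) : Polynomial k :=
  aeval ![0, Polynomial.X] g

/-- the operator `g ↦ b g' + ε a g` -/
noncomputable def nab {k : Type} [CommRing k] (ε : k) (a b g : Polynomial k) : Polynomial k :=
  b * Polynomial.derivative g + Polynomial.C ε * a * g

/-- `p`-closedness along an invariant line -/
def LineStmt : Prop :=
  ∀ (k : Type) [Field k] (A : Fin 2 → MvPolynomial (Fin 2) k) (m p : ℕ)
    (a : MvPolynomial (Fin 2) k), 0 < m → 0 < p → A 0 = X 0 ^ m * a → PClosed A p →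
    (nab (if m = 1 then 1 else 0) (res a) (res (A 1)))^[p - 1] (res a) * res (A 1) =
      (nab 0 0 (res (A 1)))^[p - 1] (res (A 1)) * res a

/-- exactness in characteristic `p` -/
def ExactStmt : Prop :=
  ∀ (F : Type) [Field F] (p : ℕ) [CharP F p] [Fact p.Prime], p ≠ 2 →
    ∀ (δ : Derivation ℤ F F) (v f : F), δ v ≠ 0 → (∀ h, (⇑δ)^[p] h = f * δ h) → ∀ a : F,
    ((⇑δ)^[p - 1] a = f * a → ∃ g, δ g = a) ∧
    ((fun g => δ g + a * g)^[p - 1] a = f * a → ∃ g, g ≠ 0 ∧ δ g = -(a * g))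

/-- Laurent expansion of `a / b` at `c` -/
noncomputable def lau {k : Type} [Field k] (c : k) (a b : Polynomial k) : LaurentSeries k :=
  HahnSeries.ofPowerSeries ℤ k (Polynomial.taylor c a : Polynomial k) /
    HahnSeries.ofPowerSeries ℤ k (Polynomial.taylor c b : Polynomial k)

/-- residues in characteristic `p` -/
def ResPStmt : Prop :=
  ∀ (k : Type) [Field k] (p : ℕ) [CharP k p] [Fact p.Prime], p ≠ 2 → ∀ a b : Polynomial k,
    b ≠ 0 → ∀ c : k,
    ((nab 0 a b)^[p - 1] a * b = (nab 0 0 b)^[p - 1] b * a → (lau c a b).coeff (-1) = 0) ∧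
    ((nab 1 a b)^[p - 1] a * b = (nab 0 0 b)^[p - 1] b * a →
      (∀ n : ℤ, n < -1 → (lau c a b).coeff n = 0) ∧
        (lau c a b).coeff (-1) ^ p = (lau c a b).coeff (-1))

/-- reduction of the Laurent expansion -/
def LauMapStmt : Prop :=
  ∀ (C : Type) [Field C] (a b : Polynomial C) (c : C), b ≠ 0 →
    ∃ T : Set C, T.Finite ∧ ∀ T' : Set C, T ⊆ Zg T' → ∀ (a' b' : Polynomial (Zg T')) (c' : Zg T'),
      a'.map (Zg T').subtype = a → b'.map (Zg T').subtype = b → (c' : C) = c → ∀ n : ℤ,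
      ∃ h : Zg T', (h : C) = (lau c a b).coeff n ∧ ∀ (k : Type) [Field k] (π : Zg T' →+* k),
        b'.map π ≠ 0 ∧ π h = (lau (π c') (a'.map π) (b'.map π)).coeff n

/-- `X_0 = 0` is an invariant line of `A`, `A_0 = X_0^m a`, and the form
`a(0, Y) dY / A_1(0, Y)` has a nonzero residue (`m ≥ 2`), or a multiple pole or an irrational
residue (`m = 1`). -/
def BadLine (A : Fin 2 → MvPolynomial (Fin 2) ℂ) : Prop :=
  ∃ (m : ℕ) (a : MvPolynomial (Fin 2) ℂ) (c : ℂ), A 0 = X 0 ^ m * a ∧ res (A 1) ≠ 0 ∧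
    ((2 ≤ m ∧ (lau c (res a) (res (A 1))).coeff (-1) ≠ 0) ∨
      (m = 1 ∧ ((∃ n : ℤ, n < -1 ∧ (lau c (res a) (res (A 1))).coeff n ≠ 0) ∨
        ∀ q : ℚ, (lau c (res a) (res (A 1))).coeff (-1) ≠ q)))

/-! ### algebra -/

/-- If all residues of `dY / Q(Y)` vanish then `Q` is a power of a linear polynomial. -/
def PowerStmt : Prop :=
  ∀ Q : Polynomial ℂ, 2 ≤ Q.natDegree → (∀ c : ℂ, (lau c 1 Q).coeff (-1) = 0) →
    ∃ α : ℂ, Q = Polynomial.C Q.leadingCoeff * (Polynomial.X - Polynomial.C α) ^ Q.natDegree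

/-- exchange -/
def ExchStmt : Prop :=
  ∀ (C Ω : Type) [Field C] [Field Ω] [Algebra C Ω] (z y u v : Ω),
    AlgebraicIndependent C ![z, y] → IsAlgebraic (IntermediateField.adjoin C {u, v}) z →
    IsAlgebraic (IntermediateField.adjoin C {u, v}) y →
    AlgebraicIndependent C ![u, v] ∧ IsAlgebraic (IntermediateField.adjoin C {z, y}) u ∧
      IsAlgebraic (IntermediateField.adjoin C {z, y}) v

end Pool.Agent.Lib.MP_1e09a3_nt.FO
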